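import Mathlib

/-!
# KE/Alg: the exponents

`q = √(16 p² - 16 p + 1)`. `sst p` is the smaller root of `4 s² - (8 p - 7) s + 3 (p - 1)² = 0`, the other one is
`p - 7/8 + q/8`. `16 p² - 16 p + 1 > 1` for `p > 1`.
`sst_pos`: `(8 p - 7)² - q² = 48 (p - 1)² > 0`. `sst_lt`: `q > 1`. `sst_lt_one`: `8 p - 15 < q`; for `8 p ≤ 15` clear, otherwise
`(8 p - 15)² < q²` iff `3 p² - 14 p + 14 < 0`, i.e. `(7 - √7)/3 < p < (7 + √7)/3` (`√7² = 7`, `p ≥ 15/8`).
`exists_beta`: for `sst p < s < p - 1` (`s` between the two roots, as `p - 1 < p - 7/8 + q/8`):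
`4 s² - (8 p - 7) s + 3 (p - 1)² < 0`, that is `3 u² < s (s + 1) + 2 u s` with `u = p - 1 - s > 0`; by continuity it holds for
`β < s` near `s` (or: choose `β` explicitly, e.g. `β = s - ε`, with `ε` small).
-/

set_option autoImplicit false

open Set Filter Topology

namespace Pool.Agent.H.MP_215299_an.KE

noncomputable def sst (p : ℝ) : ℝ := p - 7 / 8 - √(16 * p ^ 2 - 16 * p + 1) / 8

theorem sst_pos {p : ℝ} (hp : 1 < p) : 0 < sst p := by
  have h1 : √(16 * p ^ 2 - 16 * p + 1) < 8 * p - 7 := by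
    rw [Real.sqrt_lt' (by linarith)]
    nlinarith [sq_pos_of_pos (sub_pos.2 hp)]
  unfold sst
  linarith

private theorem Alg_one_lt {p : ℝ} (hp : 1 < p) : 1 < √(16 * p ^ 2 - 16 * p + 1) := by
  rw [Real.lt_sqrt (by norm_num)]
  nlinarith

theorem sst_lt {p : ℝ} (hp : 1 < p) : sst p < p - 1 := by
  have h1 := Alg_one_lt hp
  unfold sst
  linarith

theorem sst_lt_one {p : ℝ} (hp : 1 < p) (hp2 : p < (7 + √7) / 3) : sst p < 1 := by
  have h1 := Alg_one_lt hp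
  have h2 : 8 * p - 15 < √(16 * p ^ 2 - 16 * p + 1) := by
    by_cases h3 : 8 * p ≤ 15
    · linarith
    · push Not at h3
      rw [Real.lt_sqrt (by linarith)]
      have h7 : √7 ^ 2 = 7 := Real.sq_sqrt (by norm_num)
      have h8 : 2 < √7 := by
        rw [Real.lt_sqrt (by norm_num)]
        norm_num
      have h9 : 0 < p - (7 - √7) / 3 := by linarith
      have h10 : 0 < (7 + √7) / 3 - p := by linarith
      have h11 := mul_pos h9 h10
      nlinarith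
  unfold sst
  linarith

theorem exists_beta {p s : ℝ} (hp : 1 < p) (h1 : sst p < s) (h2 : s < p - 1) :
    ∃ β : ℝ, 0 < β ∧ β < s ∧
      3 * (p - 1 - s) ^ 2 < β * (β + 1) + 2 * (p - 1 - s) * β := by
  have hs : 0 < s := (sst_pos hp).trans h1
  have hq := Alg_one_lt hp
  have hq2 : √(16 * p ^ 2 - 16 * p + 1) ^ 2 = 16 * p ^ 2 - 16 * p + 1 :=
    Real.sq_sqrt (by nlinarith)
  have hlt : 3 * (p - 1 - s) ^ 2 < s * (s + 1) + 2 * (p - 1 - s) * s := by
    have h3 : 0 < s - (p - 7 / 8 - √(16 * p ^ 2 - 16 * p + 1) / 8) := by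
      unfold sst at h1
      linarith
    have h4 : 0 < p - 7 / 8 + √(16 * p ^ 2 - 16 * p + 1) / 8 - s := by linarith
    have h5 := mul_pos h3 h4
    nlinarith
  have hc : ContinuousAt (fun β : ℝ => β * (β + 1) + 2 * (p - 1 - s) * β) s := by fun_prop
  have h3 : ∀ᶠ β in 𝓝 s, 3 * (p - 1 - s) ^ 2 < β * (β + 1) + 2 * (p - 1 - s) * β :=
    hc.eventually (lt_mem_nhds hlt)
  have h4 : ∀ᶠ β in 𝓝 s, 0 < β := lt_mem_nhds hs
  have h5 : ∀ᶠ β in 𝓝[<] s, (3 * (p - 1 - s) ^ 2 < β * (β + 1) + 2 * (p - 1 - s) * β ∧ 0 < β) ∧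
      β < s := ((h3.and h4).filter_mono nhdsWithin_le_nhds).and self_mem_nhdsWithin
  obtain ⟨β, ⟨h6, h7⟩, h8⟩ := h5.exists
  exact ⟨β, h7, h8, h6⟩

end Pool.Agent.H.MP_215299_an.KE
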