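import Pool.Agent.H.MP_215299_an.KD.Geo
import Pool.Agent.H.MP_215299_an.KD.VolL

/-!
# KE/Area: the area integral over the image

PROOF: `o = oo F w`, `d = dd f w`, `D = ‖deriv F w‖`. `geoB`: `o ≤ 4 d D`. So `o / d ≤ 4 D` and `d ≥ o / (4 D)`,
`d^(s-1) ≤ (o / (4 D))^(s-1)`; the product is at most `4^(p+1-s) D² (D^(p-1-s) o^(s-1))`, `D = ‖deriv f (F w)‖⁻¹`
(`H65K.deriv_inv`). `H65K.cov` with `Ψ = F`, `U = f '' ball 0 1` (see `H65K.intA` in KD/IntA, which is very similar).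
-/

set_option autoImplicit false

open Complex Metric Set MeasureTheory Filter Topology
open scoped ENNReal

namespace Pool.Agent.H.MP_215299_an.KE

open H65K

/-- the pointwise estimate -/
private theorem Area_point {o d D a p s : ℝ} (ho : 0 < o) (hd : 0 < d) (ha : 0 < a)
    (hDa : D = a⁻¹) (hp : 0 ≤ p) (hs : s ≤ 1) (hB : o ≤ 4 * d * D) :
    (o / d) ^ p * d ^ (s - 1) ≤
      (4 : ℝ) ^ (p + 1 - s) * (D ^ 2 * (a ^ (-(p - 1 - s)) * o ^ (s - 1))) := by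
  have hD : 0 < D := by
    rw [hDa]
    positivity
  have h1 : (o / d) ^ p ≤ (4 * D) ^ p := by
    refine Real.rpow_le_rpow (div_pos ho hd).le ?_ hp
    rw [div_le_iff₀ hd]
    linarith
  have h2 : d ^ (s - 1) ≤ o ^ (s - 1) * (4 * D) ^ (1 - s) := by
    have h3 : o / (4 * D) ≤ d := by
      rw [div_le_iff₀ (by positivity)]
      linarith
    refine (Real.rpow_le_rpow_of_nonpos (by positivity) h3 (by linarith)).trans (le_of_eq ?_)
    rw [Real.div_rpow ho.le (by positivity), div_eq_mul_inv, ← Real.rpow_neg (by positivity)]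
    congr 2
    ring
  have h4 : a ^ (-(p - 1 - s)) = D ^ (p - 1 - s) := by
    rw [hDa, Real.inv_rpow ha.le, Real.rpow_neg ha.le]
  have h5 : (4 * D) ^ p * (4 * D) ^ (1 - s) = (4 : ℝ) ^ (p + 1 - s) * (D ^ 2 * D ^ (p - 1 - s)) := by
    rw [← Real.rpow_add (by positivity), ← Real.rpow_natCast D 2, ← Real.rpow_add hD,
      Real.mul_rpow (by norm_num) hD.le]
    congr 2
    · ring
    · push_cast
      ring
  rw [h4]
  calc (o / d) ^ p * d ^ (s - 1) ≤ (4 * D) ^ p * (o ^ (s - 1) * (4 * D) ^ (1 - s)) := by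
        gcongr
    _ = (4 * D) ^ p * (4 * D) ^ (1 - s) * o ^ (s - 1) := by ring
    _ = (4 : ℝ) ^ (p + 1 - s) * (D ^ 2 * (D ^ (p - 1 - s) * o ^ (s - 1))) := by
        rw [h5]
        ring

theorem area {f F : ℂ → ℂ} (hf : Schl f) (hF : ∀ z ∈ ball (0 : ℂ) 1, F (f z) = z) {p s : ℝ}
    (hp : 0 ≤ p) (hs : s ≤ 1)
    (hint : ∫⁻ z in ball (0 : ℂ) 1,
      ENNReal.ofReal (‖deriv f z‖ ^ (-(p - 1 - s)) * (1 - ‖z‖ ^ 2) ^ (s - 1)) < ⊤) :
    ∫⁻ w in f '' ball 0 1, ENNReal.ofReal ((oo F w / dd f w) ^ p * dd f w ^ (s - 1)) < ⊤ := by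
  have hU : IsOpen (f '' ball 0 1) := isOpen_im isOpen_ball hf.diff hf.inj
  have hFd : DifferentiableOn ℂ F (f '' ball 0 1) := diff_inv isOpen_ball hf.diff hf.inj hF
  have hFi : InjOn F (f '' ball 0 1) := by
    rintro _ ⟨z, hz, rfl⟩ _ ⟨z', hz', rfl⟩ h
    rw [hF z hz, hF z' hz'] at h
    rw [h]
  have hFU : F '' (f '' ball 0 1) = ball 0 1 := by
    ext z
    constructor
    · rintro ⟨_, ⟨y, hy, rfl⟩, rfl⟩
      rw [hF y hy]
      exact hy
    · intro hz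
      exact ⟨f z, ⟨z, hz, rfl⟩, hF z hz⟩
  have hcov := cov hU hFd hFi (fun z =>
    ENNReal.ofReal (‖deriv f z‖ ^ (-(p - 1 - s)) * (1 - ‖z‖ ^ 2) ^ (s - 1)))
  rw [hFU] at hcov
  have hle : ∫⁻ w in f '' ball 0 1, ENNReal.ofReal ((oo F w / dd f w) ^ p * dd f w ^ (s - 1)) ≤
      ∫⁻ w in f '' ball 0 1, ENNReal.ofReal ((4 : ℝ) ^ (p + 1 - s)) *
        (ENNReal.ofReal (‖deriv F w‖ ^ 2) *
          ENNReal.ofReal (‖deriv f (F w)‖ ^ (-(p - 1 - s)) * (1 - ‖F w‖ ^ 2) ^ (s - 1))) := by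
    refine setLIntegral_mono' hU.measurableSet fun w hw => ?_
    obtain ⟨ho, _⟩ := oo_pos hf hF hw
    have hd := dd_pos hf hw
    have hB := geoB hf hF hw
    rw [← ENNReal.ofReal_mul (by positivity), ← ENNReal.ofReal_mul (by positivity)]
    refine ENNReal.ofReal_le_ofReal ?_
    obtain ⟨z, hz, rfl⟩ := hw
    obtain ⟨h2, h3⟩ := deriv_inv isOpen_ball hf.diff hf.inj hF hz
    refine Area_point ho hd (a := ‖deriv f (F (f z))‖) ?_ ?_ hp hs hB
    · rw [hF z hz]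
      exact norm_pos_iff.2 h2
    · rw [hF z hz, h3, norm_inv]
  refine hle.trans_lt ?_
  rw [lintegral_const_mul' _ _ ENNReal.ofReal_ne_top, hcov]
  exact ENNReal.mul_lt_top ENNReal.ofReal_lt_top hint

end Pool.Agent.H.MP_215299_an.KE
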