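import Pool.Agent.H.MP_215299_an.KE.PDef
import Pool.Agent.H.MP_215299_an.KD.Quar
import Pool.Agent.H.MP_215299_an.KD.Ne

/-!
# KE/Base: change of the base point

PROOF: `z₀ = F a`, `φ ζ = (ζ + z₀) / (1 + conj z₀ ζ)`, `c = (1 - |z₀|²) f'(z₀)`, `h ζ = (f (φ ζ) - a) / c` (in `Schl`, see the proof of
`H65K.shift` in KD/Quar), `G w = (F (a + c w) - z₀) / (1 - conj z₀ F (a + c w))`, the inverse. For `u = exp (θ I)`,
`c = |c| exp (α I)`: `a + t u ∈ f '' ball 0 1 ↔ w ∈ h '' ball 0 1` with `w = (t / |c|) exp ((θ - α) I)`, and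
`deriv G w = c F'(a + t u) (1 - |z₀|²) / (1 - conj z₀ F (a + t u))²`, so `|F'(a + t u)| ≤ M |G' w|`, `M = 4 / (|c| (1 - |z₀|²))`. So
`LI p f F a (exp (θ I)) = ⊤` implies `LI p h G 0 (exp ((θ - α) I)) = ⊤` (substitution `t = |c| x`, `0 < |c|`).
-/

set_option autoImplicit false

open Complex Metric Set MeasureTheory Filter Topology
open scoped ENNReal

namespace Pool.Agent.H.MP_215299_an.KE

open H65K

/-- the automorphism of the disc -/
private noncomputable def Base_phi (z ζ : ℂ) : ℂ := (ζ + z) / (1 + (starRingEnd ℂ) z * ζ)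

private theorem Base_den {z ζ : ℂ} (hz : ‖z‖ < 1) (hζ : ‖ζ‖ < 1) :
    1 + (starRingEnd ℂ) z * ζ ≠ 0 := by
  intro h1
  have h2 : (starRingEnd ℂ) z * ζ = -1 := by linear_combination h1
  have h3 : ‖(starRingEnd ℂ) z * ζ‖ = 1 := by rw [h2, norm_neg, norm_one]
  rw [norm_mul, Complex.norm_conj] at h3
  have h4 := mul_lt_one_of_nonneg_of_lt_one_left (norm_nonneg z) hz hζ.le
  linarith

private theorem Base_map {z ζ : ℂ} (hz : ‖z‖ < 1) (hζ : ‖ζ‖ < 1) : ‖Base_phi z ζ‖ < 1 := by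
  unfold Base_phi
  rw [norm_div, div_lt_one (norm_pos_iff.2 (Base_den hz hζ))]
  have h1 : ‖ζ + z‖ ^ 2 < ‖1 + (starRingEnd ℂ) z * ζ‖ ^ 2 := by
    have e1 : ‖1 + (starRingEnd ℂ) z * ζ‖ ^ 2 - ‖ζ + z‖ ^ 2 = (1 - ‖z‖ ^ 2) * (1 - ‖ζ‖ ^ 2) := by
      simp only [← Complex.normSq_eq_norm_sq, Complex.normSq_apply, Complex.add_re,
        Complex.add_im, Complex.mul_re, Complex.mul_im, Complex.conj_re, Complex.conj_im,
        Complex.one_re, Complex.one_im]
      ring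
    have h2 : 0 < 1 - ‖z‖ ^ 2 := by nlinarith [norm_nonneg z]
    have h3 : 0 < 1 - ‖ζ‖ ^ 2 := by nlinarith [norm_nonneg ζ]
    have h4 := mul_pos h2 h3
    linarith
  exact lt_of_pow_lt_pow_left₀ 2 (norm_nonneg _) h1

private theorem Base_der {z ζ : ℂ} (hz : ‖z‖ < 1) (hζ : ‖ζ‖ < 1) :
    HasDerivAt (Base_phi z) ((1 - z * (starRingEnd ℂ) z) / (1 + (starRingEnd ℂ) z * ζ) ^ 2) ζ := by
  have h1 := ((hasDerivAt_id ζ).add_const z).div
    (((hasDerivAt_id ζ).const_mul ((starRingEnd ℂ) z)).const_add 1) (Base_den hz hζ)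
  refine h1.congr_deriv ?_
  congr 1
  simp only [id]
  ring

private theorem Base_inv {z ζ : ℂ} (hz : ‖z‖ < 1) (hζ : ‖ζ‖ < 1) :
    Base_phi (-z) (Base_phi z ζ) = ζ := by
  have h1 : ‖-z‖ < 1 := by rwa [norm_neg]
  have h2 := Base_den h1 (Base_map hz hζ)
  have h3 := Base_den hz hζ
  have h4 : Base_phi z ζ * (1 + (starRingEnd ℂ) z * ζ) = ζ + z := by
    unfold Base_phi
    rw [div_mul_cancel₀ _ h3]
  have h5 : Base_phi (-z) (Base_phi z ζ) =
      (Base_phi z ζ + -z) / (1 + (starRingEnd ℂ) (-z) * Base_phi z ζ) := rfl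
  rw [h5, div_eq_iff h2, map_neg]
  linear_combination h4

private theorem Base_inj {z ζ ξ : ℂ} (hz : ‖z‖ < 1) (hζ : ‖ζ‖ < 1) (hξ : ‖ξ‖ < 1)
    (h : Base_phi z ζ = Base_phi z ξ) : ζ = ξ := by
  rw [← Base_inv hz hζ, ← Base_inv hz hξ, h]

/-- substitution in the integral along a line -/
private theorem Base_sub {A : ℝ} (hA : A ≠ 0) (S : Set ℝ) (g : ℝ → ℝ≥0∞) :
    ∫⁻ t in S, g t = ENNReal.ofReal |A| * ∫⁻ x in (fun x => A * x) ⁻¹' S, g (A * x) := by
  have he : MeasurableEmbedding (fun x : ℝ => A * x) :=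
    (Homeomorph.mulLeft₀ A hA).measurableEmbedding
  conv_lhs => rw [← Real.smul_map_volume_mul_left hA]
  rw [Measure.restrict_smul, lintegral_smul_measure, he.restrict_map, he.lintegral_map,
    smul_eq_mul]

theorem base {f F : ℂ → ℂ} (hf : Schl f) (hF : ∀ z ∈ ball (0 : ℂ) 1, F (f z) = z) {a : ℂ}
    (ha : a ∈ f '' ball 0 1) {p : ℝ} (hp : 0 ≤ p) :
    ∃ (h G : ℂ → ℂ) (α : ℝ), Schl h ∧ (∀ z ∈ ball (0 : ℂ) 1, G (h z) = z) ∧
      ∀ θ : ℝ, LI p f F a (exp (θ * I)) = ⊤ → LI p h G 0 (exp (((θ - α : ℝ) : ℂ) * I)) = ⊤ := by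
  obtain ⟨z, hz, rfl⟩ := ha
  have hd := hf.diff
  have hi := hf.inj
  have hz1 : ‖z‖ < 1 := by simpa using hz
  have hmz1 : ‖-z‖ < 1 := by rwa [norm_neg]
  have hne := (deriv_inv isOpen_ball hd hi hF hz).1
  obtain ⟨c, hc⟩ : ∃ c : ℂ, c = (1 - z * (starRingEnd ℂ) z) * deriv f z := ⟨_, rfl⟩
  have hcz : (1 - z * (starRingEnd ℂ) z) = ((1 - ‖z‖ ^ 2 : ℝ) : ℂ) := by
    rw [Complex.mul_conj, Complex.normSq_eq_norm_sq]
    push_cast
    ring
  have hpos : 0 < 1 - ‖z‖ ^ 2 := by nlinarith [norm_nonneg z]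
  have hcn : ‖c‖ = (1 - ‖z‖ ^ 2) * ‖deriv f z‖ := by
    rw [hc, norm_mul, hcz, Complex.norm_real, Real.norm_of_nonneg hpos.le]
  have hc0 : c ≠ 0 := by
    rw [← norm_pos_iff, hcn]
    exact mul_pos hpos (norm_pos_iff.2 hne)
  have hphi0 : Base_phi z 0 = z := by
    unfold Base_phi
    rw [mul_zero, add_zero, div_one, zero_add]
  have hder : ∀ ζ ∈ ball (0 : ℂ) 1, HasDerivAt (fun ζ => (f (Base_phi z ζ) - f z) / c)
      (deriv f (Base_phi z ζ) *
        ((1 - z * (starRingEnd ℂ) z) / (1 + (starRingEnd ℂ) z * ζ) ^ 2) / c) ζ := by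
    intro ζ hζ
    have hζ1 : ‖ζ‖ < 1 := by simpa using hζ
    have h1 : HasDerivAt f (deriv f (Base_phi z ζ)) (Base_phi z ζ) :=
      (hd.differentiableAt (isOpen_ball.mem_nhds (by simpa using Base_map hz1 hζ1))).hasDerivAt
    exact ((h1.comp ζ (Base_der hz1 hζ1)).sub_const (f z)).div_const c
  have hH : Schl (fun ζ => (f (Base_phi z ζ) - f z) / c) := by
    refine ⟨fun ζ hζ => (hder ζ hζ).differentiableAt.differentiableWithinAt, ?_, ?_, ?_⟩
    · intro a ha b hb hab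
      have ha1 : ‖a‖ < 1 := by simpa using ha
      have hb1 : ‖b‖ < 1 := by simpa using hb
      have h1 : f (Base_phi z a) - f z = f (Base_phi z b) - f z := (div_left_inj' hc0).1 hab
      exact Base_inj hz1 ha1 hb1 (hi (by simpa using Base_map hz1 ha1)
        (by simpa using Base_map hz1 hb1) (sub_left_injective h1))
    · show (f (Base_phi z 0) - f z) / c = 0
      rw [hphi0, sub_self, zero_div]
    · rw [(hder 0 (mem_ball_self one_pos)).deriv, hphi0, mul_zero, add_zero, one_pow, div_one,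
        mul_comm, ← hc, div_self hc0]
  have hG : ∀ ζ ∈ ball (0 : ℂ) 1, (fun w => Base_phi (-z) (F (f z + c * w)))
      ((fun ζ => (f (Base_phi z ζ) - f z) / c) ζ) = ζ := by
    intro ζ hζ
    have hζ1 : ‖ζ‖ < 1 := by simpa using hζ
    show Base_phi (-z) (F (f z + c * ((f (Base_phi z ζ) - f z) / c))) = ζ
    rw [mul_div_cancel₀ _ hc0, add_sub_cancel, hF _ (by simpa using Base_map hz1 hζ1),
      Base_inv hz1 hζ1]
  refine ⟨fun ζ => (f (Base_phi z ζ) - f z) / c, fun w => Base_phi (-z) (F (f z + c * w)), arg c,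
    hH, hG, ?_⟩
  intro θ
  obtain ⟨M, hM⟩ : ∃ M : ℝ, M = 1 / ((1 - ‖z‖) ^ 2 * ‖c‖) := ⟨_, rfl⟩
  have hcp : 0 < ‖c‖ := norm_pos_iff.2 hc0
  have hz1' : 0 < 1 - ‖z‖ := by linarith
  have hM0 : 0 ≤ M := by
    rw [hM]
    positivity
  have huv : ∀ x : ℝ, ((‖c‖ * x : ℝ) : ℂ) * exp (θ * I) =
      c * (x * exp (((θ - arg c : ℝ) : ℂ) * I)) := by
    intro x
    have h1 : c = ‖c‖ * exp (arg c * I) := (Complex.norm_mul_exp_arg_mul_I c).symm
    have h2 : exp (θ * I) = exp (arg c * I) * exp (((θ - arg c : ℝ) : ℂ) * I) := by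
      rw [← Complex.exp_add]
      congr 1
      push_cast
      ring
    calc ((‖c‖ * x : ℝ) : ℂ) * exp (θ * I)
        = (‖c‖ * exp (arg c * I)) * (x * exp (((θ - arg c : ℝ) : ℂ) * I)) := by
          rw [h2]
          push_cast
          ring
      _ = c * (x * exp (((θ - arg c : ℝ) : ℂ) * I)) := by rw [← h1]
  have hkey : ∀ w : ℂ, f z + c * w ∈ f '' ball 0 1 →
      w ∈ (fun ζ => (f (Base_phi z ζ) - f z) / c) '' ball 0 1 ∧
      ‖deriv F (f z + c * w)‖ ≤ M * ‖deriv (fun w => Base_phi (-z) (F (f z + c * w))) w‖ := by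
    rintro w ⟨y, hy, hyw⟩
    have hy1 : ‖y‖ < 1 := by simpa using hy
    have hζ1 : ‖Base_phi (-z) y‖ < 1 := Base_map hmz1 hy1
    have hζ : Base_phi (-z) y ∈ ball (0 : ℂ) 1 := by simpa using hζ1
    have hφ : Base_phi z (Base_phi (-z) y) = y := by
      have := Base_inv hmz1 hy1
      rwa [neg_neg] at this
    have hhw : (fun ζ => (f (Base_phi z ζ) - f z) / c) (Base_phi (-z) y) = w := by
      show (f (Base_phi z (Base_phi (-z) y)) - f z) / c = w
      rw [hφ, hyw, add_sub_cancel_left, mul_div_cancel_left₀ _ hc0]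
    refine ⟨⟨_, hζ, hhw⟩, ?_⟩
    have h1 := deriv_inv (F := fun w => Base_phi (-z) (F (f z + c * w))) isOpen_ball hH.diff
      hH.inj hG hζ
    have hhw' : (f (Base_phi z (Base_phi (-z) y)) - f z) / c = w := hhw
    simp only [hhw'] at h1
    have h2 := deriv_inv isOpen_ball hd hi hF hy
    rw [← hyw, h2.2, h1.2, (hder _ hζ).deriv, hφ]
    have h3 : 1 - z * (starRingEnd ℂ) z ≠ 0 := by
      rw [hcz]
      exact_mod_cast hpos.ne'
    have h4 := Base_den hz1 hζ1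
    have h5 : (deriv f y)⁻¹ = ((1 - z * (starRingEnd ℂ) z) /
        (1 + (starRingEnd ℂ) z * Base_phi (-z) y) ^ 2 / c) *
        (deriv f y * ((1 - z * (starRingEnd ℂ) z) /
          (1 + (starRingEnd ℂ) z * Base_phi (-z) y) ^ 2) / c)⁻¹ := by
      have h6 := h2.1
      field_simp
    rw [h5, norm_mul]
    refine mul_le_mul_of_nonneg_right ?_ (norm_nonneg _)
    rw [norm_div, norm_div, norm_pow, hcz, Complex.norm_real, Real.norm_of_nonneg hpos.le, hM,
      div_div]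
    have h7 : 1 - ‖z‖ ≤ ‖1 + (starRingEnd ℂ) z * Base_phi (-z) y‖ := by
      have h8 : ‖(starRingEnd ℂ) z * Base_phi (-z) y‖ ≤ ‖z‖ := by
        rw [norm_mul, Complex.norm_conj]
        exact mul_le_of_le_one_right (norm_nonneg z) hζ1.le
      have h9 := norm_sub_le_norm_add (1 : ℂ) ((starRingEnd ℂ) z * Base_phi (-z) y)
      rw [norm_one] at h9
      linarith
    have h10 : (1 - ‖z‖) ^ 2 ≤ ‖1 + (starRingEnd ℂ) z * Base_phi (-z) y‖ ^ 2 :=
      pow_le_pow_left₀ hz1'.le h7 2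
    have h11 : 0 < (1 - ‖z‖) ^ 2 * ‖c‖ := by positivity
    refine div_le_div₀ zero_le_one ?_ h11 (mul_le_mul_of_nonneg_right h10 hcp.le)
    nlinarith [norm_nonneg z]
  have hle : LI p f F (f z) (exp (θ * I)) ≤ ENNReal.ofReal |‖c‖| * (ENNReal.ofReal (M ^ p) *
      LI p (fun ζ => (f (Base_phi z ζ) - f z) / c) (fun w => Base_phi (-z) (F (f z + c * w))) 0
        (exp (((θ - arg c : ℝ) : ℂ) * I))) := by
    unfold LI
    rw [Base_sub hcp.ne']
    refine mul_le_mul_right ?_ _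
    rw [← lintegral_const_mul' _ _ ENNReal.ofReal_ne_top]
    have hmem : ∀ x : ℝ, x ∈ (fun x => ‖c‖ * x) ⁻¹' {t : ℝ | f z + t * exp (θ * I) ∈ f '' ball 0 1} →
        f z + c * (x * exp (((θ - arg c : ℝ) : ℂ) * I)) ∈ f '' ball 0 1 := by
      intro x hx
      have h1 : f z + ((‖c‖ * x : ℝ) : ℂ) * exp (θ * I) ∈ f '' ball 0 1 := hx
      rwa [huv] at h1
    have hms : MeasurableSet ((fun x => ‖c‖ * x) ⁻¹'
        {t : ℝ | f z + t * exp (θ * I) ∈ f '' ball 0 1}) := by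
      have ho : IsOpen {t : ℝ | f z + t * exp (θ * I) ∈ f '' ball 0 1} :=
        (isOpen_im isOpen_ball hd hi).preimage (by fun_prop)
      exact (ho.preimage (continuous_const.mul continuous_id)).measurableSet
    refine (setLIntegral_mono' hms (g := fun x : ℝ => ENNReal.ofReal (M ^ p) * ENNReal.ofReal
      (‖deriv (fun w => Base_phi (-z) (F (f z + c * w)))
        (0 + x * exp (((θ - arg c : ℝ) : ℂ) * I))‖ ^ p)) fun x hx => ?_).trans
      (lintegral_mono_set fun x hx => ?_)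
    · have h1 := (hkey _ (hmem x hx)).2
      rw [huv, zero_add, ← ENNReal.ofReal_mul (Real.rpow_nonneg hM0 p)]
      refine ENNReal.ofReal_le_ofReal ?_
      rw [← Real.mul_rpow hM0 (norm_nonneg _)]
      exact Real.rpow_le_rpow (norm_nonneg _) h1 hp
    · have h2 : (0 : ℂ) + x * exp (((θ - arg c : ℝ) : ℂ) * I) ∈
          (fun ζ => (f (Base_phi z ζ) - f z) / c) '' ball 0 1 := by
        rw [zero_add]
        exact (hkey _ (hmem x hx)).1
      exact h2
  intro htop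
  by_contra hcon
  rw [htop, top_le_iff] at hle
  exact ENNReal.mul_ne_top ENNReal.ofReal_ne_top (ENNReal.mul_ne_top ENNReal.ofReal_ne_top hcon) hle

end Pool.Agent.H.MP_215299_an.KE
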