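import Pool.Agent.H.MP_215299_an.KE.Par0

/-!
# KE/Circ1: the mean square of a holomorphic function on circles

`II g r = ∫ |g|²`, `KK g r = ∫ Re (conj g · z g')`, `JJ g r = ∫ |g'|²` over `θ ∈ [-π, π]`, `z = r e^{iθ}`.
PROOF of `hasDeriv_II`: `par0` with `G r θ = |g z|²`, `G' r θ = 2 Re (conj (g z) g'(z) e^{iθ})`, `z = circleMap 0 r θ = r e^{iθ}`,
`d z / d r = e^{iθ} = z / r`; so `G' r θ = (2 / r) Re (conj (g z) z g'(z))`.
-/

set_option autoImplicit false

open Complex Metric Set MeasureTheory Filter Topology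

namespace Pool.Agent.H.MP_215299_an.KE

noncomputable def II (g : ℂ → ℂ) (r : ℝ) : ℝ :=
  ∫ θ in (-Real.pi)..Real.pi, ‖g (circleMap 0 r θ)‖ ^ 2

noncomputable def KK (g : ℂ → ℂ) (r : ℝ) : ℝ :=
  ∫ θ in (-Real.pi)..Real.pi,
    ((starRingEnd ℂ) (g (circleMap 0 r θ)) * (circleMap 0 r θ * deriv g (circleMap 0 r θ))).re

noncomputable def JJ (g : ℂ → ℂ) (r : ℝ) : ℝ :=
  ∫ θ in (-Real.pi)..Real.pi, ‖deriv g (circleMap 0 r θ)‖ ^ 2

private theorem Circ1_ball {r : ℝ} (hr : r ∈ Ioo (0 : ℝ) 1) (θ : ℝ) :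
    circleMap 0 r θ ∈ ball (0 : ℂ) 1 := by
  rw [mem_ball_zero_iff, norm_circleMap_zero, abs_of_pos hr.1]
  exact hr.2

private theorem Circ1_circ (r θ : ℝ) :
    HasDerivAt (fun ρ : ℝ => circleMap 0 ρ θ) (Complex.exp (θ * I)) r := by
  have h1 : HasDerivAt (fun ρ : ℝ => ((ρ : ℂ))) 1 r := Complex.ofRealCLM.hasDerivAt
  have h2 := h1.mul_const (Complex.exp (θ * I))
  rw [one_mul] at h2
  refine h2.congr_of_eventuallyEq (Eventually.of_forall fun ρ => ?_)
  simp [circleMap]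

private theorem Circ1_cont : Continuous (fun q : ℝ × ℝ => circleMap 0 q.1 q.2) := by
  unfold circleMap
  fun_prop

private theorem Circ1_der {g : ℂ → ℂ} (hg : DifferentiableOn ℂ g (ball 0 1)) {r : ℝ}
    (hr : r ∈ Ioo (0 : ℝ) 1) (θ : ℝ) :
    HasDerivAt (fun ρ : ℝ => ‖g (circleMap 0 ρ θ)‖ ^ 2)
      (2 / r * ((starRingEnd ℂ) (g (circleMap 0 r θ)) *
        (circleMap 0 r θ * deriv g (circleMap 0 r θ))).re) r := by
  have hb := Circ1_ball hr θ
  have h1 : HasDerivAt g (deriv g (circleMap 0 r θ)) (circleMap 0 r θ) :=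
    (hg.differentiableAt (isOpen_ball.mem_nhds hb)).hasDerivAt
  have h2 : HasDerivAt (fun ρ : ℝ => g (circleMap 0 ρ θ))
      (Complex.exp (θ * I) • deriv g (circleMap 0 r θ)) r :=
    HasDerivAt.scomp r h1 (Circ1_circ r θ)
  have h3 := h2.norm_sq
  have hr0 : r ≠ 0 := hr.1.ne'
  have h4 : 2 * inner ℝ (g (circleMap 0 r θ)) (Complex.exp (θ * I) • deriv g (circleMap 0 r θ)) =
      2 / r * ((starRingEnd ℂ) (g (circleMap 0 r θ)) *
        (circleMap 0 r θ * deriv g (circleMap 0 r θ))).re := by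
    rw [Complex.inner]
    have h5 : (starRingEnd ℂ) (g (circleMap 0 r θ)) *
        (circleMap 0 r θ * deriv g (circleMap 0 r θ)) =
        (r : ℂ) * ((starRingEnd ℂ) (g (circleMap 0 r θ)) *
          (Complex.exp (θ * I) • deriv g (circleMap 0 r θ))) := by
      rw [smul_eq_mul]
      have h6 : circleMap 0 r θ = (r : ℂ) * Complex.exp (θ * I) := by
        simp [circleMap]
      generalize g (circleMap 0 r θ) = w
      generalize deriv g (circleMap 0 r θ) = v
      rw [h6]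
      ring
    rw [h5, Complex.re_ofReal_mul, ← mul_assoc, div_mul_cancel₀ _ hr0,
      mul_comm (Complex.exp (θ * I) • deriv g (circleMap 0 r θ))]
  rw [h4] at h3
  exact h3

theorem hasDeriv_II {g : ℂ → ℂ} (hg : DifferentiableOn ℂ g (ball 0 1)) {r : ℝ}
    (hr : r ∈ Ioo (0 : ℝ) 1) : HasDerivAt (II g) (2 * KK g r / r) r := by
  have hd : ContinuousOn (deriv g) (ball 0 1) := (hg.deriv isOpen_ball).continuousOn
  have h := par0 (G := fun ρ θ => ‖g (circleMap 0 ρ θ)‖ ^ 2)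
    (G' := fun ρ θ => 2 / ρ * ((starRingEnd ℂ) (g (circleMap 0 ρ θ)) *
        (circleMap 0 ρ θ * deriv g (circleMap 0 ρ θ))).re)
    (fun ρ hρ θ => Circ1_der hg hρ θ) (fun ρ hρ => ?_) ?_ hr
  · rw [intervalIntegral.integral_const_mul] at h
    have h1 : 2 * KK g r / r = 2 / r * ∫ θ in (-Real.pi)..Real.pi,
        ((starRingEnd ℂ) (g (circleMap 0 r θ)) *
          (circleMap 0 r θ * deriv g (circleMap 0 r θ))).re := by
      unfold KK
      ring
    rw [h1]
    exact h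
  · exact ((hg.continuousOn.comp_continuous (continuous_circleMap 0 ρ)
      (Circ1_ball hρ)).norm).pow 2
  · have hm : MapsTo (fun q : ℝ × ℝ => circleMap 0 q.1 q.2) (Ioo (0 : ℝ) 1 ×ˢ univ)
        (ball (0 : ℂ) 1) := fun q hq => Circ1_ball hq.1 q.2
    have h1 : ContinuousOn (fun q : ℝ × ℝ => g (circleMap 0 q.1 q.2)) (Ioo (0 : ℝ) 1 ×ˢ univ) :=
      hg.continuousOn.comp Circ1_cont.continuousOn hm
    have h2 : ContinuousOn (fun q : ℝ × ℝ => deriv g (circleMap 0 q.1 q.2))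
        (Ioo (0 : ℝ) 1 ×ˢ univ) := hd.comp Circ1_cont.continuousOn hm
    have h3 : ContinuousOn (fun q : ℝ × ℝ => 2 / q.1) (Ioo (0 : ℝ) 1 ×ˢ univ) :=
      continuousOn_const.div continuousOn_fst fun q hq => (hq.1.1).ne'
    refine h3.mul (Complex.continuous_re.comp_continuousOn ?_)
    exact (Complex.continuous_conj.comp_continuousOn h1).mul (Circ1_cont.continuousOn.mul h2)

end Pool.Agent.H.MP_215299_an.KE
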