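import Pool.Agent.H.MP_215299_an.KE.Circ1

/-!
# KE/Circ2: the derivative of `KK`

Write `z = r e^{iθ}`, `h = g z`. PROOF of `byparts`: `Φ θ = conj (g z) * (-I) * (z * deriv g z)` has the derivative
`conj (I z g') (-I) z g' + conj g (-I) (I z g' + I z² g'') = - |z g'|² + conj g (z g' + z² g'')` (`dz/dθ = I z`), and
`Φ π = Φ (-π)` (`circleMap 0 r π = circleMap 0 r (-π)`); the integral of a derivative,
`intervalIntegral.integral_eq_sub_of_hasDerivAt`.
PROOF of `hasDeriv_KK`: `par0` with `G r θ = Re (conj g · z g')`; `d/dr` with `dz/dr = z / r`: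
`G' r θ = (1 / r) Re (conj (z g') z g' + conj g (z g' + z² g''))`; by `byparts` the integral is
`(1 / r) (∫ |z g'|² + ∫ |z g'|²) = 2 r ∫ |g'|²`.
-/

set_option autoImplicit false

open Complex Metric Set MeasureTheory Filter Topology

namespace Pool.Agent.H.MP_215299_an.KE

private theorem Circ2_mem {r : ℝ} (hr : r ∈ Ioo (0 : ℝ) 1) (θ : ℝ) :
    circleMap 0 r θ ∈ ball (0 : ℂ) 1 := by
  rw [mem_ball_zero_iff, norm_circleMap_zero, abs_of_pos hr.1]
  exact hr.2

private theorem Circ2_d1 {g : ℂ → ℂ} (hg : DifferentiableOn ℂ g (ball 0 1)) {z : ℂ}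
    (hz : z ∈ ball (0 : ℂ) 1) : HasDerivAt g (deriv g z) z :=
  (hg.differentiableAt (isOpen_ball.mem_nhds hz)).hasDerivAt

private theorem Circ2_comp {g : ℂ → ℂ} (hg : DifferentiableOn ℂ g (ball 0 1)) {r : ℝ}
    (hr : r ∈ Ioo (0 : ℝ) 1) (θ : ℝ) :
    HasDerivAt (fun θ : ℝ => g (circleMap 0 r θ))
      (deriv g (circleMap 0 r θ) * (circleMap 0 r θ * I)) θ :=
  (Circ2_d1 hg (Circ2_mem hr θ)).comp θ (hasDerivAt_circleMap 0 r θ)

private theorem Circ2_cont {g : ℂ → ℂ} (hg : DifferentiableOn ℂ g (ball 0 1)) {r : ℝ}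
    (hr : r ∈ Ioo (0 : ℝ) 1) : Continuous fun θ : ℝ => g (circleMap 0 r θ) :=
  continuous_iff_continuousAt.2 fun θ => (Circ2_comp hg hr θ).continuousAt

private theorem Circ2_alg {r : ℝ} {z a b c : ℂ} (hz : ‖z‖ = r) :
    (((starRingEnd ℂ) (b * (z * I)) * (z * b) + (starRingEnd ℂ) a *
      (z * I * b + z * (c * (z * I)))) * (-I)).re =
    ((starRingEnd ℂ) a * (z * b + z ^ 2 * c)).re - r ^ 2 * ‖b‖ ^ 2 := by
  have hb : (starRingEnd ℂ) b * b = (‖b‖ : ℂ) ^ 2 := Complex.conj_mul' b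
  have hz' : (starRingEnd ℂ) z * z = (r : ℂ) ^ 2 := by
    rw [← hz]
    exact Complex.conj_mul' z
  have hI : I * I = -1 := Complex.I_mul_I
  have e : ((starRingEnd ℂ) (b * (z * I)) * (z * b) + (starRingEnd ℂ) a *
      (z * I * b + z * (c * (z * I)))) * (-I) =
      (starRingEnd ℂ) a * (z * b + z ^ 2 * c) - ((r ^ 2 * ‖b‖ ^ 2 : ℝ) : ℂ) := by
    rw [map_mul, map_mul, Complex.conj_I]
    push_cast
    linear_combination ((starRingEnd ℂ) b * (starRingEnd ℂ) z * z * b -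
      (starRingEnd ℂ) a * (z * b + z ^ 2 * c)) * hI - ((starRingEnd ℂ) b * b) * hz' -
      (r : ℂ) ^ 2 * hb
  rw [e, Complex.sub_re, Complex.ofReal_re]

theorem byparts {g : ℂ → ℂ} (hg : DifferentiableOn ℂ g (ball 0 1)) {r : ℝ}
    (hr : r ∈ Ioo (0 : ℝ) 1) :
    ∫ θ in (-Real.pi)..Real.pi,
      ((starRingEnd ℂ) (g (circleMap 0 r θ)) * (circleMap 0 r θ * deriv g (circleMap 0 r θ) +
        circleMap 0 r θ ^ 2 * deriv (deriv g) (circleMap 0 r θ))).re = r ^ 2 * JJ g r := by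
  have hg1 : DifferentiableOn ℂ (deriv g) (ball 0 1) := hg.deriv isOpen_ball
  have hg2 : DifferentiableOn ℂ (deriv (deriv g)) (ball 0 1) := hg1.deriv isOpen_ball
  have cz : Continuous (circleMap 0 r) := continuous_circleMap 0 r
  have c0 := Circ2_cont hg hr
  have c1 := Circ2_cont hg1 hr
  have c2 := Circ2_cont hg2 hr
  have cA : Continuous fun θ : ℝ => ((starRingEnd ℂ) (g (circleMap 0 r θ)) *
      (circleMap 0 r θ * deriv g (circleMap 0 r θ) +
        circleMap 0 r θ ^ 2 * deriv (deriv g) (circleMap 0 r θ))).re :=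
    Complex.continuous_re.comp ((Complex.continuous_conj.comp c0).mul
      ((cz.mul c1).add ((cz.pow 2).mul c2)))
  have cB : Continuous fun θ : ℝ => r ^ 2 * ‖deriv g (circleMap 0 r θ)‖ ^ 2 :=
    continuous_const.mul (c1.norm.pow 2)
  have hΦ : ∀ θ : ℝ, HasDerivAt (fun θ : ℝ => ((starRingEnd ℂ) (g (circleMap 0 r θ)) *
      (circleMap 0 r θ * deriv g (circleMap 0 r θ)) * (-I)).re)
      (((starRingEnd ℂ) (g (circleMap 0 r θ)) * (circleMap 0 r θ * deriv g (circleMap 0 r θ) +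
        circleMap 0 r θ ^ 2 * deriv (deriv g) (circleMap 0 r θ))).re -
        r ^ 2 * ‖deriv g (circleMap 0 r θ)‖ ^ 2) θ := by
    intro θ
    have h1 := (Circ2_comp hg hr θ).star
    have h2 := (hasDerivAt_circleMap 0 r θ).mul (Circ2_comp hg1 hr θ)
    have h3 := (h1.mul h2).mul_const (-I)
    have h4 := Complex.reCLM.hasFDerivAt.comp_hasDerivAt θ h3
    have hz : ‖circleMap 0 r θ‖ = r := by rw [norm_circleMap_zero, abs_of_pos hr.1]
    exact h4.congr_deriv (Circ2_alg hz)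
  have h := intervalIntegral.integral_eq_sub_of_hasDerivAt (a := -Real.pi) (b := Real.pi)
    (fun θ _ => hΦ θ) ((cA.sub cB).intervalIntegrable _ _)
  have hper : circleMap 0 r Real.pi = circleMap 0 r (-Real.pi) := by
    have := periodic_circleMap 0 r (-Real.pi)
    rw [← this]
    congr 1
    ring
  rw [hper, sub_self, intervalIntegral.integral_sub (cA.intervalIntegrable _ _)
    (cB.intervalIntegrable _ _), intervalIntegral.integral_const_mul] at h
  exact sub_eq_zero.1 h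

private theorem Circ2_cont2 {g : ℂ → ℂ} (hg : DifferentiableOn ℂ g (ball 0 1)) :
    ContinuousOn (fun q : ℝ × ℝ => g (circleMap 0 q.1 q.2)) (Ioo (0 : ℝ) 1 ×ˢ univ) := by
  have hz : Continuous fun q : ℝ × ℝ => circleMap 0 q.1 q.2 := by
    unfold circleMap
    fun_prop
  exact hg.continuousOn.comp hz.continuousOn fun q hq => Circ2_mem hq.1 q.2

private theorem Circ2_alg2 {r : ℝ} (hr : 0 < r) {z a b c e : ℂ} (hz : z = r * e) (hn : ‖z‖ = r) :
    ((starRingEnd ℂ) (b * e) * (z * b) + (starRingEnd ℂ) a *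
      (e * b + z * (c * e))).re =
    (1 / r) * (r ^ 2 * ‖b‖ ^ 2 + ((starRingEnd ℂ) a * (z * b + z ^ 2 * c)).re) := by
  have hb : (starRingEnd ℂ) b * b = (‖b‖ : ℂ) ^ 2 := Complex.conj_mul' b
  have hz' : (starRingEnd ℂ) z * z = (r : ℂ) ^ 2 := by
    rw [← hn]
    exact Complex.conj_mul' z
  have hr0 : (r : ℂ) ≠ 0 := Complex.ofReal_ne_zero.2 hr.ne'
  have hcz : (starRingEnd ℂ) z = r * (starRingEnd ℂ) e := by
    rw [hz, map_mul, Complex.conj_ofReal]
  have e1 : ((r : ℝ) : ℂ) * ((starRingEnd ℂ) (b * e) * (z * b) + (starRingEnd ℂ) a *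
      (e * b + z * (c * e))) =
      ((r ^ 2 * ‖b‖ ^ 2 : ℝ) : ℂ) + (starRingEnd ℂ) a * (z * b + z ^ 2 * c) := by
    rw [map_mul]
    push_cast
    linear_combination ((starRingEnd ℂ) b * b) * hz' + (r : ℂ) ^ 2 * hb -
      (starRingEnd ℂ) b * b * z * hcz - ((starRingEnd ℂ) a * (b + z * c)) * hz
  have e2 := congrArg Complex.re e1
  rw [Complex.re_ofReal_mul, Complex.add_re ((r ^ 2 * ‖b‖ ^ 2 : ℝ) : ℂ), Complex.ofReal_re] at e2
  rw [← e2, one_div, inv_mul_cancel_left₀ hr.ne']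

theorem hasDeriv_KK {g : ℂ → ℂ} (hg : DifferentiableOn ℂ g (ball 0 1)) {r : ℝ}
    (hr : r ∈ Ioo (0 : ℝ) 1) : HasDerivAt (KK g) (2 * r * JJ g r) r := by
  have hg1 : DifferentiableOn ℂ (deriv g) (ball 0 1) := hg.deriv isOpen_ball
  have hg2 : DifferentiableOn ℂ (deriv (deriv g)) (ball 0 1) := hg1.deriv isOpen_ball
  obtain ⟨G', hG'⟩ : ∃ G' : ℝ → ℝ → ℝ, G' = fun ρ θ =>
      ((starRingEnd ℂ) (deriv g (circleMap 0 ρ θ) * exp (θ * I)) *
        (circleMap 0 ρ θ * deriv g (circleMap 0 ρ θ)) +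
        (starRingEnd ℂ) (g (circleMap 0 ρ θ)) * (exp (θ * I) * deriv g (circleMap 0 ρ θ) +
          circleMap 0 ρ θ * (deriv (deriv g) (circleMap 0 ρ θ) * exp (θ * I)))).re := ⟨_, rfl⟩
  have hzd : ∀ ρ θ : ℝ, HasDerivAt (fun ρ : ℝ => circleMap 0 ρ θ) (exp (θ * I)) ρ := by
    intro ρ θ
    have h1 : HasDerivAt (fun ρ : ℝ => (ρ : ℂ) * exp (θ * I)) (1 * exp (θ * I)) ρ :=
      (Complex.ofRealCLM.hasDerivAt (x := ρ)).mul_const _
    rw [one_mul] at h1
    refine h1.congr_of_eventuallyEq (Filter.Eventually.of_forall fun ρ' => ?_)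
    change circleMap 0 ρ' θ = (ρ' : ℂ) * exp (θ * I)
    rw [circleMap_zero]
  have key := par0 (G := fun ρ θ => ((starRingEnd ℂ) (g (circleMap 0 ρ θ)) *
    (circleMap 0 ρ θ * deriv g (circleMap 0 ρ θ))).re) (G' := G') ?_ ?_ ?_ hr
  · have hcont : Continuous fun θ : ℝ => r ^ 2 * ‖deriv g (circleMap 0 r θ)‖ ^ 2 :=
      continuous_const.mul ((Circ2_cont hg1 hr).norm.pow 2)
    have cz : Continuous (circleMap 0 r) := continuous_circleMap 0 r
    have cA : Continuous fun θ : ℝ => ((starRingEnd ℂ) (g (circleMap 0 r θ)) *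
        (circleMap 0 r θ * deriv g (circleMap 0 r θ) +
          circleMap 0 r θ ^ 2 * deriv (deriv g) (circleMap 0 r θ))).re :=
      Complex.continuous_re.comp ((Complex.continuous_conj.comp (Circ2_cont hg hr)).mul
        ((cz.mul (Circ2_cont hg1 hr)).add ((cz.pow 2).mul (Circ2_cont hg2 hr))))
    have e : ∫ θ in (-Real.pi)..Real.pi, G' r θ = 2 * r * JJ g r := by
      have e1 : ∀ θ : ℝ, G' r θ = (1 / r) * (r ^ 2 * ‖deriv g (circleMap 0 r θ)‖ ^ 2 +
          ((starRingEnd ℂ) (g (circleMap 0 r θ)) *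
          (circleMap 0 r θ * deriv g (circleMap 0 r θ) +
            circleMap 0 r θ ^ 2 * deriv (deriv g) (circleMap 0 r θ))).re) := by
        intro θ
        rw [hG']
        refine Circ2_alg2 hr.1 ?_ ?_
        · rw [circleMap_zero]
        · rw [norm_circleMap_zero, abs_of_pos hr.1]
      rw [intervalIntegral.integral_congr (g := fun θ : ℝ =>
        (1 / r) * (r ^ 2 * ‖deriv g (circleMap 0 r θ)‖ ^ 2 +
          ((starRingEnd ℂ) (g (circleMap 0 r θ)) *
          (circleMap 0 r θ * deriv g (circleMap 0 r θ) +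
            circleMap 0 r θ ^ 2 * deriv (deriv g) (circleMap 0 r θ))).re)) (fun θ _ => e1 θ),
        intervalIntegral.integral_const_mul,
        intervalIntegral.integral_add (hcont.intervalIntegrable _ _) (cA.intervalIntegrable _ _),
        byparts hg hr, intervalIntegral.integral_const_mul]
      change 1 / r * (r ^ 2 * JJ g r + r ^ 2 * JJ g r) = 2 * r * JJ g r
      have hr0 : r ≠ 0 := hr.1.ne'
      field_simp
      ring
    rw [e] at key
    exact key
  · intro ρ hρ θ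
    have hm := Circ2_mem hρ θ
    have h0 : HasDerivAt (fun ρ : ℝ => g (circleMap 0 ρ θ))
        (deriv g (circleMap 0 ρ θ) * exp (θ * I)) ρ :=
      (Circ2_d1 hg hm).comp ρ (hzd ρ θ)
    have h1 : HasDerivAt (fun ρ : ℝ => deriv g (circleMap 0 ρ θ))
        (deriv (deriv g) (circleMap 0 ρ θ) * exp (θ * I)) ρ :=
      HasDerivAt.comp (h₂ := deriv g) ρ (Circ2_d1 hg1 hm) (hzd ρ θ)
    have h2 := (h0.star).mul ((hzd ρ θ).mul h1)
    have h3 := Complex.reCLM.hasFDerivAt.comp_hasDerivAt ρ h2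
    rw [hG']
    exact h3
  · intro ρ hρ
    exact Complex.continuous_re.comp ((Complex.continuous_conj.comp (Circ2_cont hg hρ)).mul
      ((continuous_circleMap 0 ρ).mul (Circ2_cont hg1 hρ)))
  · rw [hG']
    have hz : ContinuousOn (fun q : ℝ × ℝ => circleMap 0 q.1 q.2) (Ioo (0 : ℝ) 1 ×ˢ univ) := by
      have : Continuous fun q : ℝ × ℝ => circleMap 0 q.1 q.2 := by
        unfold circleMap
        fun_prop
      exact this.continuousOn
    have he : ContinuousOn (fun q : ℝ × ℝ => exp ((q.2 : ℂ) * I)) (Ioo (0 : ℝ) 1 ×ˢ univ) := by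
      have : Continuous fun q : ℝ × ℝ => exp ((q.2 : ℂ) * I) := by fun_prop
      exact this.continuousOn
    have k0 := Circ2_cont2 hg
    have k1 := Circ2_cont2 hg1
    have k2 := Circ2_cont2 hg2
    exact Complex.continuous_re.comp_continuousOn
      (((Complex.continuous_conj.comp_continuousOn (k1.mul he)).mul (hz.mul k1)).add
        ((Complex.continuous_conj.comp_continuousOn k0).mul
          ((he.mul k1).add (hz.mul (k2.mul he)))))

end Pool.Agent.H.MP_215299_an.KE
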