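import Pool.Agent.H.MP_215299_an.KD.VolL
import Pool.Agent.H.MP_215299_an.KD.Quar

/-!
# KE/Disc: the weighted area integral

PROOF: polar coordinates, `Complex.lintegral_comp_polarCoord_symm` (see KD/AreaB for its use;
`Complex.polarCoord.symm p = circleMap 0 p.1 p.2`); for fixed `r ∈ (0, 1)` the integral over `θ ∈ (-π, π)` is
`ofReal (r (1 - r²)^(s-1) ∫ ‖deriv f‖^(-u)) ≤ ofReal (C (1 - r)^(s - 1 - β))` (`(1 - r²)^(s-1) ≤ (1 - r)^(s-1)` because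
`s ≤ 1`, `r ≤ 1`; `ofReal_integral_eq_lintegral_ofReal`, the integrand is continuous and nonnegative), and
`(1 - r)^(s-1-β)` is integrable on `(0, 1)`, `s - 1 - β > -1`.
-/

set_option autoImplicit false

open Complex Metric Set MeasureTheory Filter Topology
open scoped ENNReal

namespace Pool.Agent.H.MP_215299_an.KE

private theorem Disc_polar (p : ℝ × ℝ) : Complex.polarCoord.symm p = circleMap 0 p.1 p.2 := by
  rw [Complex.polarCoord_symm_apply, circleMap_zero, Complex.exp_mul_I, Complex.ofReal_cos,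
    Complex.ofReal_sin]

private theorem Disc_ne {f : ℂ → ℂ} (hf : H65K.Schl f) {z : ℂ} (hz : z ∈ ball (0 : ℂ) 1) :
    deriv f z ≠ 0 :=
  (H65K.deriv_inv (F := Function.invFunOn f (ball 0 1)) isOpen_ball hf.diff hf.inj
    (fun _ hw => hf.inj.leftInvOn_invFunOn hw) hz).1

/-- the integral over one circle -/
private theorem Disc_inner {f : ℂ → ℂ} (hf : H65K.Schl f) {u β s C : ℝ} (hs : s ≤ 1)
    (hC : ∀ r ∈ Ico (0 : ℝ) 1,
      ∫ θ in (-Real.pi)..Real.pi, ‖deriv f (circleMap 0 r θ)‖ ^ (-u) ≤ C * (1 - r) ^ (-β))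
    {r : ℝ} (h0 : 0 < r) (h1 : r < 1) :
    ∫⁻ θ in Ioo (-Real.pi) Real.pi, ENNReal.ofReal r * ENNReal.ofReal
      (‖deriv f (circleMap 0 r θ)‖ ^ (-u) * (1 - r ^ 2) ^ (s - 1)) ≤
      ENNReal.ofReal (C * (1 - r) ^ (s - 1 - β)) := by
  have hd : DifferentiableOn ℂ (deriv f) (ball 0 1) := hf.diff.deriv isOpen_ball
  have hzb : ∀ θ, circleMap 0 r θ ∈ ball (0 : ℂ) 1 := fun θ => by
    rw [mem_ball_zero_iff, norm_circleMap_zero, abs_of_pos h0]
    exact h1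
  have hcm := continuous_circleMap 0 r
  have hcd : Continuous fun θ => deriv f (circleMap 0 r θ) :=
    hd.continuousOn.comp_continuous hcm hzb
  have hcn : Continuous fun θ => ‖deriv f (circleMap 0 r θ)‖ ^ (-u) :=
    hcd.norm.rpow_const fun θ => Or.inl (norm_ne_zero_iff.2 (Disc_ne hf (hzb θ)))
  have hr1 : 0 < 1 - r := by linarith
  have hr2 : 0 < 1 - r ^ 2 := by nlinarith
  have hw : 0 ≤ (1 - r ^ 2) ^ (s - 1) := Real.rpow_nonneg hr2.le _
  have hI : 0 ≤ ∫ θ in (-Real.pi)..Real.pi, ‖deriv f (circleMap 0 r θ)‖ ^ (-u) :=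
    intervalIntegral.integral_nonneg (by linarith [Real.pi_pos]) fun θ _ => by positivity
  have e1 : ∫⁻ θ in Ioo (-Real.pi) Real.pi, ENNReal.ofReal
      (‖deriv f (circleMap 0 r θ)‖ ^ (-u)) =
      ENNReal.ofReal (∫ θ in (-Real.pi)..Real.pi, ‖deriv f (circleMap 0 r θ)‖ ^ (-u)) := by
    rw [intervalIntegral.integral_of_le (by linarith [Real.pi_pos]),
      integral_Ioc_eq_integral_Ioo]
    symm
    refine ofReal_integral_eq_lintegral_ofReal ?_ ?_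
    · exact (hcn.continuousOn.integrableOn_Icc (a := -Real.pi) (b := Real.pi)).mono_set
        Ioo_subset_Icc_self
    · exact Eventually.of_forall fun θ => by positivity
  have e2 : ∀ θ, ENNReal.ofReal r * ENNReal.ofReal
      (‖deriv f (circleMap 0 r θ)‖ ^ (-u) * (1 - r ^ 2) ^ (s - 1)) =
      ENNReal.ofReal (r * (1 - r ^ 2) ^ (s - 1)) *
        ENNReal.ofReal (‖deriv f (circleMap 0 r θ)‖ ^ (-u)) := by
    intro θ
    rw [← ENNReal.ofReal_mul h0.le, ← ENNReal.ofReal_mul (mul_nonneg h0.le hw)]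
    congr 1
    ring
  simp only [e2]
  rw [lintegral_const_mul' _ _ ENNReal.ofReal_ne_top, e1, ← ENNReal.ofReal_mul (mul_nonneg h0.le hw)]
  refine ENNReal.ofReal_le_ofReal ?_
  have h3 : (1 - r ^ 2) ^ (s - 1) ≤ (1 - r) ^ (s - 1) :=
    Real.rpow_le_rpow_of_nonpos hr1 (by nlinarith) (by linarith)
  have h4 : r * (1 - r ^ 2) ^ (s - 1) ≤ (1 - r) ^ (s - 1) := by nlinarith
  have h5 := hC r ⟨h0.le, h1⟩
  have h6 : 0 ≤ (1 - r) ^ (s - 1) := Real.rpow_nonneg hr1.le _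
  calc r * (1 - r ^ 2) ^ (s - 1) *
        ∫ θ in (-Real.pi)..Real.pi, ‖deriv f (circleMap 0 r θ)‖ ^ (-u)
      ≤ (1 - r) ^ (s - 1) * (C * (1 - r) ^ (-β)) := mul_le_mul h4 h5 hI h6
    _ = C * ((1 - r) ^ (s - 1) * (1 - r) ^ (-β)) := by ring
    _ = C * (1 - r) ^ (s - 1 - β) := by
        rw [← Real.rpow_add hr1, ← sub_eq_add_neg]

private theorem Disc_outer {β s C : ℝ} (hβ : β < s) :
    ∫⁻ r in Ioo (0 : ℝ) 1, ENNReal.ofReal (C * (1 - r) ^ (s - 1 - β)) < ⊤ := by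
  have h1 : IntervalIntegrable (fun x : ℝ => x ^ (s - 1 - β)) volume 0 1 :=
    intervalIntegral.intervalIntegrable_rpow' (by linarith)
  have h2 := (h1.comp_sub_left 1).symm
  rw [sub_zero, sub_self] at h2
  have h3 : IntegrableOn (fun x : ℝ => (1 - x) ^ (s - 1 - β)) (Ioo 0 1) :=
    ((intervalIntegrable_iff_integrableOn_Ioc_of_le zero_le_one).1 h2).mono_set Ioo_subset_Ioc_self
  exact (h3.const_mul C).lintegral_lt_top

theorem disc {f : ℂ → ℂ} (hf : H65K.Schl f) {u β s C : ℝ} (hs : s ≤ 1) (hβ : β < s)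
    (hC : ∀ r ∈ Ico (0 : ℝ) 1,
      ∫ θ in (-Real.pi)..Real.pi, ‖deriv f (circleMap 0 r θ)‖ ^ (-u) ≤ C * (1 - r) ^ (-β)) :
    ∫⁻ z in ball (0 : ℂ) 1, ENNReal.ofReal (‖deriv f z‖ ^ (-u) * (1 - ‖z‖ ^ 2) ^ (s - 1)) < ⊤ := by
  have hd : DifferentiableOn ℂ (deriv f) (ball 0 1) := hf.diff.deriv isOpen_ball
  have hT : MeasurableSet (Ioo (0 : ℝ) 1 ×ˢ Ioo (-Real.pi) Real.pi) :=
    measurableSet_Ioo.prod measurableSet_Ioo
  have hTt : MeasurableSet Complex.polarCoord.target :=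
    Complex.polarCoord.open_target.measurableSet
  -- the integrand in polar coordinates
  have hG : ∀ p ∈ Complex.polarCoord.target,
      ENNReal.ofReal p.1 • ((ball (0 : ℂ) 1).indicator (fun z => ENNReal.ofReal
        (‖deriv f z‖ ^ (-u) * (1 - ‖z‖ ^ 2) ^ (s - 1))) (Complex.polarCoord.symm p)) =
      (Ioo (0 : ℝ) 1 ×ˢ Ioo (-Real.pi) Real.pi).indicator (fun p => ENNReal.ofReal p.1 *
        ENNReal.ofReal (‖deriv f (circleMap 0 p.1 p.2)‖ ^ (-u) * (1 - p.1 ^ 2) ^ (s - 1))) p := by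
    rintro ⟨a, b⟩ ⟨h1, h2⟩
    have ha0 : 0 < a := h1
    have hn : ‖circleMap 0 a b‖ = a := by rw [norm_circleMap_zero, abs_of_pos ha0]
    rw [Disc_polar]
    by_cases ha1 : a < 1
    · rw [Set.indicator_of_mem (show circleMap 0 a b ∈ ball (0 : ℂ) 1 by
          rw [mem_ball_zero_iff, hn]; exact ha1),
        Set.indicator_of_mem (show (a, b) ∈ Ioo (0 : ℝ) 1 ×ˢ Ioo (-Real.pi) Real.pi from
          ⟨⟨ha0, ha1⟩, h2⟩), smul_eq_mul, hn]
    · rw [Set.indicator_of_notMem (show circleMap 0 a b ∉ ball (0 : ℂ) 1 by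
          rw [mem_ball_zero_iff, hn]; exact ha1),
        Set.indicator_of_notMem (show (a, b) ∉ Ioo (0 : ℝ) 1 ×ˢ Ioo (-Real.pi) Real.pi from
          fun h => ha1 h.1.2), smul_zero]
  have hcont : ContinuousOn (fun p : ℝ × ℝ => ENNReal.ofReal p.1 * ENNReal.ofReal
      (‖deriv f (circleMap 0 p.1 p.2)‖ ^ (-u) * (1 - p.1 ^ 2) ^ (s - 1)))
      (Ioo (0 : ℝ) 1 ×ˢ Ioo (-Real.pi) Real.pi) := by
    have h1 : Continuous fun p : ℝ × ℝ => circleMap 0 p.1 p.2 := by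
      unfold circleMap
      fun_prop
    have hmem : ∀ p ∈ Ioo (0 : ℝ) 1 ×ˢ Ioo (-Real.pi) Real.pi,
        circleMap 0 p.1 p.2 ∈ ball (0 : ℂ) 1 := by
      rintro ⟨a, b⟩ ⟨h3, h4⟩
      rw [mem_ball_zero_iff]
      show ‖circleMap 0 a b‖ < 1
      rw [norm_circleMap_zero, abs_of_pos h3.1]
      exact h3.2
    have h2 : ContinuousOn (fun p : ℝ × ℝ => deriv f (circleMap 0 p.1 p.2))
        (Ioo (0 : ℝ) 1 ×ˢ Ioo (-Real.pi) Real.pi) :=
      hd.continuousOn.comp h1.continuousOn hmem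
    have h5 : ContinuousOn (fun p : ℝ × ℝ => ‖deriv f (circleMap 0 p.1 p.2)‖ ^ (-u))
        (Ioo (0 : ℝ) 1 ×ˢ Ioo (-Real.pi) Real.pi) :=
      h2.norm.rpow_const fun p hp => Or.inl (norm_ne_zero_iff.2 (Disc_ne hf (hmem p hp)))
    have h6 : ContinuousOn (fun p : ℝ × ℝ => (1 - p.1 ^ 2) ^ (s - 1))
        (Ioo (0 : ℝ) 1 ×ˢ Ioo (-Real.pi) Real.pi) := by
      refine ContinuousOn.rpow_const (by fun_prop) ?_
      rintro ⟨a, b⟩ ⟨h3, h4⟩
      left
      have h7 : a ^ 2 < 1 := by nlinarith [h3.1, h3.2]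
      show (1 : ℝ) - a ^ 2 ≠ 0
      linarith
    have h8 : ContinuousOn (fun p : ℝ × ℝ => ENNReal.ofReal (p.1 *
        (‖deriv f (circleMap 0 p.1 p.2)‖ ^ (-u) * (1 - p.1 ^ 2) ^ (s - 1))))
        (Ioo (0 : ℝ) 1 ×ˢ Ioo (-Real.pi) Real.pi) :=
      ENNReal.continuous_ofReal.comp_continuousOn (continuous_fst.continuousOn.mul (h5.mul h6))
    refine h8.congr ?_
    rintro ⟨a, b⟩ ⟨h3, h4⟩
    exact (ENNReal.ofReal_mul h3.1.le).symm
  have hsub : Ioo (0 : ℝ) 1 ×ˢ Ioo (-Real.pi) Real.pi ⊆ Complex.polarCoord.target := by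
    rintro ⟨a, b⟩ ⟨h1, h2⟩
    exact ⟨h1.1, h2⟩
  have key : ∫⁻ z in ball (0 : ℂ) 1, ENNReal.ofReal (‖deriv f z‖ ^ (-u) *
      (1 - ‖z‖ ^ 2) ^ (s - 1)) =
      ∫⁻ r in Ioo (0 : ℝ) 1, ∫⁻ θ in Ioo (-Real.pi) Real.pi, ENNReal.ofReal r * ENNReal.ofReal
        (‖deriv f (circleMap 0 r θ)‖ ^ (-u) * (1 - r ^ 2) ^ (s - 1)) := by
    have a1 : ∫⁻ z : ℂ, (ball (0 : ℂ) 1).indicator (fun z => ENNReal.ofReal
        (‖deriv f z‖ ^ (-u) * (1 - ‖z‖ ^ 2) ^ (s - 1))) z =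
        ∫⁻ p in Complex.polarCoord.target, ENNReal.ofReal p.1 •
          ((ball (0 : ℂ) 1).indicator (fun z => ENNReal.ofReal
            (‖deriv f z‖ ^ (-u) * (1 - ‖z‖ ^ 2) ^ (s - 1))) (Complex.polarCoord.symm p)) :=
      (Complex.lintegral_comp_polarCoord_symm _).symm
    rw [← lintegral_indicator measurableSet_ball, a1,
      setLIntegral_congr_fun hTt hG, lintegral_indicator hT, Measure.restrict_restrict hT,
      inter_eq_left.2 hsub]
    have h1 := hcont.aemeasurable (μ := (volume : Measure (ℝ × ℝ))) hT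
    rw [Measure.volume_eq_prod, ← Measure.prod_restrict] at h1 ⊢
    rw [lintegral_prod _ h1]
  rw [key]
  refine lt_of_le_of_lt (setLIntegral_mono' measurableSet_Ioo fun r hr =>
    Disc_inner hf hs hC hr.1 hr.2) (Disc_outer hβ)

end Pool.Agent.H.MP_215299_an.KE
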