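import Pool.Agent.H.MP_215299_an.KE.PDef

/-! # KE/GDef: the pieces of the integral along a ray with arbitrary origin `a` -/

set_option autoImplicit false

open Complex Metric Set MeasureTheory Filter Topology
open scoped ENNReal

namespace Pool.Agent.H.MP_215299_an.KE

open H65K

/-- The part of `f(𝔻)` outside `|w - a| < ρ` where `dd f w / (M |w - a|)` is in `(lo, hi]`. -/
def EG (f : ℂ → ℂ) (a : ℂ) (ρ M lo hi : ℝ) : Set ℂ :=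
  {w | w ∈ f '' ball 0 1 ∧ ρ ≤ ‖w - a‖ ∧ lo < dd f w / (M * ‖w - a‖) ∧
    dd f w / (M * ‖w - a‖) ≤ hi}

/-- The integral of `(oo F / dd f)^p` along the part in `EG` of the ray from `a` with direction `θ`. -/
noncomputable def GR (p : ℝ) (f F : ℂ → ℂ) (a : ℂ) (ρ M lo hi θ : ℝ) : ℝ≥0∞ :=
  ∫⁻ r in {r : ℝ | 0 < r ∧ a + (r : ℂ) * exp (θ * I) ∈ EG f a ρ M lo hi},
    ENNReal.ofReal ((oo F (a + r * exp (θ * I)) / dd f (a + r * exp (θ * I))) ^ p)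

/-- The pieces. -/
noncomputable def GJ (p : ℝ) (f F : ℂ → ℂ) (a : ℂ) (ρ M : ℝ) (k : ℕ) (θ : ℝ) : ℝ≥0∞ :=
  GR p f F a ρ M ((1 / 2) ^ (k + 1)) ((1 / 2) ^ k) θ

/-- The enlarged pieces. -/
noncomputable def GS (p : ℝ) (f F : ℂ → ℂ) (a : ℂ) (ρ M : ℝ) (k : ℕ) (θ : ℝ) : ℝ≥0∞ :=
  GR p f F a ρ M ((1 / 2) ^ (k + 2)) (2 * (1 / 2) ^ k) θ

end Pool.Agent.H.MP_215299_an.KE
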