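import Pool.Agent.H.MP_215299_an.KE.GDef
import Pool.Agent.H.MP_215299_an.KD.Geo

/-!
# KE/GNear: the part of the integral near `a`

PROOF: if `a ∈ f '' ball 0 1` take `ρ = dd f a / 2` (`dd_pos`): for `|w - a| < ρ` `dd f w ≥ ρ` (`infDist_le_infDist_add_dist`), so
`|F' w| ≤ oo F w / dd f w ≤ 1 / ρ` (`geoA`, `oo_pos`) and the integral is at most `2 ρ (1 / ρ)^p`. If `a ∉ f '' ball 0 1` then, as `a` is not
in the frontier and `f '' ball 0 1` is open (`isOpen_im`), `a` is not in the closure, there is `ρ > 0` with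
`ball a ρ ∩ f '' ball 0 1 = ∅`, and the domain of integration is empty (`‖a + t e^{iθ} - a‖ = |t|`).
-/

set_option autoImplicit false

open Complex Metric Set MeasureTheory Filter Topology
open scoped ENNReal

namespace Pool.Agent.H.MP_215299_an.KE

open H65K

theorem G_near {f F : ℂ → ℂ} (hf : Schl f) (hF : ∀ z ∈ ball (0 : ℂ) 1, F (f z) = z) {p : ℝ}
    (hp : 0 < p) {a : ℂ} (ha : a ∉ frontier (f '' ball 0 1)) :
    ∃ ρ : ℝ, 0 < ρ ∧ ∀ θ : ℝ,
      ∫⁻ t in {t : ℝ | a + t * exp (θ * I) ∈ f '' ball 0 1 ∧ |t| < ρ},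
        ENNReal.ofReal (‖deriv F (a + t * exp (θ * I))‖ ^ p) < ⊤ := by
  have hU : IsOpen (f '' ball 0 1) := isOpen_im isOpen_ball hf.diff hf.inj
  have hn : ∀ t θ : ℝ, dist (a + (t : ℂ) * exp (θ * I)) a = |t| := by
    intro t θ
    rw [dist_eq_norm, add_sub_cancel_left, norm_mul, Complex.norm_exp_ofReal_mul_I, mul_one,
      Complex.norm_real, Real.norm_eq_abs]
  by_cases haU : a ∈ f '' ball 0 1
  · have hd := dd_pos hf haU
    obtain ⟨ρ, hρ⟩ : ∃ ρ : ℝ, dd f a = 2 * ρ := ⟨dd f a / 2, by ring⟩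
    have hρ0 : 0 < ρ := by linarith
    refine ⟨ρ, hρ0, fun θ => ?_⟩
    have hsub : {t : ℝ | a + t * exp (θ * I) ∈ f '' ball 0 1 ∧ |t| < ρ} ⊆ Ioo (-ρ) ρ :=
      fun t ht => abs_lt.1 ht.2
    refine (lintegral_mono_set hsub).trans_lt ?_
    have hle : ∫⁻ t in Ioo (-ρ) ρ, ENNReal.ofReal (‖deriv F (a + t * exp (θ * I))‖ ^ p) ≤
        ∫⁻ _ in Ioo (-ρ) ρ, ENNReal.ofReal ((1 / ρ) ^ p) := by
      refine setLIntegral_mono' measurableSet_Ioo fun t ht => ENNReal.ofReal_le_ofReal ?_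
      have ht1 : |t| < ρ := abs_lt.2 ht
      have hdist := hn t θ
      have hw : a + (t : ℂ) * exp (θ * I) ∈ f '' ball 0 1 := by
        have h1 : ball a (dd f a) ⊆ f '' ball 0 1 := ball_infDist_compl_subset
        refine h1 ?_
        rw [mem_ball, hdist]
        linarith
      have h2 : dd f a ≤ dd f (a + (t : ℂ) * exp (θ * I)) + dist a (a + (t : ℂ) * exp (θ * I)) :=
        infDist_le_infDist_add_dist
      rw [dist_comm, hdist] at h2
      have h3 := geoA hf hF hw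
      have h4 := (oo_pos hf hF hw).2
      have h5 : oo F (a + (t : ℂ) * exp (θ * I)) / dd f (a + (t : ℂ) * exp (θ * I)) ≤ 1 / ρ :=
        div_le_div₀ zero_le_one h4 hρ0 (by linarith)
      exact Real.rpow_le_rpow (norm_nonneg _) (h3.trans h5) hp.le
    refine hle.trans_lt ?_
    rw [setLIntegral_const]
    exact ENNReal.mul_lt_top ENNReal.ofReal_lt_top (by simp)
  · have hcl : a ∉ closure (f '' ball 0 1) := by
      intro h
      exact ha ⟨h, by rwa [hU.interior_eq]⟩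
    rw [Metric.mem_closure_iff] at hcl
    push Not at hcl
    obtain ⟨ρ, hρ, hb⟩ := hcl
    refine ⟨ρ, hρ, fun θ => ?_⟩
    have he : {t : ℝ | a + t * exp (θ * I) ∈ f '' ball 0 1 ∧ |t| < ρ} = ∅ := by
      refine eq_empty_iff_forall_notMem.2 fun t ht => ?_
      have h1 := hb _ ht.1
      rw [dist_comm, hn] at h1
      exact absurd ht.2 (not_lt.2 h1)
    rw [he]
    simp

end Pool.Agent.H.MP_215299_an.KE
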