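import Pool.Agent.H.MP_215299_an.KE.GDef
import Pool.Agent.H.MP_215299_an.KD.Geo

/-!
# KE/GSplit: decomposition of the integral along a line through `a`

PROOF: as `H65K.Ip_rot` in KD/JC: `{t | a + t e^{iθ} ∈ f '' ball 0 1}` is the union of the part with `|t| < ρ` (finite integral by
`hnear`), the part with `t ≥ ρ` and the part with `t ≤ -ρ`. For `t ≥ ρ` put `w = a + r e^{iθ}`, `r = t`; for `t ≤ -ρ`
`w = a + r e^{i(θ+π)}`, `r = -t`. `|F' w| ≤ oo F w / dd f w` (`geoA`), and `0 < dd f w ≤ |w| + 1 ≤ |w - a| + |a| + 1 ≤ M |w - a|`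
(`dd_pos`, `dd_le`, `hM`, `|w - a| = r ≥ ρ`), so `w` is in one of the sets `EG f a ρ M (2^-(k+1)) (2^-k)`, `k : ℕ`.
-/

set_option autoImplicit false

open Complex Metric Set MeasureTheory Filter Topology
open scoped ENNReal

namespace Pool.Agent.H.MP_215299_an.KE

open H65K

private lemma GSplit_open {f : ℂ → ℂ} (hf : Schl f) : IsOpen (f '' ball 0 1) :=
  isOpen_im isOpen_ball hf.diff hf.inj

private lemma GSplit_meas {f : ℂ → ℂ} (hf : Schl f) (a : ℂ) (φ : ℝ) :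
    MeasurableSet {x : ℝ | a + (x : ℂ) * exp (φ * I) ∈ f '' ball 0 1} := by
  have h : Continuous fun x : ℝ => a + (x : ℂ) * exp (φ * I) := by fun_prop
  exact ((GSplit_open hf).preimage h).measurableSet

private lemma GSplit_norm (a : ℂ) (x φ : ℝ) : ‖a + (x : ℂ) * exp (φ * I) - a‖ = |x| := by
  rw [add_sub_cancel_left, norm_mul, Complex.norm_exp_ofReal_mul_I, mul_one, Complex.norm_real,
    Real.norm_eq_abs]

private lemma GSplit_ray {f F : ℂ → ℂ} (hf : Schl f) (hF : ∀ z ∈ ball (0 : ℂ) 1, F (f z) = z)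
    {p : ℝ} (hp : 0 < p) (a : ℂ) {ρ M : ℝ} (hρ : 0 < ρ) (hM : 8 + (‖a‖ + 1) / ρ ≤ M) (φ : ℝ) :
    ∫⁻ x in {x : ℝ | ρ ≤ x ∧ a + (x : ℂ) * exp (φ * I) ∈ f '' ball 0 1},
      ENNReal.ofReal (‖deriv F (a + (x : ℂ) * exp (φ * I))‖ ^ p) ≤
        ∑' k : ℕ, GJ p f F a ρ M k φ := by
  set S : ℕ → Set ℝ := fun k =>
    {r : ℝ | 0 < r ∧ a + (r : ℂ) * exp (φ * I) ∈ EG f a ρ M ((1 / 2) ^ (k + 1)) ((1 / 2) ^ k)}
    with hS
  have hm : MeasurableSet {x : ℝ | ρ ≤ x ∧ a + (x : ℂ) * exp (φ * I) ∈ f '' ball 0 1} :=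
    (measurableSet_Ici (a := ρ)).inter (GSplit_meas hf a φ)
  have hM8 : 8 ≤ M := by
    have h1 : 0 ≤ (‖a‖ + 1) / ρ := by positivity
    linarith
  have hsub : {x : ℝ | ρ ≤ x ∧ a + (x : ℂ) * exp (φ * I) ∈ f '' ball 0 1} ⊆ ⋃ k, S k := by
    rintro x ⟨hx, hw⟩
    have hx0 : 0 < x := lt_of_lt_of_le hρ hx
    have hn : ‖a + (x : ℂ) * exp (φ * I) - a‖ = x := by
      rw [GSplit_norm, abs_of_pos hx0]
    have hd := dd_pos hf hw
    have hle := dd_le hf (a + (x : ℂ) * exp (φ * I))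
    have hn2 : ‖a + (x : ℂ) * exp (φ * I)‖ ≤ x + ‖a‖ := by
      have h1 := norm_add_le (a + (x : ℂ) * exp (φ * I) - a) a
      rw [sub_add_cancel, hn] at h1
      exact h1
    have hMx : x + ‖a‖ + 1 ≤ M * x := by
      have h1 : (8 + (‖a‖ + 1) / ρ) * x ≤ M * x := mul_le_mul_of_nonneg_right hM hx0.le
      have h2 : ‖a‖ + 1 ≤ (‖a‖ + 1) / ρ * x := by
        rw [div_mul_eq_mul_div, le_div_iff₀ hρ]
        exact mul_le_mul_of_nonneg_left hx (by positivity)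
      nlinarith
    have h9 : 0 < M * x := mul_pos (by linarith) hx0
    obtain ⟨k, hk1, hk2⟩ := exists_nat_pow_near_of_lt_one
      (x := dd f (a + (x : ℂ) * exp (φ * I)) / (M * x)) (y := (1 / 2 : ℝ)) (by positivity)
      (by rw [div_le_one h9]; linarith) (by norm_num) (by norm_num)
    refine mem_iUnion.2 ⟨k, hx0, hw, ?_, ?_, ?_⟩
    · rw [hn]; exact hx
    · rw [hn]; exact hk1
    · rw [hn]; exact hk2
  calc ∫⁻ x in {x : ℝ | ρ ≤ x ∧ a + (x : ℂ) * exp (φ * I) ∈ f '' ball 0 1},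
        ENNReal.ofReal (‖deriv F (a + (x : ℂ) * exp (φ * I))‖ ^ p)
      ≤ ∫⁻ x in {x : ℝ | ρ ≤ x ∧ a + (x : ℂ) * exp (φ * I) ∈ f '' ball 0 1},
        ENNReal.ofReal ((oo F (a + x * exp (φ * I)) / dd f (a + x * exp (φ * I))) ^ p) := by
        refine setLIntegral_mono' hm fun x hx => ENNReal.ofReal_le_ofReal ?_
        exact Real.rpow_le_rpow (norm_nonneg _) (geoA hf hF hx.2) hp.le
    _ ≤ ∫⁻ x in ⋃ k, S k,
        ENNReal.ofReal ((oo F (a + x * exp (φ * I)) / dd f (a + x * exp (φ * I))) ^ p) :=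
        lintegral_mono_set hsub
    _ ≤ ∑' k : ℕ, GJ p f F a ρ M k φ := lintegral_iUnion_le _ _

theorem G_split {f F : ℂ → ℂ} (hf : Schl f) (hF : ∀ z ∈ ball (0 : ℂ) 1, F (f z) = z) {p : ℝ}
    (hp : 0 < p) (a : ℂ) {ρ M : ℝ} (hρ : 0 < ρ) (hM : 8 + (‖a‖ + 1) / ρ ≤ M) (θ : ℝ)
    (hnear : ∫⁻ t in {t : ℝ | a + t * exp (θ * I) ∈ f '' ball 0 1 ∧ |t| < ρ},
      ENNReal.ofReal (‖deriv F (a + t * exp (θ * I))‖ ^ p) < ⊤)
    (h : LI p f F a (exp (θ * I)) = ⊤) :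
    ∑' k : ℕ, GJ p f F a ρ M k θ = ⊤ ∨ ∑' k : ℕ, GJ p f F a ρ M k (θ + Real.pi) = ⊤ := by
  by_contra hcon
  rw [not_or] at hcon
  obtain ⟨hA, hB⟩ := hcon
  have hsub : {t : ℝ | a + (t : ℂ) * exp (θ * I) ∈ f '' ball 0 1} ⊆
      ({t : ℝ | a + (t : ℂ) * exp (θ * I) ∈ f '' ball 0 1 ∧ |t| < ρ} ∪
        {t : ℝ | ρ ≤ t ∧ a + (t : ℂ) * exp (θ * I) ∈ f '' ball 0 1}) ∪
        {t : ℝ | t ≤ -ρ ∧ a + (t : ℂ) * exp (θ * I) ∈ f '' ball 0 1} := by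
    intro t ht
    rcases lt_or_ge |t| ρ with h1 | h1
    · exact Or.inl (Or.inl ⟨ht, h1⟩)
    · rcases le_abs.1 h1 with h2 | h2
      · exact Or.inl (Or.inr ⟨h2, ht⟩)
      · exact Or.inr ⟨by linarith, ht⟩
  have hexp : exp (((θ + Real.pi : ℝ) : ℂ) * I) = - exp (θ * I) := by
    rw [Complex.ofReal_add, add_mul, Complex.exp_add, Complex.exp_pi_mul_I]; ring
  have hneg : ∫⁻ t in {t : ℝ | t ≤ -ρ ∧ a + (t : ℂ) * exp (θ * I) ∈ f '' ball 0 1},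
      ENNReal.ofReal (‖deriv F (a + (t : ℂ) * exp (θ * I))‖ ^ p) ≤
        ∑' k : ℕ, GJ p f F a ρ M k (θ + Real.pi) := by
    have hm1 : MeasurableSet {t : ℝ | t ≤ -ρ ∧ a + (t : ℂ) * exp (θ * I) ∈ f '' ball 0 1} :=
      (measurableSet_Iic (a := -ρ)).inter (GSplit_meas hf a θ)
    have hm2 : MeasurableSet {t : ℝ | ρ ≤ t ∧
        a + (t : ℂ) * exp (((θ + Real.pi : ℝ) : ℂ) * I) ∈ f '' ball 0 1} :=
      (measurableSet_Ici (a := ρ)).inter (GSplit_meas hf a (θ + Real.pi))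
    refine le_trans (le_of_eq ?_) (GSplit_ray hf hF hp a hρ hM (θ + Real.pi))
    rw [← lintegral_indicator hm1, ← lintegral_indicator hm2,
      ← lintegral_neg_eq_self (μ := (volume : Measure ℝ))]
    refine lintegral_congr fun x => ?_
    have hx : a + ((-x : ℝ) : ℂ) * exp (θ * I) =
        a + (x : ℂ) * exp (((θ + Real.pi : ℝ) : ℂ) * I) := by
      rw [hexp]; push_cast; ring
    by_cases hx1 : ρ ≤ x ∧ a + (x : ℂ) * exp (((θ + Real.pi : ℝ) : ℂ) * I) ∈ f '' ball 0 1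
    · have hx2 : -x ∈ {t : ℝ | t ≤ -ρ ∧ a + (t : ℂ) * exp (θ * I) ∈ f '' ball 0 1} := by
        refine ⟨by linarith [hx1.1], ?_⟩
        rw [hx]; exact hx1.2
      rw [indicator_of_mem hx2, indicator_of_mem (show x ∈ {t : ℝ | ρ ≤ t ∧
        a + (t : ℂ) * exp (((θ + Real.pi : ℝ) : ℂ) * I) ∈ f '' ball 0 1} from hx1), hx]
    · have hx2 : -x ∉ {t : ℝ | t ≤ -ρ ∧ a + (t : ℂ) * exp (θ * I) ∈ f '' ball 0 1} := by
        rintro ⟨h1, h2⟩
        refine hx1 ⟨by linarith, ?_⟩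
        rw [← hx]; exact h2
      rw [indicator_of_notMem hx2, indicator_of_notMem (show x ∉ {t : ℝ | ρ ≤ t ∧
        a + (t : ℂ) * exp (((θ + Real.pi : ℝ) : ℂ) * I) ∈ f '' ball 0 1} from hx1)]
  have hlt : LI p f F a (exp (θ * I)) < ⊤ := by
    unfold LI
    refine lt_of_le_of_lt (lintegral_mono_set hsub) ?_
    refine lt_of_le_of_lt (lintegral_union_le _ _ _) ?_
    refine ENNReal.add_lt_top.2 ⟨lt_of_le_of_lt (lintegral_union_le _ _ _)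
      (ENNReal.add_lt_top.2 ⟨hnear, ?_⟩), ?_⟩
    · exact lt_of_le_of_lt (GSplit_ray hf hF hp a hρ hM θ) (lt_top_iff_ne_top.2 hA)
    · exact lt_of_le_of_lt hneg (lt_top_iff_ne_top.2 hB)
  exact hlt.ne h

end Pool.Agent.H.MP_215299_an.KE
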