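import Pool.Agent.H.MP_215299_an.KE.GDef
import Pool.Agent.H.MP_215299_an.KD.Harn

/-!
# KE/Gle: comparison of the pieces for neighbouring directions

PROOF: the proof of `H65K.JJ_le_JS` in KD/JA with `w - a` in place of `w`, `M` in place of `9`, `ρ` in place of `1 / 8`: for
`w = a + r e^{iθ} ∈ EG f a ρ M (2^-(k+1)) (2^-k)` and `w' = a + r e^{iφ}`: `|w - w'| ≤ r |φ - θ| ≤ r 2^-k ≤ dd f w / 4`, as
`dd f w > M r 2^-(k+1)`, `M ≥ 8`. By `harn` `w' ∈ EG f a ρ M (2^-(k+2)) (2 · 2^-k)` and `oo F w / dd f w ≤ (5/2) oo F w' / dd f w'`.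
-/

set_option autoImplicit false

open Complex Metric Set MeasureTheory Filter Topology
open scoped ENNReal

namespace Pool.Agent.H.MP_215299_an.KE

open H65K

private theorem Gle_rot (r θ φ : ℝ) (hr : 0 < r) :
    ‖(r : ℂ) * exp (φ * I) - r * exp (θ * I)‖ ≤ r * |φ - θ| := by
  have h1 : (r : ℂ) * exp (φ * I) - r * exp (θ * I) =
      r * (exp (θ * I) * (exp (I * ((φ - θ : ℝ) : ℂ)) - 1)) := by
    have h2 : exp (φ * I) = exp (θ * I) * exp (I * ((φ - θ : ℝ) : ℂ)) := by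
      rw [← Complex.exp_add]
      congr 1
      push_cast
      ring
    rw [h2]
    ring
  rw [h1, norm_mul, norm_mul, Complex.norm_real, Real.norm_eq_abs, abs_of_pos hr,
    Complex.norm_exp_ofReal_mul_I, one_mul]
  exact mul_le_mul_of_nonneg_left (Real.norm_exp_I_mul_ofReal_sub_one_le) hr.le

private theorem Gle_meas {f : ℂ → ℂ} (hf : Schl f) (a : ℂ) (ρ M lo hi θ : ℝ) :
    MeasurableSet {r : ℝ | 0 < r ∧ a + (r : ℂ) * exp (θ * I) ∈ EG f a ρ M lo hi} := by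
  have h1 : MeasurableSet (f '' ball 0 1) := (isOpen_im isOpen_ball hf.diff hf.inj).measurableSet
  have h0 : Measurable fun w : ℂ => ‖w - a‖ := (measurable_id.sub_const a).norm
  have h2 : Measurable fun w : ℂ => dd f w / (M * ‖w - a‖) :=
    (measurable_infDist).div (h0.const_mul M)
  have h3 : MeasurableSet (EG f a ρ M lo hi) := by
    have h4 : EG f a ρ M lo hi = f '' ball 0 1 ∩ ({w | ρ ≤ ‖w - a‖} ∩
        ({w | lo < dd f w / (M * ‖w - a‖)} ∩ {w | dd f w / (M * ‖w - a‖) ≤ hi})) := rfl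
    rw [h4]
    exact h1.inter ((measurableSet_le measurable_const h0).inter
      ((measurableSet_lt measurable_const h2).inter (measurableSet_le h2 measurable_const)))
  have h5 : Measurable fun r : ℝ => a + (r : ℂ) * exp (θ * I) := by fun_prop
  exact measurableSet_Ioi.inter (h5 h3)

theorem GJ_le_GS {f F : ℂ → ℂ} (hf : Schl f) (hF : ∀ z ∈ ball (0 : ℂ) 1, F (f z) = z) {p : ℝ}
    (hp : 0 ≤ p) (a : ℂ) {ρ M : ℝ} (hρ : 0 < ρ) (hM : 8 ≤ M) (k : ℕ) {θ φ : ℝ}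
    (h : |φ - θ| ≤ (1 / 2) ^ k) :
    GJ p f F a ρ M k θ ≤ ENNReal.ofReal ((5 / 2) ^ p) * GS p f F a ρ M k φ := by
  have hk : (0 : ℝ) < (1 / 2) ^ k := by positivity
  have key : ∀ r : ℝ, 0 < r →
      a + (r : ℂ) * exp (θ * I) ∈ EG f a ρ M ((1 / 2) ^ (k + 1)) ((1 / 2) ^ k) →
      a + (r : ℂ) * exp (φ * I) ∈ EG f a ρ M ((1 / 2) ^ (k + 2)) (2 * (1 / 2) ^ k) ∧
      oo F (a + r * exp (θ * I)) / dd f (a + r * exp (θ * I)) ≤
        5 / 2 * (oo F (a + r * exp (φ * I)) / dd f (a + r * exp (φ * I))) := by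
    intro r hr hw
    obtain ⟨h1, h2, h3, h4⟩ := hw
    have hrot : ‖(a + (r : ℂ) * exp (φ * I)) - (a + r * exp (θ * I))‖ ≤ r * |φ - θ| := by
      rw [add_sub_add_left_eq_sub]
      exact Gle_rot r θ φ hr
    have hn : ∀ t : ℝ, ‖a + (r : ℂ) * exp (t * I) - a‖ = r := by
      intro t
      rw [add_sub_cancel_left, norm_mul, Complex.norm_real, Real.norm_eq_abs, abs_of_pos hr,
        Complex.norm_exp_ofReal_mul_I, mul_one]
    rw [hn] at h2 h3 h4
    have hn' := hn φ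
    generalize a + (r : ℂ) * exp (θ * I) = w at *
    generalize a + (r : ℂ) * exp (φ * I) = w' at *
    have h9 : (0 : ℝ) < M * r := mul_pos (by linarith) hr
    have h8 : 8 * r ≤ M * r := mul_le_mul_of_nonneg_right hM hr.le
    rw [lt_div_iff₀ h9] at h3
    rw [div_le_iff₀ h9] at h4
    rw [pow_succ] at h3
    have h5 : ‖w' - w‖ ≤ dd f w / 4 := by
      have h6 : r * |φ - θ| ≤ r * (1 / 2) ^ k := mul_le_mul_of_nonneg_left h hr.le
      have h7 : (1 / 2 : ℝ) ^ k * (8 * r) ≤ (1 / 2 : ℝ) ^ k * (M * r) :=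
        mul_le_mul_of_nonneg_left h8 hk.le
      nlinarith
    obtain ⟨g1, g2, g3, g4⟩ := harn hf hF h1 h5
    have hd : 0 < dd f w := dd_pos hf h1
    have hd' : 0 < dd f w' := dd_pos hf g1
    have ho' : 0 < oo F w' := (oo_pos hf hF g1).1
    have h7 : 0 < (1 / 2 : ℝ) ^ k * (M * r) := mul_pos hk h9
    refine ⟨⟨g1, ?_, ?_, ?_⟩, ?_⟩
    · rw [hn']
      exact h2
    · rw [hn', lt_div_iff₀ h9, pow_succ, pow_succ]
      nlinarith
    · rw [hn', div_le_iff₀ h9]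
      nlinarith
    · rw [div_le_iff₀ hd, ← mul_div_assoc, div_mul_eq_mul_div, le_div_iff₀ hd']
      nlinarith
  unfold GJ GS GR
  have hA := Gle_meas hf a ρ M ((1 / 2) ^ (k + 1)) ((1 / 2) ^ k) θ
  have hsub : {r : ℝ | 0 < r ∧
        a + (r : ℂ) * exp (θ * I) ∈ EG f a ρ M ((1 / 2) ^ (k + 1)) ((1 / 2) ^ k)} ⊆
      {r : ℝ | 0 < r ∧
        a + (r : ℂ) * exp (φ * I) ∈ EG f a ρ M ((1 / 2) ^ (k + 2)) (2 * (1 / 2) ^ k)} :=
    fun r hr => ⟨hr.1, (key r hr.1 hr.2).1⟩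
  rw [← lintegral_const_mul' _ _ ENNReal.ofReal_ne_top]
  refine (setLIntegral_mono' hA fun r hr => ?_).trans (lintegral_mono_set hsub)
  obtain ⟨k1, k2⟩ := key r hr.1 hr.2
  have hd : 0 < dd f (a + r * exp (θ * I)) := dd_pos hf hr.2.1
  have ho : 0 < oo F (a + r * exp (θ * I)) := (oo_pos hf hF hr.2.1).1
  have hd' : 0 < dd f (a + r * exp (φ * I)) := dd_pos hf k1.1
  have ho' : 0 < oo F (a + r * exp (φ * I)) := (oo_pos hf hF k1.1).1
  rw [← ENNReal.ofReal_mul (by positivity), ← Real.mul_rpow (by norm_num) (by positivity)]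
  exact ENNReal.ofReal_le_ofReal (Real.rpow_le_rpow (by positivity) k2 hp)

end Pool.Agent.H.MP_215299_an.KE
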