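import Pool.Agent.H.MP_215299_an.CC.HW
import Pool.Agent.H.MP_215299_an.CC.QF

/-!
# KE/HWl: the theorem of Hayman and Wu for all lines

PROOF: `Uni.len` (CC/QB) and `Uni.hw` (CC/HW1): `∫⁻ t in E, |F'| ≤ 400000` for compact `E ⊆ ℝ ∩ f(𝔻)` (`Cp f E`); exhaustion by the
sets `E N` as in the proof of `sum_line` in CC/QF; then `Uni.move` (CC/QF) as in the proof of `sum_lines` (the part of its
conclusion about `Qm` is not needed).
-/

set_option autoImplicit false

open Complex Metric Set MeasureTheory Filter Topology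
open scoped ENNReal

namespace Pool.Agent.H.MP_215299_an.KE

open Pool.Agent.H.MP_215299_an.CC

private theorem HWl_line {f F : ℂ → ℂ} (h : Uni f F) :
    ∫⁻ t in {t : ℝ | (t : ℂ) ∈ Om f}, ENNReal.ofReal ‖deriv F t‖ ≤ ENNReal.ofReal 400000 := by
  set E : ℕ → Set ℝ := fun N => {t : ℝ | |t| ≤ N ∧ 1 / ((N : ℝ) + 1) ≤ dd f (t : ℂ)} with hEd
  have hcpt : ∀ N, Cp f (E N) := by
    intro N
    refine ⟨?_, ?_⟩
    · refine Metric.isCompact_of_isClosed_isBounded ?_ ?_
      · exact (isClosed_le continuous_abs continuous_const).inter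
          (isClosed_le continuous_const ((dd_cont f).comp Complex.continuous_ofReal))
      · refine (Metric.isBounded_closedBall (x := (0 : ℝ)) (r := N)).subset ?_
        intro t ht
        rw [mem_closedBall, Real.dist_eq, sub_zero]
        exact ht.1
    · intro t ht
      by_contra hc
      have h0 : dd f (t : ℂ) = 0 := infDist_zero_of_mem hc
      have h1 : (0 : ℝ) < 1 / ((N : ℝ) + 1) := by positivity
      have h2 := ht.2
      rw [h0] at h2
      linarith
  have hmono : Monotone E := by
    intro m n hmn t ht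
    have hmn' : (m : ℝ) ≤ n := by exact_mod_cast hmn
    refine ⟨ht.1.trans hmn', le_trans ?_ ht.2⟩
    exact one_div_le_one_div_of_le (by positivity) (by linarith)
  have hun : {t : ℝ | (t : ℂ) ∈ Om f} = ⋃ N, E N := by
    ext t
    constructor
    · intro ht
      have hdp : 0 < dd f (t : ℂ) := h.dd_pos ht
      obtain ⟨n, hn⟩ := exists_nat_gt (max |t| (1 / dd f (t : ℂ)))
      refine mem_iUnion.2 ⟨n, ((le_max_left _ _).trans hn.le), ?_⟩
      have h1 : 1 / dd f (t : ℂ) ≤ (n : ℝ) + 1 := by
        have := (le_max_right |t| (1 / dd f (t : ℂ))).trans hn.le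
        linarith
      rw [div_le_iff₀ hdp] at h1
      rw [div_le_iff₀ (by positivity)]
      linarith
    · intro ht
      obtain ⟨n, hn⟩ := mem_iUnion.1 ht
      exact (hcpt n).sub t hn
  rw [hun, setLIntegral_iUnion_of_directed _ hmono.directed_le]
  refine iSup_le fun n => (h.len (hcpt n)).trans (ENNReal.ofReal_le_ofReal ?_)
  have hw := h.hw (hcpt n) (f 0)
  linarith

theorem hw_lines {f F : ℂ → ℂ} (h : Uni f F) {a u : ℂ} (hu : ‖u‖ = 1) :
    ∫⁻ t in {t : ℝ | a + t * u ∈ Om f}, ENNReal.ofReal ‖deriv F (a + t * u)‖ ≤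
      ENNReal.ofReal 400000 := by
  obtain ⟨h1, h2, h3, _⟩ := h.move a u hu
  have key := HWl_line h1
  rw [h2] at key
  simpa only [h3] using key

end Pool.Agent.H.MP_215299_an.KE
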