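import Pool.Agent.H.MP_215299_an.KE.Mean
import Pool.Agent.H.MP_215299_an.KE.Disc
import Pool.Agent.H.MP_215299_an.KE.Area
import Pool.Agent.H.MP_215299_an.KE.Alg

/-!
# KE/Hint: the area integral is finite. PROOF: `exists_beta`, `means`, `disc`, `area`.
-/

set_option autoImplicit false

open Complex Metric Set MeasureTheory Filter Topology
open scoped ENNReal

namespace Pool.Agent.H.MP_215299_an.KE

open H65K

theorem hint {f F : ℂ → ℂ} (hf : Schl f) (hF : ∀ z ∈ ball (0 : ℂ) 1, F (f z) = z) {p s : ℝ}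
    (hp : 1 < p) (h1 : sst p < s) (h2 : s < p - 1) (h3 : s < 1) :
    ∫⁻ w in f '' ball 0 1, ENNReal.ofReal ((oo F w / dd f w) ^ p * dd f w ^ (s - 1)) < ⊤ := by
  have hs : 0 < s := (sst_pos hp).trans h1
  obtain ⟨β, hβ0, hβs, hβ⟩ := exists_beta hp h1 h2
  obtain ⟨C, _, hC⟩ := means hf (u := p - 1 - s) (by linarith) hβ0 hβ
  exact area hf hF (by linarith) h3.le (disc hf h3.le hβs hC)

end Pool.Agent.H.MP_215299_an.KE
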