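import Pool.Agent.H.MP_215299_an.KE.PDef
import Pool.Agent.H.MP_215299_an.KD.Quar
import Pool.Agent.H.MP_215299_an.KD.Ne

/-!
# KE/Rot: rotations, and change of the base point

`rot_schl`, `rot_inv`: `rot τ f z = exp (-(τ I)) f (exp (τ I) z)`.
`LI_rot`: `a + t u ∈ rot τ f '' ball 0 1 ↔ exp (τ I) (a + t u) ∈ f '' ball 0 1`, `deriv (rot τ F) w = deriv F (exp (τ I) w)`
(see `JC_dom`, `JC_der` in KD/JC).
`Ip_eq`: `Ip p (rot θ f) (rot θ F) = LI p f F 0 (exp (θ I))`, the same.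
`base`: `z₀ = F a`, `φ ζ = (ζ + z₀) / (1 + conj z₀ ζ)`, `c = (1 - |z₀|²) f'(z₀)`, `h ζ = (f (φ ζ) - a) / c` (in `Schl`, see the proof of
`H65K.shift` in KD/Quar), `G w = (F (a + c w) - z₀) / (1 - conj z₀ F (a + c w))`, the inverse. For `u = exp (θ I)`,
`c = |c| exp (α I)`: `a + t u ∈ f '' ball 0 1 ↔ (t / |c|) exp ((θ - α) I) ∈ h '' ball 0 1`, and with `w = (t / |c|) exp ((θ - α) I)`
`deriv G w = c F'(a + t u) (1 - |z₀|²) / (1 - conj z₀ F (a + t u))²`, so `|F'(a + t u)| ≤ M |G' w|`, `M = 4 / (|c| (1 - |z₀|²))`. So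
`LI p f F a (exp (θ I)) = ⊤` implies `LI p h G 0 (exp ((θ - α) I)) = ⊤` (substitution `t = |c| x`).
-/

set_option autoImplicit false

open Complex Metric Set MeasureTheory Filter Topology
open scoped ENNReal

namespace Pool.Agent.H.MP_215299_an.KE

open H65K

private theorem Rot_mul (τ : ℝ) : exp (-(τ * I : ℂ)) * exp (τ * I) = 1 := by
  rw [← Complex.exp_add, neg_add_cancel, Complex.exp_zero]

private theorem Rot_norm (τ : ℝ) : ‖exp (τ * I : ℂ)‖ = 1 := Complex.norm_exp_ofReal_mul_I τ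

private theorem Rot_norm' (τ : ℝ) : ‖exp (-(τ * I : ℂ))‖ = 1 := by
  have h := congrArg norm (Rot_mul τ)
  rwa [norm_mul, Rot_norm, mul_one, norm_one] at h

private theorem Rot_mem {τ : ℝ} {z : ℂ} (hz : z ∈ ball (0 : ℂ) 1) :
    exp (τ * I : ℂ) * z ∈ ball (0 : ℂ) 1 := by
  rw [mem_ball_zero_iff] at hz ⊢
  rwa [norm_mul, Rot_norm, one_mul]

private theorem Rot_mem' {τ : ℝ} {z : ℂ} (hz : z ∈ ball (0 : ℂ) 1) :
    exp (-(τ * I : ℂ)) * z ∈ ball (0 : ℂ) 1 := by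
  rw [mem_ball_zero_iff] at hz ⊢
  rwa [norm_mul, Rot_norm', one_mul]

private theorem Rot_der (F : ℂ → ℂ) (θ : ℝ) (w : ℂ) :
    deriv (rot θ F) w = deriv F (exp (θ * I) * w) := by
  unfold rot
  rw [deriv_const_mul_field, deriv_comp_mul_left, smul_eq_mul, ← mul_assoc, Rot_mul, one_mul]

private theorem Rot_dom (f : ℂ → ℂ) (θ : ℝ) (w : ℂ) :
    w ∈ rot θ f '' ball 0 1 ↔ exp (θ * I) * w ∈ f '' ball 0 1 := by
  constructor
  · rintro ⟨z, hz, rfl⟩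
    refine ⟨exp (θ * I) * z, Rot_mem hz, ?_⟩
    unfold rot
    rw [← mul_assoc, mul_comm (exp (θ * I : ℂ)) (exp (-(θ * I : ℂ))), Rot_mul, one_mul]
  · rintro ⟨z, hz, h⟩
    refine ⟨exp (-(θ * I)) * z, Rot_mem' hz, ?_⟩
    unfold rot
    rw [← mul_assoc (exp (θ * I : ℂ)), mul_comm (exp (θ * I : ℂ)) (exp (-(θ * I : ℂ))), Rot_mul,
      one_mul, h, ← mul_assoc, Rot_mul, one_mul]

theorem rot_schl {f : ℂ → ℂ} (hf : Schl f) (τ : ℝ) : Schl (rot τ f) := by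
  refine ⟨?_, ?_, ?_, ?_⟩
  · intro z hz
    have h1 : DifferentiableAt ℂ f (exp (τ * I) * z) :=
      hf.diff.differentiableAt (isOpen_ball.mem_nhds (Rot_mem hz))
    have h2 : DifferentiableAt ℂ (fun z : ℂ => exp (τ * I : ℂ) * z) z :=
      differentiableAt_id.const_mul _
    exact ((h1.comp z h2).const_mul _).differentiableWithinAt
  · intro a ha b hb hab
    have h1 : exp (-(τ * I : ℂ)) * f (exp (τ * I) * a) = exp (-(τ * I : ℂ)) * f (exp (τ * I) * b) :=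
      hab
    have h2 := mul_left_cancel₀ (Complex.exp_ne_zero _) h1
    have h3 := hf.inj (Rot_mem ha) (Rot_mem hb) h2
    exact mul_left_cancel₀ (Complex.exp_ne_zero _) h3
  · show exp (-(τ * I : ℂ)) * f (exp (τ * I) * 0) = 0
    rw [mul_zero, hf.zero, mul_zero]
  · rw [Rot_der, mul_zero, hf.one]

theorem rot_inv {f F : ℂ → ℂ} (hF : ∀ z ∈ ball (0 : ℂ) 1, F (f z) = z) (τ : ℝ) :
    ∀ z ∈ ball (0 : ℂ) 1, rot τ F (rot τ f z) = z := by
  intro z hz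
  unfold rot
  rw [← mul_assoc (exp (τ * I : ℂ)), mul_comm (exp (τ * I : ℂ)) (exp (-(τ * I : ℂ))), Rot_mul,
    one_mul, hF _ (Rot_mem hz), ← mul_assoc, Rot_mul, one_mul]

theorem LI_rot (f F : ℂ → ℂ) (p τ : ℝ) (a u : ℂ) :
    LI p (rot τ f) (rot τ F) a u = LI p f F (a * exp (τ * I)) (u * exp (τ * I)) := by
  have e : ∀ t : ℝ, exp (τ * I : ℂ) * (a + t * u) = a * exp (τ * I) + t * (u * exp (τ * I)) :=
    fun t => by ring
  unfold LI
  have hD : {t : ℝ | a + t * u ∈ rot τ f '' ball 0 1} =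
      {t : ℝ | a * exp (τ * I) + t * (u * exp (τ * I)) ∈ f '' ball 0 1} := by
    ext t
    rw [mem_setOf_eq, mem_setOf_eq, Rot_dom, e]
  rw [hD]
  simp only [Rot_der, e]

theorem Ip_eq (f F : ℂ → ℂ) (p θ : ℝ) :
    Ip p (rot θ f) (rot θ F) = LI p f F 0 (exp (θ * I)) := by
  have e : ∀ t : ℝ, exp (θ * I : ℂ) * (t : ℂ) = 0 + t * exp (θ * I) := fun t => by ring
  unfold Ip LI
  have hD : {t : ℝ | (t : ℂ) ∈ rot θ f '' ball 0 1} =
      {t : ℝ | 0 + t * exp (θ * I) ∈ f '' ball 0 1} := by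
    ext t
    rw [mem_setOf_eq, mem_setOf_eq, Rot_dom, e]
  rw [hD]
  simp only [Rot_der, e]

end Pool.Agent.H.MP_215299_an.KE
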