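import Pool.Agent.H.MP_215299_an.KD.JDef
import Pool.Agent.H.MP_215299_an.KD.IntA
import Pool.Agent.H.MP_215299_an.KD.PolC

/-!
# KE/SumJ: the sum of the integrals of the enlarged pieces

PROOF: the proof of `H65K.sum_JS` in KD/JB with `hint` in place of `intA` (copy the private lemmas with new names `SumJ_...`;
the integral over `{w | w ∈ f '' ball 0 1 ∧ 1 / 8 ≤ ‖w‖}` is at most the integral over `f '' ball 0 1`).
-/

set_option autoImplicit false

open Complex Metric Set MeasureTheory Filter Topology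
open scoped ENNReal

namespace Pool.Agent.H.MP_215299_an.KE

open H65K

variable {f F : ℂ → ℂ}

private theorem SumJ_dd (f : ℂ → ℂ) : Measurable (dd f) := by
  unfold dd
  exact (Metric.continuous_infDist_pt _).measurable

private theorem SumJ_EE (hf : Schl f) (lo hi : ℝ) : MeasurableSet (EE f lo hi) := by
  have h1 : MeasurableSet (f '' ball 0 1) := (isOpen_im isOpen_ball hf.diff hf.inj).measurableSet
  have h2 : Measurable fun w : ℂ => dd f w / (9 * ‖w‖) :=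
    (SumJ_dd f).div (measurable_norm.const_mul 9)
  have h3 : EE f lo hi = f '' ball 0 1 ∩ ({w : ℂ | 1 / 8 ≤ ‖w‖} ∩
      ({w | lo < dd f w / (9 * ‖w‖)} ∩ {w | dd f w / (9 * ‖w‖) ≤ hi})) := rfl
  rw [h3]
  exact h1.inter ((measurableSet_le measurable_const measurable_norm).inter
    ((measurableSet_lt measurable_const h2).inter (measurableSet_le h2 measurable_const)))

private theorem SumJ_psi (hf : Schl f) (hF : ∀ z ∈ ball (0 : ℂ) 1, F (f z) = z) (p : ℝ) :
    ∃ ψ : ℂ → ℝ, Measurable ψ ∧ ∀ w ∈ f '' ball 0 1, ψ w = (oo F w / dd f w) ^ p := by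
  classical
  have hU : IsOpen (f '' ball 0 1) := isOpen_im isOpen_ball hf.diff hf.inj
  have hFd : DifferentiableOn ℂ F (f '' ball 0 1) := diff_inv isOpen_ball hf.diff hf.inj hF
  have hc : ContinuousOn (fun w => (oo F w / dd f w) ^ p) (f '' ball 0 1) := by
    have h1 : ContinuousOn (oo F) (f '' ball 0 1) := by
      unfold oo
      exact continuousOn_const.sub (hFd.continuousOn.norm.pow 2)
    have h2 : ContinuousOn (dd f) (f '' ball 0 1) := by
      unfold dd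
      exact (Metric.continuous_infDist_pt _).continuousOn
    refine ContinuousOn.rpow_const (h1.div h2 fun w hw => (dd_pos hf hw).ne') fun w hw => ?_
    exact Or.inl (div_pos (oo_pos hf hF hw).1 (dd_pos hf hw)).ne'
  refine ⟨(f '' ball 0 1).piecewise (fun w => (oo F w / dd f w) ^ p) (fun _ => 0),
    hc.measurable_piecewise continuousOn_const hU.measurableSet, fun w hw => ?_⟩
  exact Set.piecewise_eq_of_mem _ _ _ hw

/-- the integrand of a piece, in polar coordinates -/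
private theorem SumJ_ray (hf : Schl f) {p : ℝ} {ψ : ℂ → ℝ} (lo hi θ : ℝ)
    (hψ : ∀ w ∈ f '' ball 0 1, ψ w = (oo F w / dd f w) ^ p) :
    JR p f F lo hi θ ≤ ∫⁻ r in Ioi (0 : ℝ), ENNReal.ofReal r *
      (EE f lo hi).indicator (fun w => ENNReal.ofReal (ψ w * ‖w‖⁻¹)) (r * exp (θ * I)) := by
  have hm : Measurable fun r : ℝ => (r : ℂ) * exp (θ * I) :=
    Complex.measurable_ofReal.mul_const _
  have hS : MeasurableSet {r : ℝ | 0 < r ∧ (r : ℂ) * exp (θ * I) ∈ EE f lo hi} :=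
    measurableSet_Ioi.inter (hm (SumJ_EE hf lo hi))
  unfold JR
  refine (setLIntegral_mono' hS fun r hr => ?_).trans (lintegral_mono_set fun r hr => hr.1)
  have h1 : ‖(r : ℂ) * exp (θ * I)‖ = r := by
    rw [norm_mul, Complex.norm_exp_ofReal_mul_I, mul_one, Complex.norm_real, Real.norm_eq_abs,
      abs_of_pos hr.1]
  rw [indicator_of_mem hr.2, h1, ← ENNReal.ofReal_mul hr.1.le, hψ _ hr.2.1, mul_comm r,
    mul_assoc, inv_mul_cancel₀ hr.1.ne', mul_one]

/-- the pointwise estimate of one piece -/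
private theorem SumJ_point {v d x s K : ℝ} (hv : 0 ≤ v) (hd : 0 < d) (hx : 1 / 8 ≤ x) (hK : 0 < K)
    (hs : 0 < s) (hs1 : s < 1) (h : d / (9 * x) ≤ 2 * K⁻¹) :
    K ^ (1 - s) * (v * x⁻¹) ≤ 18 ^ (1 - s) * 8 ^ s * (v * d ^ (s - 1)) := by
  have hx0 : 0 < x := by linarith
  have h1 : K ≤ 18 * x * d⁻¹ := by
    rw [← div_eq_mul_inv, le_div_iff₀ hd]
    rw [← div_eq_mul_inv, div_le_div_iff₀ (by positivity) hK] at h
    linarith
  have h2 : K ^ (1 - s) ≤ 18 ^ (1 - s) * x ^ (1 - s) * d ^ (s - 1) := by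
    calc K ^ (1 - s) ≤ (18 * x * d⁻¹) ^ (1 - s) :=
          Real.rpow_le_rpow hK.le h1 (by linarith)
      _ = 18 ^ (1 - s) * x ^ (1 - s) * d ^ (s - 1) := by
          rw [Real.mul_rpow (by positivity) (by positivity), Real.mul_rpow (by norm_num) hx0.le,
            Real.inv_rpow hd.le, ← Real.rpow_neg hd.le]
          congr 2
          ring
  have h3 : x ^ (1 - s) * x⁻¹ ≤ 8 ^ s := by
    have h4 : x ^ (1 - s) * x⁻¹ = (x⁻¹) ^ s := by
      rw [Real.inv_rpow hx0.le, ← Real.rpow_neg hx0.le, ← Real.rpow_neg_one x,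
        ← Real.rpow_add hx0]
      congr 1
      ring
    rw [h4]
    refine Real.rpow_le_rpow (by positivity) ?_ hs.le
    rw [inv_le_comm₀ hx0 (by norm_num)]
    linarith
  calc K ^ (1 - s) * (v * x⁻¹)
      ≤ 18 ^ (1 - s) * x ^ (1 - s) * d ^ (s - 1) * (v * x⁻¹) := by gcongr
    _ = 18 ^ (1 - s) * (x ^ (1 - s) * x⁻¹) * (v * d ^ (s - 1)) := by ring
    _ ≤ 18 ^ (1 - s) * 8 ^ s * (v * d ^ (s - 1)) := by gcongr

/-- the pointwise estimate of the sum -/
private theorem SumJ_sum (hf : Schl f) (hF : ∀ z ∈ ball (0 : ℂ) 1, F (f z) = z) {p s : ℝ}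
    {ψ : ℂ → ℝ} (hψ : ∀ w ∈ f '' ball 0 1, ψ w = (oo F w / dd f w) ^ p) (hs : 0 < s)
    (hs1 : s < 1) (w : ℂ) :
    ∑' k : ℕ, ENNReal.ofReal ((2 : ℝ) ^ ((k : ℝ) * (1 - s))) *
      (EE f ((1 / 2) ^ (k + 2)) (2 * (1 / 2) ^ k)).indicator
        (fun w => ENNReal.ofReal (ψ w * ‖w‖⁻¹)) w ≤
      {w : ℂ | w ∈ f '' ball 0 1 ∧ 1 / 8 ≤ ‖w‖}.indicator (fun w =>
        3 * (ENNReal.ofReal (18 ^ (1 - s) * 8 ^ s) *
          ENNReal.ofReal ((oo F w / dd f w) ^ p * dd f w ^ (s - 1)))) w := by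
  classical
  by_cases hex : ∃ k : ℕ, w ∈ EE f ((1 / 2) ^ (k + 2)) (2 * (1 / 2) ^ k)
  · obtain ⟨k0, hk0, hmin⟩ : ∃ k : ℕ, w ∈ EE f ((1 / 2) ^ (k + 2)) (2 * (1 / 2) ^ k) ∧
        ∀ l < k, w ∉ EE f ((1 / 2) ^ (l + 2)) (2 * (1 / 2) ^ l) :=
      ⟨Nat.find hex, Nat.find_spec hex, fun l hl => Nat.find_min hex hl⟩
    have hlarge : ∀ l, k0 + 3 ≤ l → w ∉ EE f ((1 / 2) ^ (l + 2)) (2 * (1 / 2) ^ l) := by
      intro l hl hwl
      have h1 := hk0.2.2.1
      have h2 := hwl.2.2.2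
      have h3 : (2 : ℝ) * (1 / 2) ^ l ≤ (1 / 2) ^ (k0 + 2) := by
        have h4 : ((1 : ℝ) / 2) ^ l ≤ (1 / 2) ^ (k0 + 3) :=
          pow_le_pow_of_le_one (by norm_num) (by norm_num) hl
        have h5 : ((1 : ℝ) / 2) ^ (k0 + 3) = (1 / 2) ^ (k0 + 2) * (1 / 2) := pow_succ _ _
        linarith
      linarith
    have hwU := hk0.1
    have hw8 := hk0.2.1
    rw [indicator_of_mem (show w ∈ {w : ℂ | w ∈ f '' ball 0 1 ∧ 1 / 8 ≤ ‖w‖} from ⟨hwU, hw8⟩),
      tsum_eq_sum (s := Finset.Ico k0 (k0 + 3))]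
    · have hterm : ∀ k ∈ Finset.Ico k0 (k0 + 3),
          ENNReal.ofReal ((2 : ℝ) ^ ((k : ℝ) * (1 - s))) *
          (EE f ((1 / 2) ^ (k + 2)) (2 * (1 / 2) ^ k)).indicator
            (fun w => ENNReal.ofReal (ψ w * ‖w‖⁻¹)) w ≤
          ENNReal.ofReal (18 ^ (1 - s) * 8 ^ s) *
            ENNReal.ofReal ((oo F w / dd f w) ^ p * dd f w ^ (s - 1)) := by
        intro k _
        by_cases hk : w ∈ EE f ((1 / 2) ^ (k + 2)) (2 * (1 / 2) ^ k)
        · rw [indicator_of_mem hk, ← ENNReal.ofReal_mul (by positivity),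
            ← ENNReal.ofReal_mul (by positivity)]
          refine ENNReal.ofReal_le_ofReal ?_
          rw [hψ w hwU, Real.rpow_mul (by norm_num), Real.rpow_natCast]
          refine SumJ_point (Real.rpow_nonneg (div_pos (oo_pos hf hF hwU).1 (dd_pos hf hwU)).le _)
            (dd_pos hf hwU) hw8 (by positivity) hs hs1 ?_
          have h1 := hk.2.2.2
          rw [one_div, inv_pow] at h1
          exact h1
        · rw [indicator_of_notMem hk, mul_zero]
          exact zero_le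
      refine (Finset.sum_le_sum hterm).trans (le_of_eq ?_)
      rw [Finset.sum_const, Nat.card_Ico, Nat.add_sub_cancel_left, nsmul_eq_mul]
      norm_num
    · intro k hk
      have h1 : w ∉ EE f ((1 / 2) ^ (k + 2)) (2 * (1 / 2) ^ k) := by
        rw [Finset.mem_Ico] at hk
        by_cases h2 : k < k0
        · exact hmin k h2
        · exact hlarge k (by omega)
      rw [indicator_of_notMem h1, mul_zero]
  · push Not at hex
    have h1 : ∀ k : ℕ, ENNReal.ofReal ((2 : ℝ) ^ ((k : ℝ) * (1 - s))) *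
      (EE f ((1 / 2) ^ (k + 2)) (2 * (1 / 2) ^ k)).indicator
        (fun w => ENNReal.ofReal (ψ w * ‖w‖⁻¹)) w = 0 := by
      intro k
      rw [indicator_of_notMem (hex k), mul_zero]
    simp only [h1, tsum_zero]
    exact zero_le

theorem sum_JS' {f F : ℂ → ℂ} (hf : Schl f) (hF : ∀ z ∈ ball (0 : ℂ) 1, F (f z) = z) {p s : ℝ}
    (hint : ∫⁻ w in f '' ball 0 1,
      ENNReal.ofReal ((oo F w / dd f w) ^ p * dd f w ^ (s - 1)) < ⊤)
    (hs : 0 < s) (hs1 : s < 1) (a b : ℝ) :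
    ∑' k : ℕ, ENNReal.ofReal ((2 : ℝ) ^ ((k : ℝ) * (1 - s))) *
      ∫⁻ φ in Icc a b, JS p f F k φ < ⊤ := by
  obtain ⟨ψ, hψm, hψ⟩ := SumJ_psi hf hF p
  obtain ⟨N, hN⟩ := polC a b
  obtain ⟨g, hg⟩ : ∃ g : ℕ → ℂ → ℝ≥0∞, g = fun k =>
    (EE f ((1 / 2) ^ (k + 2)) (2 * (1 / 2) ^ k)).indicator
        (fun w => ENNReal.ofReal (ψ w * ‖w‖⁻¹)) := ⟨_, rfl⟩
  have hgm : ∀ k, Measurable (g k) := by
    intro k
    rw [hg]
    exact (ENNReal.measurable_ofReal.comp (hψm.mul measurable_norm.inv)).indicator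
      (SumJ_EE hf _ _)
  have h3 : ∀ k, ∫⁻ φ in Icc a b, JS p f F k φ ≤ N * ∫⁻ w, g k w := by
    intro k
    refine le_trans (lintegral_mono fun φ => ?_) (hN (g k) (hgm k))
    rw [hg]
    exact SumJ_ray hf _ _ φ hψ
  have hA : MeasurableSet {w : ℂ | w ∈ f '' ball 0 1 ∧ 1 / 8 ≤ ‖w‖} :=
    (isOpen_im isOpen_ball hf.diff hf.inj).measurableSet.inter
      (measurableSet_le measurable_const measurable_norm)
  calc ∑' k : ℕ, ENNReal.ofReal ((2 : ℝ) ^ ((k : ℝ) * (1 - s))) * ∫⁻ φ in Icc a b, JS p f F k φ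
      ≤ ∑' k : ℕ, N * ∫⁻ w, ENNReal.ofReal ((2 : ℝ) ^ ((k : ℝ) * (1 - s))) * g k w := by
        refine ENNReal.tsum_le_tsum fun k => ?_
        rw [lintegral_const_mul _ (hgm k), mul_left_comm]
        gcongr
        exact h3 k
    _ = N * ∫⁻ w, ∑' k : ℕ, ENNReal.ofReal ((2 : ℝ) ^ ((k : ℝ) * (1 - s))) * g k w := by
        rw [ENNReal.tsum_mul_left, lintegral_tsum fun k => ((hgm k).const_mul _).aemeasurable]
    _ ≤ N * ∫⁻ w, {w : ℂ | w ∈ f '' ball 0 1 ∧ 1 / 8 ≤ ‖w‖}.indicator (fun w =>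
        3 * (ENNReal.ofReal (18 ^ (1 - s) * 8 ^ s) *
          ENNReal.ofReal ((oo F w / dd f w) ^ p * dd f w ^ (s - 1)))) w := by
        gcongr with w
        rw [hg]
        exact SumJ_sum hf hF hψ hs hs1 w
    _ < ⊤ := by
        rw [lintegral_indicator hA, lintegral_const_mul' _ _ (by norm_num),
          lintegral_const_mul' _ _ ENNReal.ofReal_ne_top]
        exact ENNReal.mul_lt_top (ENNReal.natCast_lt_top N)
          (ENNReal.mul_lt_top (by norm_num)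
            (ENNReal.mul_lt_top ENNReal.ofReal_lt_top (lt_of_le_of_lt (lintegral_mono_set fun w hw => hw.1) hint)))

end Pool.Agent.H.MP_215299_an.KE
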