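import Pool.Agent.H.MP_215299_an.KE.Hint
import Pool.Agent.H.MP_215299_an.KE.SumJ
import Pool.Agent.H.MP_215299_an.KE.Rot
import Pool.Agent.H.MP_215299_an.KE.Base
import Pool.Agent.H.MP_215299_an.KD.JA
import Pool.Agent.H.MP_215299_an.KD.JC
import Pool.Agent.H.MP_215299_an.KD.Dyad

/-!
# KE/MainA: the lines through a point of the domain

`dirs0`: as `H65K.exceptional_directions` in KD/Main, with `hint`, `sum_JS'`. `dirs`: `base`, and the dimension of a translate
(`IsometryEquiv.addRight`, `IsometryEquiv.dimH_preimage`).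
-/

set_option autoImplicit false

open Complex Metric Set MeasureTheory Filter Topology
open scoped ENNReal

namespace Pool.Agent.H.MP_215299_an.KE

open H65K

theorem dirs0 {f F : ℂ → ℂ} (hf : Schl f) (hF : ∀ z ∈ ball (0 : ℂ) 1, F (f z) = z) {p : ℝ}
    (hp : 1 < p) (hp2 : p < (7 + √7) / 3) :
    dimH {θ : ℝ | LI p f F 0 (exp (θ * I)) = ⊤} ≤ ENNReal.ofReal (sst p) := by
  have hst0 := sst_pos hp
  have hst1 := sst_lt hp
  have hst2 := sst_lt_one hp hp2
  -- the bound for every larger exponent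
  have key : ∀ s : ℝ, sst p < s → s < p - 1 → s < 1 →
      dimH {θ : ℝ | LI p f F 0 (exp (θ * I)) = ⊤} ≤ ENNReal.ofReal s := by
    intro s hs1 hs2 hs3
    have hs0 : 0 < s := by linarith
    have h1 : dimH {θ : ℝ | ∑' k : ℕ, H65K.JJ p f F k θ = ⊤} ≤ ENNReal.ofReal s :=
      dyad (Js := H65K.JS p f F) (C := ENNReal.ofReal ((5 / 2) ^ p)) hs0 hs3 ENNReal.ofReal_ne_top
        (fun k θ φ h => JJ_le_JS hf hF (by linarith) k h)
        (fun a b => sum_JS' hf hF (hint hf hF hp hs1 hs2 hs3) hs0 hs3 a b)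
    have h2 : dimH ((IsometryEquiv.addRight Real.pi) ⁻¹' {θ : ℝ | ∑' k : ℕ, H65K.JJ p f F k θ = ⊤}) ≤
        ENNReal.ofReal s := by
      rw [IsometryEquiv.dimH_preimage]
      exact h1
    refine (dimH_mono (t := {θ : ℝ | ∑' k : ℕ, H65K.JJ p f F k θ = ⊤} ∪
      ((IsometryEquiv.addRight Real.pi) ⁻¹' {θ : ℝ | ∑' k : ℕ, H65K.JJ p f F k θ = ⊤})) ?_).trans ?_
    · intro θ hθ
      refine Ip_rot hf hF (by linarith) θ ?_
      rw [Ip_eq]
      exact hθ
    · rw [dimH_union]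
      exact max_le h1 h2
  refine ENNReal.le_of_forall_pos_le_add ?_
  intro ε hε _
  have hε' : 0 < (ε : ℝ) := hε
  obtain ⟨s, hs⟩ : ∃ s, s = min (sst p + ε) ((sst p + min (p - 1) 1) / 2) := ⟨_, rfl⟩
  have hm : sst p < min (p - 1) 1 := lt_min hst1 hst2
  have hm1 : min (p - 1) 1 ≤ p - 1 := min_le_left _ _
  have hm2 : min (p - 1) 1 ≤ 1 := min_le_right _ _
  have hs1 : sst p < s := by
    rw [hs]
    exact lt_min (by linarith) (by linarith)
  have hs2 : s ≤ (sst p + min (p - 1) 1) / 2 := by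
    rw [hs]
    exact min_le_right _ _
  have hs3 : s ≤ sst p + ε := by
    rw [hs]
    exact min_le_left _ _
  refine (key s hs1 (by linarith) (by linarith)).trans ?_
  refine (ENNReal.ofReal_le_ofReal hs3).trans ?_
  rw [ENNReal.ofReal_add hst0.le hε'.le, ENNReal.ofReal_coe_nnreal]

theorem dirs {f F : ℂ → ℂ} (hf : Schl f) (hF : ∀ z ∈ ball (0 : ℂ) 1, F (f z) = z) {p : ℝ}
    (hp : 1 < p) (hp2 : p < (7 + √7) / 3) {a : ℂ} (ha : a ∈ f '' ball 0 1) :
    dimH {θ : ℝ | LI p f F a (exp (θ * I)) = ⊤} ≤ ENNReal.ofReal (sst p) := by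
  obtain ⟨h, G, α, hh, hG, himp⟩ := base hf hF ha (p := p) (by linarith)
  refine (dimH_mono (t := (IsometryEquiv.addRight (-α)) ⁻¹'
    {θ : ℝ | LI p h G 0 (exp (θ * I)) = ⊤}) ?_).trans ?_
  · intro θ hθ
    exact himp θ hθ
  · rw [IsometryEquiv.dimH_preimage]
    exact dirs0 hh hG hp hp2

end Pool.Agent.H.MP_215299_an.KE
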