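import Pool.Agent.H.MP_215299_an.KE.PDef
import Pool.Agent.H.MP_215299_an.KD.Harn

/-!
# KE/PJle: comparison of the pieces for neighbouring horizontal lines

PROOF: as `H65K.JJ_le_JS` in KD/JA (simpler): `w = x + y I ∈ EP f (2^-k) (2 · 2^-k)`, `w' = x + y' I`,
`|w' - w| = |y' - y| ≤ 2^-k ≤ dd f w / 4`; by `harn` `3/4 dd f w ≤ dd f w' ≤ 5/4 dd f w`, `oo F w ≤ 2 oo F w'`, so
`w' ∈ EP f (2^-(k+1)) (4 · 2^-k)` and `oo F w / dd f w ≤ (5/2) oo F w' / dd f w'`.
-/

set_option autoImplicit false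

open Complex Metric Set MeasureTheory Filter Topology
open scoped ENNReal

namespace Pool.Agent.H.MP_215299_an.KE

open H65K

private theorem PJle_meas {f : ℂ → ℂ} (hf : Schl f) (lo hi y : ℝ) :
    MeasurableSet {x : ℝ | (x : ℂ) + y * I ∈ EP f lo hi} := by
  have h1 : MeasurableSet (f '' ball 0 1) := (isOpen_im isOpen_ball hf.diff hf.inj).measurableSet
  have h2 : Measurable fun w : ℂ => dd f w / 4 := measurable_infDist.div_const 4
  have h3 : MeasurableSet (EP f lo hi) := by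
    have h4 : EP f lo hi = f '' ball 0 1 ∩
        ({w | lo < dd f w / 4} ∩ {w | dd f w / 4 ≤ hi}) := rfl
    rw [h4]
    exact h1.inter ((measurableSet_lt measurable_const h2).inter
      (measurableSet_le h2 measurable_const))
  have h5 : Measurable fun x : ℝ => (x : ℂ) + y * I := by fun_prop
  exact h5 h3

theorem PJ_le_PS {f F : ℂ → ℂ} (hf : Schl f) (hF : ∀ z ∈ ball (0 : ℂ) 1, F (f z) = z) {p : ℝ}
    (hp : 0 ≤ p) (k : ℕ) {y y' : ℝ} (h : |y' - y| ≤ (1 / 2) ^ k) :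
    PJ p f F k y ≤ ENNReal.ofReal ((5 / 2) ^ p) * PS p f F k y' := by
  have hk : (0 : ℝ) < (1 / 2) ^ k := by positivity
  have key : ∀ x : ℝ, (x : ℂ) + y * I ∈ EP f ((1 / 2) ^ k) (2 * (1 / 2) ^ k) →
      (x : ℂ) + y' * I ∈ EP f ((1 / 2) ^ (k + 1)) (4 * (1 / 2) ^ k) ∧
      oo F (x + y * I) / dd f (x + y * I) ≤
        5 / 2 * (oo F (x + y' * I) / dd f (x + y' * I)) := by
    intro x hw
    obtain ⟨h1, h3, h4⟩ := hw
    have hrot : ‖((x : ℂ) + y' * I) - (x + y * I)‖ ≤ (1 / 2) ^ k := by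
      have e : ((x : ℂ) + y' * I) - (x + y * I) = ((y' - y : ℝ) : ℂ) * I := by
        push_cast
        ring
      rw [e, norm_mul, Complex.norm_I, mul_one, Complex.norm_real, Real.norm_eq_abs]
      exact h
    generalize (x : ℂ) + y * I = w at *
    generalize (x : ℂ) + y' * I = w' at *
    obtain ⟨g1, g2, g3, g4⟩ := harn hf hF h1 (hrot.trans h3.le)
    have hd : 0 < dd f w := dd_pos hf h1
    have hd' : 0 < dd f w' := dd_pos hf g1
    have ho' : 0 < oo F w' := (oo_pos hf hF g1).1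
    refine ⟨⟨g1, ?_, ?_⟩, ?_⟩
    · rw [pow_succ]
      linarith
    · linarith
    · rw [div_le_iff₀ hd, ← mul_div_assoc, div_mul_eq_mul_div, le_div_iff₀ hd']
      nlinarith
  unfold PJ PS PR
  have hA := PJle_meas hf ((1 / 2) ^ k) (2 * (1 / 2) ^ k) y
  have hsub : {x : ℝ | (x : ℂ) + y * I ∈ EP f ((1 / 2) ^ k) (2 * (1 / 2) ^ k)} ⊆
      {x : ℝ | (x : ℂ) + y' * I ∈ EP f ((1 / 2) ^ (k + 1)) (4 * (1 / 2) ^ k)} :=
    fun x hx => (key x hx).1
  rw [← lintegral_const_mul' _ _ ENNReal.ofReal_ne_top]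
  refine (setLIntegral_mono' hA fun x hx => ?_).trans (lintegral_mono_set hsub)
  obtain ⟨k1, k2⟩ := key x hx
  have hd : 0 < dd f (x + y * I) := dd_pos hf hx.1
  have ho : 0 < oo F (x + y * I) := (oo_pos hf hF hx.1).1
  have hd' : 0 < dd f (x + y' * I) := dd_pos hf k1.1
  have ho' : 0 < oo F (x + y' * I) := (oo_pos hf hF k1.1).1
  rw [← ENNReal.ofReal_mul (by positivity), ← Real.mul_rpow (by norm_num) (by positivity)]
  exact ENNReal.ofReal_le_ofReal (Real.rpow_le_rpow (by positivity) k2 hp)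

end Pool.Agent.H.MP_215299_an.KE
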