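import Pool.Agent.H.MP_215299_an.KE.PDef
import Pool.Agent.H.MP_215299_an.KE.HWl
import Pool.Agent.H.MP_215299_an.KD.Geo

/-!
# KE/Split: decomposition of the integral along a horizontal line

PROOF: `{t | t + y I ∈ f '' ball 0 1} = {dd > 8} ∪ ⋃_k {t | t + y I ∈ EP f (2^-k) (2 · 2^-k)}` (`dd_pos`). On the first set
`|F'| ≤ oo F / dd f ≤ 1 / 8` (`geoA`, `oo_pos`), so `|F'|^p ≤ |F'|` and the integral is finite by `hw_lines`; on the others
`|F'|^p ≤ (oo F / dd f)^p` (`geoA`). `lintegral_iUnion_le` (the sets are measurable: `dd f` is continuous, `f '' ball 0 1` is open,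
`isOpen_im`).
-/

set_option autoImplicit false

open Complex Metric Set MeasureTheory Filter Topology
open scoped ENNReal

namespace Pool.Agent.H.MP_215299_an.KE

open H65K

private theorem Split_cont (f : ℂ → ℂ) (y : ℝ) : Continuous fun t : ℝ => dd f ((t : ℂ) + y * I) := by
  unfold dd
  exact (continuous_infDist_pt _).comp (by fun_prop)

private theorem Split_meas {f : ℂ → ℂ} (hf : Schl f) (y : ℝ) :
    MeasurableSet {t : ℝ | (t : ℂ) + y * I ∈ f '' ball 0 1} := by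
  have h1 : IsOpen (f '' ball 0 1) := isOpen_im isOpen_ball hf.diff hf.inj
  exact (h1.preimage (f := fun t : ℝ => (t : ℂ) + y * I) (by fun_prop)).measurableSet

theorem LI_split {f F : ℂ → ℂ} (hf : Schl f) (hF : ∀ z ∈ ball (0 : ℂ) 1, F (f z) = z) {p : ℝ}
    (hp : 1 ≤ p) (y : ℝ) (h : LI p f F (y * I) 1 = ⊤) : ∑' k : ℕ, PJ p f F k y = ⊤ := by
  by_contra hcon
  have e : ∀ t : ℝ, (y : ℂ) * I + t * 1 = t + y * I := fun t => by ring
  have hc := Split_cont f y
  have hm := Split_meas hf y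
  set A : Set ℝ := {t : ℝ | (t : ℂ) + y * I ∈ f '' ball 0 1} with hA
  set A0 : Set ℝ := A ∩ {t : ℝ | 8 < dd f ((t : ℂ) + y * I)} with hA0
  set Ak : ℕ → Set ℝ := fun k =>
    {x : ℝ | (x : ℂ) + y * I ∈ EP f ((1 / 2) ^ k) (2 * (1 / 2) ^ k)} with hAk
  have hm0 : MeasurableSet A0 := hm.inter (measurableSet_lt measurable_const hc.measurable)
  have hmk : ∀ k, MeasurableSet (Ak k) := by
    intro k
    have h1 : Ak k = A ∩ ({t : ℝ | (1 / 2 : ℝ) ^ k < dd f ((t : ℂ) + y * I) / 4} ∩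
        {t : ℝ | dd f ((t : ℂ) + y * I) / 4 ≤ 2 * (1 / 2) ^ k}) := by
      ext t
      simp only [hAk, EP, hA, mem_setOf_eq, mem_inter_iff]
    rw [h1]
    exact hm.inter ((measurableSet_lt measurable_const (hc.measurable.div_const 4)).inter
      (measurableSet_le (hc.measurable.div_const 4) measurable_const))
  have hsub : A ⊆ A0 ∪ ⋃ k, Ak k := by
    intro t ht
    by_cases h8 : 8 < dd f ((t : ℂ) + y * I)
    · exact Or.inl ⟨ht, h8⟩
    · right
      have hd := dd_pos hf ht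
      obtain ⟨n, hn1, hn2⟩ := exists_nat_pow_near_of_lt_one (x := dd f ((t : ℂ) + y * I) / 8)
        (y := (1 / 2 : ℝ)) (by positivity) (by linarith) (by norm_num) (by norm_num)
      rw [mem_iUnion]
      refine ⟨n, ht, ?_, ?_⟩
      · rw [pow_succ] at hn1
        linarith
      · linarith
  have hgA : LI p f F (y * I) 1 =
      ∫⁻ t in A, ENNReal.ofReal (‖deriv F ((t : ℂ) + y * I)‖ ^ p) := by
    unfold LI
    simp only [e]
    rfl
  have h0 : ∫⁻ t in A0, ENNReal.ofReal (‖deriv F ((t : ℂ) + y * I)‖ ^ p) ≤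
      ENNReal.ofReal 400000 := by
    have hU : Pool.Agent.H.MP_215299_an.CC.Uni f F := ⟨hf.diff, hf.inj, hF⟩
    have h1 := hw_lines hU (a := (y : ℂ) * I) (u := 1) norm_one
    refine le_trans ?_ h1
    simp only [e]
    refine le_trans (setLIntegral_mono' hm0 (g := fun t : ℝ =>
      ENNReal.ofReal ‖deriv F ((t : ℂ) + y * I)‖) ?_) (lintegral_mono_set ?_)
    · intro t ht
      apply ENNReal.ofReal_le_ofReal
      have h2 := geoA hf hF ht.1
      have h3 := (oo_pos hf hF ht.1).2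
      have h4 : (8 : ℝ) < dd f ((t : ℂ) + y * I) := ht.2
      have h5 : oo F ((t : ℂ) + y * I) / dd f ((t : ℂ) + y * I) ≤ 1 := by
        rw [div_le_one (by linarith)]
        linarith
      calc ‖deriv F ((t : ℂ) + y * I)‖ ^ p ≤ ‖deriv F ((t : ℂ) + y * I)‖ ^ (1 : ℝ) :=
            Real.rpow_le_rpow_of_exponent_ge' (norm_nonneg _) (h2.trans h5) zero_le_one hp
        _ = ‖deriv F ((t : ℂ) + y * I)‖ := Real.rpow_one _
    · intro t ht
      exact ht.1
  have hk : ∀ k, ∫⁻ t in Ak k, ENNReal.ofReal (‖deriv F ((t : ℂ) + y * I)‖ ^ p) ≤ PJ p f F k y := by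
    intro k
    unfold PJ PR
    refine setLIntegral_mono' (hmk k) fun t ht => ENNReal.ofReal_le_ofReal ?_
    exact Real.rpow_le_rpow (norm_nonneg _) (geoA hf hF ht.1) (by linarith)
  have hfin : LI p f F (y * I) 1 ≤ ENNReal.ofReal 400000 + ∑' k : ℕ, PJ p f F k y := by
    rw [hgA]
    calc ∫⁻ t in A, ENNReal.ofReal (‖deriv F ((t : ℂ) + y * I)‖ ^ p)
        ≤ ∫⁻ t in A0 ∪ ⋃ k, Ak k, ENNReal.ofReal (‖deriv F ((t : ℂ) + y * I)‖ ^ p) :=
          lintegral_mono_set hsub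
      _ ≤ (∫⁻ t in A0, ENNReal.ofReal (‖deriv F ((t : ℂ) + y * I)‖ ^ p)) +
          ∫⁻ t in ⋃ k, Ak k, ENNReal.ofReal (‖deriv F ((t : ℂ) + y * I)‖ ^ p) :=
          lintegral_union_le _ _ _
      _ ≤ ENNReal.ofReal 400000 + ∑' k : ℕ, PJ p f F k y := by
          refine add_le_add h0 ((lintegral_iUnion_le _ _).trans (ENNReal.tsum_le_tsum hk))
  rw [h, top_le_iff] at hfin
  exact ENNReal.add_ne_top.2 ⟨ENNReal.ofReal_ne_top, hcon⟩ hfin

end Pool.Agent.H.MP_215299_an.KE
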