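import Pool.Agent.H.MP_215299_an.KE.PDef
import Pool.Agent.H.MP_215299_an.KD.Geo
import Pool.Agent.H.MP_215299_an.KD.Ne

/-!
# KE/SumP: the sum of the integrals of the enlarged pieces, horizontal lines

PROOF: as `H65K.sum_JS` in KD/JB, with Cartesian coordinates in place of polar ones: for measurable `g ≥ 0`
`∫⁻ y in Icc a b, ∫⁻ x, g (x + y I) ≤ ∫⁻ w, g w` (`Complex.volume_preserving_equiv_real_prod`, Tonelli,
`lintegral_prod_symm`). On `EP f (2^-(k+1)) (4 · 2^-k)`: `2^k ≤ 16 / dd f w`, so `2^(k (1 - s)) ≤ 16^(1-s) (dd f w)^(s-1)`, and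
every `w` is in at most three of these sets (`2^-(k+1) < dd f w / 4 ≤ 2^(2-k)`).
-/

set_option autoImplicit false

open Complex Metric Set MeasureTheory Filter Topology
open scoped ENNReal

namespace Pool.Agent.H.MP_215299_an.KE

open H65K

private theorem SumP_dd (f : ℂ → ℂ) : Measurable (dd f) := by
  unfold dd
  exact (Metric.continuous_infDist_pt _).measurable

private theorem SumP_EP {f : ℂ → ℂ} (hf : Schl f) (lo hi : ℝ) : MeasurableSet (EP f lo hi) := by
  have h1 : MeasurableSet (f '' ball 0 1) := (isOpen_im isOpen_ball hf.diff hf.inj).measurableSet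
  have h2 : Measurable fun w : ℂ => dd f w / 4 := (SumP_dd f).div_const 4
  have h3 : EP f lo hi = f '' ball 0 1 ∩ ({w | lo < dd f w / 4} ∩ {w | dd f w / 4 ≤ hi}) := rfl
  rw [h3]
  exact h1.inter ((measurableSet_lt measurable_const h2).inter
    (measurableSet_le h2 measurable_const))

private theorem SumP_psi {f F : ℂ → ℂ} (hf : Schl f) (hF : ∀ z ∈ ball (0 : ℂ) 1, F (f z) = z)
    (p : ℝ) : ∃ ψ : ℂ → ℝ, Measurable ψ ∧ ∀ w ∈ f '' ball 0 1, ψ w = (oo F w / dd f w) ^ p := by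
  classical
  have hU : IsOpen (f '' ball 0 1) := isOpen_im isOpen_ball hf.diff hf.inj
  have hFd : DifferentiableOn ℂ F (f '' ball 0 1) := diff_inv isOpen_ball hf.diff hf.inj hF
  have hc : ContinuousOn (fun w => (oo F w / dd f w) ^ p) (f '' ball 0 1) := by
    have h1 : ContinuousOn (oo F) (f '' ball 0 1) := by
      unfold oo
      exact continuousOn_const.sub (hFd.continuousOn.norm.pow 2)
    have h2 : ContinuousOn (dd f) (f '' ball 0 1) := by
      unfold dd
      exact (Metric.continuous_infDist_pt _).continuousOn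
    refine ContinuousOn.rpow_const (h1.div h2 fun w hw => (dd_pos hf hw).ne') fun w hw => ?_
    exact Or.inl (div_pos (oo_pos hf hF hw).1 (dd_pos hf hw)).ne'
  refine ⟨(f '' ball 0 1).piecewise (fun w => (oo F w / dd f w) ^ p) (fun _ => 0),
    hc.measurable_piecewise continuousOn_const hU.measurableSet, fun w hw => ?_⟩
  exact Set.piecewise_eq_of_mem _ _ _ hw

/-- Tonelli, Cartesian coordinates -/
private theorem SumP_ton {g : ℂ → ℝ≥0∞} (hg : Measurable g) (a b : ℝ) :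
    ∫⁻ y in Icc a b, ∫⁻ x : ℝ, g ((x : ℂ) + (y : ℂ) * I) ≤ ∫⁻ w, g w := by
  have h1 : ∫⁻ w, g w = ∫⁻ z : ℝ × ℝ, g ((z.1 : ℂ) + (z.2 : ℂ) * I) := by
    have h2 := (Complex.volume_preserving_equiv_real_prod.symm).lintegral_comp hg
    rw [← h2]
    refine lintegral_congr fun z => ?_
    congr 1
    exact Complex.mk_eq_add_mul_I _ _
  have hm : Measurable fun z : ℝ × ℝ => g ((z.1 : ℂ) + (z.2 : ℂ) * I) := by
    fun_prop
  rw [h1, Measure.volume_eq_prod, lintegral_prod_symm _ hm.aemeasurable]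
  exact setLIntegral_le_lintegral _ _

/-- the integrand of a piece -/
private theorem SumP_line {f F : ℂ → ℂ} (hf : Schl f) {p : ℝ} {ψ : ℂ → ℝ} (lo hi y : ℝ)
    (hψ : ∀ w ∈ f '' ball 0 1, ψ w = (oo F w / dd f w) ^ p) :
    PR p f F lo hi y ≤ ∫⁻ x : ℝ,
      (EP f lo hi).indicator (fun w => ENNReal.ofReal (ψ w)) ((x : ℂ) + (y : ℂ) * I) := by
  have hm : Measurable fun x : ℝ => (x : ℂ) + (y : ℂ) * I :=
    Complex.measurable_ofReal.add_const _
  have hS : MeasurableSet {x : ℝ | (x : ℂ) + (y : ℂ) * I ∈ EP f lo hi} := hm (SumP_EP hf lo hi)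
  unfold PR
  refine (setLIntegral_mono' hS fun x hx => ?_).trans (setLIntegral_le_lintegral _ _)
  have hx' : (x : ℂ) + (y : ℂ) * I ∈ EP f lo hi := hx
  rw [indicator_of_mem hx', hψ _ hx'.1]

/-- the pointwise estimate of one piece -/
private theorem SumP_point {v d s K : ℝ} (hv : 0 ≤ v) (hd : 0 < d) (hK : 0 < K)
    (hs1 : s < 1) (h : d / 4 ≤ 4 * K⁻¹) :
    K ^ (1 - s) * v ≤ 16 ^ (1 - s) * (v * d ^ (s - 1)) := by
  have h1 : K ≤ 16 * d⁻¹ := by
    rw [← div_eq_mul_inv, le_div_iff₀ hd]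
    rw [← div_eq_mul_inv, div_le_div_iff₀ (by positivity) hK] at h
    linarith
  have h2 : K ^ (1 - s) ≤ 16 ^ (1 - s) * d ^ (s - 1) := by
    calc K ^ (1 - s) ≤ (16 * d⁻¹) ^ (1 - s) := Real.rpow_le_rpow hK.le h1 (by linarith)
      _ = 16 ^ (1 - s) * d ^ (s - 1) := by
          rw [Real.mul_rpow (by norm_num) (by positivity), Real.inv_rpow hd.le,
            ← Real.rpow_neg hd.le]
          congr 2
          ring
  calc K ^ (1 - s) * v ≤ 16 ^ (1 - s) * d ^ (s - 1) * v := by gcongr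
    _ = 16 ^ (1 - s) * (v * d ^ (s - 1)) := by ring

/-- the pointwise estimate of the sum -/
private theorem SumP_sum {f F : ℂ → ℂ} (hf : Schl f)
    (hF : ∀ z ∈ ball (0 : ℂ) 1, F (f z) = z) {p s : ℝ}
    {ψ : ℂ → ℝ} (hψ : ∀ w ∈ f '' ball 0 1, ψ w = (oo F w / dd f w) ^ p)
    (hs1 : s < 1) (w : ℂ) :
    ∑' k : ℕ, ENNReal.ofReal ((2 : ℝ) ^ ((k : ℝ) * (1 - s))) *
      (EP f ((1 / 2) ^ (k + 1)) (4 * (1 / 2) ^ k)).indicator
        (fun w => ENNReal.ofReal (ψ w)) w ≤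
      (f '' ball 0 1).indicator (fun w =>
        3 * (ENNReal.ofReal (16 ^ (1 - s)) *
          ENNReal.ofReal ((oo F w / dd f w) ^ p * dd f w ^ (s - 1)))) w := by
  classical
  by_cases hex : ∃ k : ℕ, w ∈ EP f ((1 / 2) ^ (k + 1)) (4 * (1 / 2) ^ k)
  · obtain ⟨k0, hk0, hmin⟩ : ∃ k : ℕ, w ∈ EP f ((1 / 2) ^ (k + 1)) (4 * (1 / 2) ^ k) ∧
        ∀ l < k, w ∉ EP f ((1 / 2) ^ (l + 1)) (4 * (1 / 2) ^ l) :=
      ⟨Nat.find hex, Nat.find_spec hex, fun l hl => Nat.find_min hex hl⟩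
    have hlarge : ∀ l, k0 + 3 ≤ l → w ∉ EP f ((1 / 2) ^ (l + 1)) (4 * (1 / 2) ^ l) := by
      intro l hl hwl
      have h1 := hk0.2.1
      have h2 := hwl.2.2
      have h3 : (4 : ℝ) * (1 / 2) ^ l ≤ (1 / 2) ^ (k0 + 1) := by
        have h4 : ((1 : ℝ) / 2) ^ l ≤ (1 / 2) ^ (k0 + 3) :=
          pow_le_pow_of_le_one (by norm_num) (by norm_num) hl
        have h5 : ((1 : ℝ) / 2) ^ (k0 + 3) = (1 / 2) ^ (k0 + 1) * (1 / 2) ^ 2 := pow_add _ _ 2
        linarith
      linarith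
    have hwU := hk0.1
    rw [indicator_of_mem hwU, tsum_eq_sum (s := Finset.Ico k0 (k0 + 3))]
    · have hterm : ∀ k ∈ Finset.Ico k0 (k0 + 3),
          ENNReal.ofReal ((2 : ℝ) ^ ((k : ℝ) * (1 - s))) *
          (EP f ((1 / 2) ^ (k + 1)) (4 * (1 / 2) ^ k)).indicator
            (fun w => ENNReal.ofReal (ψ w)) w ≤
          ENNReal.ofReal (16 ^ (1 - s)) *
            ENNReal.ofReal ((oo F w / dd f w) ^ p * dd f w ^ (s - 1)) := by
        intro k _
        by_cases hk : w ∈ EP f ((1 / 2) ^ (k + 1)) (4 * (1 / 2) ^ k)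
        · rw [indicator_of_mem hk, ← ENNReal.ofReal_mul (by positivity),
            ← ENNReal.ofReal_mul (by positivity)]
          refine ENNReal.ofReal_le_ofReal ?_
          rw [hψ w hwU, Real.rpow_mul (by norm_num), Real.rpow_natCast]
          refine SumP_point
            (Real.rpow_nonneg (div_pos (oo_pos hf hF hwU).1 (dd_pos hf hwU)).le _)
            (dd_pos hf hwU) (by positivity) hs1 ?_
          have h1 := hk.2.2
          rw [one_div, inv_pow] at h1
          exact h1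
        · rw [indicator_of_notMem hk, mul_zero]
          exact zero_le
      refine (Finset.sum_le_sum hterm).trans (le_of_eq ?_)
      rw [Finset.sum_const, Nat.card_Ico, Nat.add_sub_cancel_left, nsmul_eq_mul]
      norm_num
    · intro k hk
      have h1 : w ∉ EP f ((1 / 2) ^ (k + 1)) (4 * (1 / 2) ^ k) := by
        rw [Finset.mem_Ico] at hk
        by_cases h2 : k < k0
        · exact hmin k h2
        · exact hlarge k (by omega)
      rw [indicator_of_notMem h1, mul_zero]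
  · push Not at hex
    have h1 : ∀ k : ℕ, ENNReal.ofReal ((2 : ℝ) ^ ((k : ℝ) * (1 - s))) *
      (EP f ((1 / 2) ^ (k + 1)) (4 * (1 / 2) ^ k)).indicator
        (fun w => ENNReal.ofReal (ψ w)) w = 0 := by
      intro k
      rw [indicator_of_notMem (hex k), mul_zero]
    simp only [h1, tsum_zero]
    exact zero_le

theorem sum_PS {f F : ℂ → ℂ} (hf : Schl f) (hF : ∀ z ∈ ball (0 : ℂ) 1, F (f z) = z) {p s : ℝ}
    (hint : ∫⁻ w in f '' ball 0 1,
      ENNReal.ofReal ((oo F w / dd f w) ^ p * dd f w ^ (s - 1)) < ⊤)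
    (hs : 0 < s) (hs1 : s < 1) (a b : ℝ) :
    ∑' k : ℕ, ENNReal.ofReal ((2 : ℝ) ^ ((k : ℝ) * (1 - s))) *
      ∫⁻ y in Icc a b, PS p f F k y < ⊤ := by
  obtain ⟨ψ, hψm, hψ⟩ := SumP_psi hf hF p
  obtain ⟨g, hg⟩ : ∃ g : ℕ → ℂ → ℝ≥0∞, g = fun k =>
    (EP f ((1 / 2) ^ (k + 1)) (4 * (1 / 2) ^ k)).indicator
        (fun w => ENNReal.ofReal (ψ w)) := ⟨_, rfl⟩
  have hgm : ∀ k, Measurable (g k) := by
    intro k
    rw [hg]
    exact (ENNReal.measurable_ofReal.comp hψm).indicator (SumP_EP hf _ _)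
  have h3 : ∀ k, ∫⁻ y in Icc a b, PS p f F k y ≤ ∫⁻ w, g k w := by
    intro k
    refine le_trans (lintegral_mono fun y => ?_) (SumP_ton (hgm k) a b)
    rw [hg]
    exact SumP_line hf _ _ y hψ
  have hA : MeasurableSet (f '' ball 0 1) :=
    (isOpen_im isOpen_ball hf.diff hf.inj).measurableSet
  calc ∑' k : ℕ, ENNReal.ofReal ((2 : ℝ) ^ ((k : ℝ) * (1 - s))) * ∫⁻ y in Icc a b, PS p f F k y
      ≤ ∑' k : ℕ, ∫⁻ w, ENNReal.ofReal ((2 : ℝ) ^ ((k : ℝ) * (1 - s))) * g k w := by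
        refine ENNReal.tsum_le_tsum fun k => ?_
        rw [lintegral_const_mul _ (hgm k)]
        gcongr
        exact h3 k
    _ = ∫⁻ w, ∑' k : ℕ, ENNReal.ofReal ((2 : ℝ) ^ ((k : ℝ) * (1 - s))) * g k w := by
        rw [lintegral_tsum fun k => ((hgm k).const_mul _).aemeasurable]
    _ ≤ ∫⁻ w, (f '' ball 0 1).indicator (fun w =>
        3 * (ENNReal.ofReal (16 ^ (1 - s)) *
          ENNReal.ofReal ((oo F w / dd f w) ^ p * dd f w ^ (s - 1)))) w := by
        refine lintegral_mono fun w => ?_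
        rw [hg]
        exact SumP_sum hf hF hψ hs1 w
    _ < ⊤ := by
        rw [lintegral_indicator hA, lintegral_const_mul' _ _ (by norm_num),
          lintegral_const_mul' _ _ ENNReal.ofReal_ne_top]
        exact ENNReal.mul_lt_top (by norm_num)
          (ENNReal.mul_lt_top ENNReal.ofReal_lt_top hint)

end Pool.Agent.H.MP_215299_an.KE
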