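import Pool.Agent.H.MP_215299_an.KE.Hint
import Pool.Agent.H.MP_215299_an.KE.SumP
import Pool.Agent.H.MP_215299_an.KE.PJle
import Pool.Agent.H.MP_215299_an.KE.Split
import Pool.Agent.H.MP_215299_an.KE.Rot
import Pool.Agent.H.MP_215299_an.KD.Dyad

/-!
# KE/MainB: parallel lines

`par0'`: horizontal lines, `dyad` with `PJ`, `PS`, `sum_PS`, `PJ_le_PS`, `LI_split`; the choice of the exponents as in
`H65K.exceptional_directions` (KD/Main). `par`: `par0'` for `rot τ f`, `rot τ F`, and `LI_rot`.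
-/

set_option autoImplicit false

open Complex Metric Set MeasureTheory Filter Topology
open scoped ENNReal

namespace Pool.Agent.H.MP_215299_an.KE

open H65K

theorem parH {f F : ℂ → ℂ} (hf : Schl f) (hF : ∀ z ∈ ball (0 : ℂ) 1, F (f z) = z) {p : ℝ}
    (hp : 1 < p) (hp2 : p < (7 + √7) / 3) :
    dimH {y : ℝ | LI p f F (y * I) 1 = ⊤} ≤ ENNReal.ofReal (sst p) := by
  -- the bound for every larger exponent
  have key : ∀ s : ℝ, sst p < s → s < p - 1 → s < 1 →
      dimH {y : ℝ | LI p f F (y * I) 1 = ⊤} ≤ ENNReal.ofReal s := by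
    intro s hs1 hs2 hs3
    have hs0 : 0 < s := (sst_pos hp).trans hs1
    refine (dimH_mono (t := {y : ℝ | ∑' k : ℕ, PJ p f F k y = ⊤}) fun y hy =>
      LI_split hf hF hp.le y hy).trans ?_
    exact dyad (Js := PS p f F) (C := ENNReal.ofReal ((5 / 2) ^ p)) hs0 hs3 ENNReal.ofReal_ne_top
      (fun k y y' h => PJ_le_PS hf hF (by linarith) k h)
      (fun a b => sum_PS hf hF (hint hf hF hp hs1 hs2 hs3) hs0 hs3 a b)
  refine ENNReal.le_of_forall_pos_le_add ?_
  intro ε hε _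
  have hε' : 0 < (ε : ℝ) := hε
  have h0 := sst_pos hp
  have h1 := sst_lt hp
  have h2 := sst_lt_one hp hp2
  obtain ⟨s, hs⟩ : ∃ s, s = min (sst p + ε) ((sst p + min (p - 1) 1) / 2) := ⟨_, rfl⟩
  have hm : sst p < min (p - 1) 1 := lt_min h1 h2
  have hm1 : min (p - 1) 1 ≤ p - 1 := min_le_left _ _
  have hm2 : min (p - 1) 1 ≤ 1 := min_le_right _ _
  have hs1 : sst p < s := by
    rw [hs]
    exact lt_min (by linarith) (by linarith)
  have hs2 : s ≤ (sst p + min (p - 1) 1) / 2 := by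
    rw [hs]
    exact min_le_right _ _
  have hs3 : s ≤ sst p + ε := by
    rw [hs]
    exact min_le_left _ _
  refine (key s hs1 (by linarith) (by linarith)).trans ?_
  refine (ENNReal.ofReal_le_ofReal hs3).trans ?_
  rw [ENNReal.ofReal_add h0.le hε'.le, ENNReal.ofReal_coe_nnreal]

theorem par {f F : ℂ → ℂ} (hf : Schl f) (hF : ∀ z ∈ ball (0 : ℂ) 1, F (f z) = z) {p : ℝ}
    (hp : 1 < p) (hp2 : p < (7 + √7) / 3) (τ : ℝ) :
    dimH {y : ℝ | LI p f F (y * I * exp (τ * I)) (exp (τ * I)) = ⊤} ≤ ENNReal.ofReal (sst p) := by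
  have h := parH (rot_schl hf τ) (rot_inv hF τ) hp hp2
  have e : {y : ℝ | LI p f F (y * I * exp (τ * I)) (exp (τ * I)) = ⊤} =
      {y : ℝ | LI p (rot τ f) (rot τ F) (y * I) 1 = ⊤} := by
    ext y
    rw [mem_ofPred_eq, mem_ofPred_eq, LI_rot, one_mul]
  rw [e]
  exact h

end Pool.Agent.H.MP_215299_an.KE
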