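import Pool.Agent.H.MP_215299_an.KE.Hint
import Pool.Agent.H.MP_215299_an.KE.Gle
import Pool.Agent.H.MP_215299_an.KE.SumG
import Pool.Agent.H.MP_215299_an.KE.GSplit
import Pool.Agent.H.MP_215299_an.KE.GNear
import Pool.Agent.H.MP_215299_an.KD.Dyad

/-!
# KE/MainG: the lines through a point `a` which is not on the boundary

PROOF: as `H65K.exceptional_directions` in KD/Main: `G_near` gives `ρ`, `M = 8 + (‖a‖ + 1) / ρ`; for every `s` with
`sst p < s < min (p - 1) 1` the lemma `dyad` with `J = GJ p f F a ρ M`, `Js = GS p f F a ρ M`, `GJ_le_GS`, `sum_GS`, `hint`; `G_split`, the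
translate by `π` as in KD/Main; then `s → sst p` (`sst_lt`, `sst_lt_one`, `sst_pos`).
-/

set_option autoImplicit false

open Complex Metric Set MeasureTheory Filter Topology
open scoped ENNReal

namespace Pool.Agent.H.MP_215299_an.KE

open H65K

theorem pencil {f F : ℂ → ℂ} (hf : Schl f) (hF : ∀ z ∈ ball (0 : ℂ) 1, F (f z) = z) {p : ℝ}
    (hp : 1 < p) (hp2 : p < (7 + √7) / 3) {a : ℂ} (ha : a ∉ frontier (f '' ball 0 1)) :
    dimH {θ : ℝ | LI p f F a (exp (θ * I)) = ⊤} ≤ ENNReal.ofReal (sst p) := by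
  obtain ⟨ρ, hρ, hnear⟩ := G_near hf hF (p := p) (by linarith) ha
  obtain ⟨M, hM⟩ : ∃ M, M = 8 + (‖a‖ + 1) / ρ := ⟨_, rfl⟩
  have hM8 : 8 ≤ M := by
    have h1 : 0 ≤ (‖a‖ + 1) / ρ := by positivity
    rw [hM]
    linarith
  -- the bound for every larger exponent
  have key : ∀ s : ℝ, sst p < s → s < p - 1 → s < 1 →
      dimH {θ : ℝ | LI p f F a (exp (θ * I)) = ⊤} ≤ ENNReal.ofReal s := by
    intro s hs1 hs2 hs3
    have hs0 : 0 < s := (sst_pos hp).trans hs1
    have h1 : dimH {θ : ℝ | ∑' k : ℕ, GJ p f F a ρ M k θ = ⊤} ≤ ENNReal.ofReal s :=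
      dyad (Js := GS p f F a ρ M) (C := ENNReal.ofReal ((5 / 2) ^ p)) hs0 hs3 ENNReal.ofReal_ne_top
        (fun k θ φ h => GJ_le_GS hf hF (by linarith) a hρ hM8 k h)
        (fun x y => sum_GS hf hF (hint hf hF hp hs1 hs2 hs3) hs0 hs3 a hρ (by linarith) x y)
    have h2 : dimH ((IsometryEquiv.addRight Real.pi) ⁻¹'
        {θ : ℝ | ∑' k : ℕ, GJ p f F a ρ M k θ = ⊤}) ≤ ENNReal.ofReal s := by
      rw [IsometryEquiv.dimH_preimage]
      exact h1
    refine (dimH_mono (t := {θ : ℝ | ∑' k : ℕ, GJ p f F a ρ M k θ = ⊤} ∪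
      ((IsometryEquiv.addRight Real.pi) ⁻¹'
        {θ : ℝ | ∑' k : ℕ, GJ p f F a ρ M k θ = ⊤})) ?_).trans ?_
    · intro θ hθ
      exact G_split hf hF (by linarith) a hρ hM.ge θ (hnear θ) hθ
    · rw [dimH_union]
      exact max_le h1 h2
  refine ENNReal.le_of_forall_pos_le_add ?_
  intro ε hε _
  have hε' : 0 < (ε : ℝ) := hε
  have h0 := sst_pos hp
  have h1 := sst_lt hp
  have h2 := sst_lt_one hp hp2
  obtain ⟨s, hs⟩ : ∃ s, s = min (sst p + ε) ((sst p + min (p - 1) 1) / 2) := ⟨_, rfl⟩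
  have hm : sst p < min (p - 1) 1 := lt_min h1 h2
  have hm1 : min (p - 1) 1 ≤ p - 1 := min_le_left _ _
  have hm2 : min (p - 1) 1 ≤ 1 := min_le_right _ _
  have hs1 : sst p < s := by
    rw [hs]
    exact lt_min (by linarith) (by linarith)
  have hs2 : s ≤ (sst p + min (p - 1) 1) / 2 := by
    rw [hs]
    exact min_le_right _ _
  have hs3 : s ≤ sst p + ε := by
    rw [hs]
    exact min_le_left _ _
  refine (key s hs1 (by linarith) (by linarith)).trans ?_
  refine (ENNReal.ofReal_le_ofReal hs3).trans ?_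
  rw [ENNReal.ofReal_add h0.le hε'.le, ENNReal.ofReal_coe_nnreal]

end Pool.Agent.H.MP_215299_an.KE
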