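import Mathlib

/-!
# KE/Ode: comparison for the differential inequality

PROOF. `M r = (1 - r)^(-β)`, `N r = β r / 2 * (1 - r)^(-β - 1)`, so `M' = 2 N / r` and
`N' = β / 2 (1 - r)^(-β - 1) + β (β + 1) r / 2 (1 - r)^(-β - 2)`. With `a = u² r / 2 * (16 - 4 r²) / (1 - r²)²`,
`b = 4 u r / (1 - r²)`: `K' ≤ a I - b K`. `(1 - r)^(β + 2) (N' - a M + b N) =
β / 2 (1 - r) + β (β + 1) r / 2 - u² r / 2 (16 - 4 r²) / (1 + r)² + 2 u β r² / (1 + r)` tends to
`(β (β + 1) + 2 u β - 3 u²) / 2 > 0` for `r → 1`, so `N' > a M - b N` on `[r0, 1)`. Choose `C > 0` with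
`C M r0 > I r0`, `C N r0 > K r0`. `D = C M - I`, `E = C N - K`: `D' = 2 E / r`, `E' > a D - b E`. Claim `E > 0` on
`[r0, 1)`: otherwise let `r1` be the least point of `[r0, R]` with `E r1 ≤ 0` (compactness); `E > 0` on `[r0, r1)`, `D` is
monotone on `[r0, r1]`, `D r1 > 0`, `E r1 = 0`, `E' r1 > a D r1 ≥ 0`, so `E < 0` at some points smaller than `r1`, a
contradiction. So `D` is increasing and positive.
-/

set_option autoImplicit false

open Metric Set MeasureTheory Filter Topology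

namespace Pool.Agent.H.MP_215299_an.KE

/-- The limit at `1`. -/
private theorem Ode_lim {u β : ℝ} (h : 3 * u ^ 2 < β * (β + 1) + 2 * u * β) :
    ∃ r0 ∈ Ioo (0 : ℝ) 1, ∀ r ∈ Ico r0 1,
      0 < β / 2 * (1 - r) + β * (β + 1) * r / 2 - u ^ 2 * r / 2 * ((16 - 4 * r ^ 2) / (1 + r) ^ 2) +
        2 * u * β * r ^ 2 / (1 + r) := by
  have hc : ContinuousAt (fun r : ℝ => β / 2 * (1 - r) + β * (β + 1) * r / 2 -
      u ^ 2 * r / 2 * ((16 - 4 * r ^ 2) / (1 + r) ^ 2) + 2 * u * β * r ^ 2 / (1 + r)) 1 := by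
    have h2 : (1 : ℝ) + 1 ≠ 0 := by norm_num
    have h3 : ((1 : ℝ) + 1) ^ 2 ≠ 0 := by norm_num
    refine ContinuousAt.add (ContinuousAt.sub (by fun_prop) (ContinuousAt.mul (by fun_prop)
      (ContinuousAt.div (by fun_prop) (by fun_prop) h3))) (ContinuousAt.div (by fun_prop)
      (by fun_prop) h2)
  have h1 : (0 : ℝ) < β / 2 * (1 - 1) + β * (β + 1) * 1 / 2 -
      u ^ 2 * 1 / 2 * ((16 - 4 * 1 ^ 2) / (1 + 1) ^ 2) + 2 * u * β * 1 ^ 2 / (1 + 1) := by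
    norm_num
    linarith
  have h2 := hc.eventually (lt_mem_nhds h1)
  obtain ⟨ε, hε, h3⟩ := Metric.eventually_nhds_iff.1 h2
  refine ⟨max (1 / 2) (1 - ε / 2), ⟨lt_max_of_lt_left (by norm_num),
    max_lt (by norm_num) (by linarith)⟩, fun r hr => ?_⟩
  apply h3
  have h4 : 1 - ε / 2 ≤ r := (le_max_right _ _).trans hr.1
  rw [Real.dist_eq, abs_lt]
  constructor
  · linarith
  · have := hr.2
    linarith

private theorem Ode_M {β r : ℝ} (hr : r < 1) :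
    HasDerivAt (fun r : ℝ => (1 - r) ^ (-β)) (β * (1 - r) ^ (-β - 1)) r := by
  have h1 : HasDerivAt (fun r : ℝ => 1 - r) (-1) r := by
    simpa using (hasDerivAt_id r).const_sub 1
  have h2 := h1.rpow_const (p := -β) (Or.inl (by
    have : 0 < 1 - r := by linarith
    exact this.ne'))
  convert h2 using 1
  ring

private theorem Ode_N {β r : ℝ} (hr : r < 1) :
    HasDerivAt (fun r : ℝ => β * r / 2 * (1 - r) ^ (-β - 1))
      (β / 2 * (1 - r) ^ (-β - 1) + β * (β + 1) * r / 2 * (1 - r) ^ (-β - 2)) r := by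
  have h1 : HasDerivAt (fun r : ℝ => 1 - r) (-1) r := by
    simpa using (hasDerivAt_id r).const_sub 1
  have h2 := h1.rpow_const (p := -β - 1) (Or.inl (by
    have : 0 < 1 - r := by linarith
    exact this.ne'))
  have h3 : HasDerivAt (fun r : ℝ => β * r / 2) (β / 2) r := by
    have h4 := ((hasDerivAt_id r).const_mul β).div_const 2
    simpa using h4
  have h4 : HasDerivAt (fun r : ℝ => β * r / 2 * (1 - r) ^ (-β - 1))
      (β / 2 * (1 - r) ^ (-β - 1) + β * r / 2 * (-1 * (-β - 1) * (1 - r) ^ (-β - 1 - 1))) r :=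
    h3.mul h2
  refine h4.congr_deriv ?_
  have e : -β - 1 - 1 = -β - 2 := by ring
  rw [e]
  ring

/-- The strict inequality for the comparison functions. -/
private theorem Ode_key {u β r : ℝ} (hr0 : 0 < r) (hr : r < 1)
    (hG : 0 < β / 2 * (1 - r) + β * (β + 1) * r / 2 -
      u ^ 2 * r / 2 * ((16 - 4 * r ^ 2) / (1 + r) ^ 2) + 2 * u * β * r ^ 2 / (1 + r)) :
    u ^ 2 * r / 2 * ((16 - 4 * r ^ 2) / (1 - r ^ 2) ^ 2) * (1 - r) ^ (-β) -
      4 * u * r / (1 - r ^ 2) * (β * r / 2 * (1 - r) ^ (-β - 1)) <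
    β / 2 * (1 - r) ^ (-β - 1) + β * (β + 1) * r / 2 * (1 - r) ^ (-β - 2) := by
  have hp : 0 < 1 - r := by linarith
  have hq : 0 < 1 + r := by linarith
  have hX : 0 < (1 - r) ^ (-β - 2) := Real.rpow_pos_of_pos hp _
  have e1 : (1 - r) ^ (-β - 1) = (1 - r) * (1 - r) ^ (-β - 2) := by
    have h1 : -β - 1 = 1 + (-β - 2) := by ring
    rw [h1, Real.rpow_add hp, Real.rpow_one]
  have e2 : (1 - r) ^ (-β) = (1 - r) ^ 2 * (1 - r) ^ (-β - 2) := by
    have h1 : -β = 2 + (-β - 2) := by ring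
    conv_lhs => rw [h1, Real.rpow_add hp]
    norm_num
  rw [e1, e2]
  generalize (1 - r) ^ (-β - 2) = X at hX ⊢
  have e3 : (1 - r ^ 2) = (1 - r) * (1 + r) := by ring
  rw [e3]
  have h1 := mul_pos hX hG
  have h2 : (β / 2 * ((1 - r) * X) + β * (β + 1) * r / 2 * X) -
      (u ^ 2 * r / 2 * ((16 - 4 * r ^ 2) / ((1 - r) * (1 + r)) ^ 2) * ((1 - r) ^ 2 * X) -
      4 * u * r / ((1 - r) * (1 + r)) * (β * r / 2 * ((1 - r) * X))) =
      X * (β / 2 * (1 - r) + β * (β + 1) * r / 2 -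
      u ^ 2 * r / 2 * ((16 - 4 * r ^ 2) / (1 + r) ^ 2) + 2 * u * β * r ^ 2 / (1 + r)) := by
    field_simp
    ring
  linarith

/-- The comparison. -/
private theorem Ode_cmp {r0 : ℝ} (h0 : 0 < r0) {D E d a b : ℝ → ℝ}
    (hD : ∀ r ∈ Ico r0 1, HasDerivAt D (2 * E r / r) r)
    (hE : ∀ r ∈ Ico r0 1, HasDerivAt E (d r) r)
    (ha : ∀ r ∈ Ico r0 1, 0 ≤ a r) (hd : ∀ r ∈ Ico r0 1, a r * D r - b r * E r < d r)
    (hD0 : 0 < D r0) (hE0 : 0 < E r0) (h1 : r0 < 1) : ∀ r ∈ Ico r0 1, 0 < D r := by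
  have hmono : ∀ R, R < 1 → (∀ r ∈ Ico r0 R, 0 < E r) → MonotoneOn D (Icc r0 R) := by
    intro R hR hpos
    apply monotoneOn_of_deriv_nonneg (convex_Icc _ _)
    · intro r hr
      exact (hD r ⟨hr.1, hr.2.trans_lt hR⟩).continuousAt.continuousWithinAt
    · intro r hr
      rw [interior_Icc] at hr
      exact (hD r ⟨hr.1.le, hr.2.trans hR⟩).differentiableAt.differentiableWithinAt
    · intro r hr
      rw [interior_Icc] at hr
      rw [(hD r ⟨hr.1.le, hr.2.trans hR⟩).deriv]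
      have h2 := hpos r ⟨hr.1.le, hr.2⟩
      have h3 : 0 < r := h0.trans hr.1
      positivity
  have hEpos : ∀ r ∈ Ico r0 1, 0 < E r := by
    intro R hR
    by_contra hneg
    rw [not_lt] at hneg
    have hcont : ContinuousOn E (Icc r0 R) := fun r hr =>
      (hE r ⟨hr.1, hr.2.trans_lt hR.2⟩).continuousAt.continuousWithinAt
    have hcl : IsClosed (Icc r0 R ∩ E ⁻¹' Iic 0) :=
      hcont.preimage_isClosed_of_isClosed isClosed_Icc isClosed_Iic
    have hcomp : IsCompact (Icc r0 R ∩ E ⁻¹' Iic 0) :=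
      isCompact_Icc.of_isClosed_subset hcl inter_subset_left
    have hnon : (Icc r0 R ∩ E ⁻¹' Iic 0).Nonempty := ⟨R, ⟨hR.1, le_rfl⟩, hneg⟩
    obtain ⟨r1, hr1, hmin⟩ := hcomp.exists_isLeast hnon
    have hE1 : E r1 ≤ 0 := hr1.2
    have hr01 : r0 < r1 := by
      rcases hr1.1.1.eq_or_lt with h2 | h2
      · rw [← h2] at hE1
        linarith
      · exact h2
    have hr11 : r1 < 1 := hr1.1.2.trans_lt hR.2
    have hpos : ∀ r ∈ Ico r0 r1, 0 < E r := by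
      intro r hr
      by_contra h2
      rw [not_lt] at h2
      have h3 := hmin (show r ∈ Icc r0 R ∩ E ⁻¹' Iic 0 from
        ⟨⟨hr.1, hr.2.le.trans hr1.1.2⟩, h2⟩)
      linarith [hr.2]
    have hder := hE r1 ⟨hr01.le, hr11⟩
    have hne : (𝓝[<] r1).NeBot := inferInstance
    have hEge : 0 ≤ E r1 := by
      have h2 : Tendsto E (𝓝[<] r1) (𝓝 (E r1)) := hder.continuousAt.tendsto.mono_left
        nhdsWithin_le_nhds
      refine ge_of_tendsto h2 ?_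
      filter_upwards [Ico_mem_nhdsLT hr01] with r hr using (hpos r hr).le
    have hE10 : E r1 = 0 := le_antisymm hE1 hEge
    have hD1 : 0 < D r1 := hD0.trans_le (hmono r1 hr11 hpos ⟨le_rfl, hr01.le⟩
      ⟨hr01.le, le_rfl⟩ hr01.le)
    have hdpos : 0 < d r1 := by
      have h2 := hd r1 ⟨hr01.le, hr11⟩
      have h3 := mul_nonneg (ha r1 ⟨hr01.le, hr11⟩) hD1.le
      rw [hE10, mul_zero, sub_zero] at h2
      linarith
    have hdle : d r1 ≤ 0 := by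
      have h2 : Tendsto (slope E r1) (𝓝[<] r1) (𝓝 (d r1)) :=
        (hasDerivAt_iff_tendsto_slope.1 hder).mono_left
          (nhdsWithin_mono r1 (fun x (hx : x < r1) => ne_of_lt hx))
      refine le_of_tendsto h2 ?_
      filter_upwards [Ico_mem_nhdsLT hr01] with r hr
      rw [slope_def_field, hE10, sub_zero]
      exact div_nonpos_of_nonneg_of_nonpos (hpos r hr).le (by linarith [hr.2])
    linarith
  intro r hr
  have h2 := hmono r hr.2 (fun s hs => hEpos s ⟨hs.1, hs.2.trans hr.2⟩) ⟨le_rfl, hr.1⟩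
    ⟨hr.1, le_rfl⟩ hr.1
  exact hD0.trans_le h2

theorem ode {u β : ℝ} (hu : 0 ≤ u) (hβ : 0 < β) (h : 3 * u ^ 2 < β * (β + 1) + 2 * u * β)
    {I K J : ℝ → ℝ} (hI : ∀ r ∈ Ioo (0 : ℝ) 1, HasDerivAt I (2 * K r / r) r)
    (hK : ∀ r ∈ Ioo (0 : ℝ) 1, HasDerivAt K (2 * r * J r) r)
    (hJ : ∀ r ∈ Ioo (0 : ℝ) 1,
      J r ≤ u ^ 2 / 4 * ((16 - 4 * r ^ 2) / (1 - r ^ 2) ^ 2) * I r - 2 * u / (1 - r ^ 2) * K r) :
    ∃ C r0 : ℝ, 0 ≤ C ∧ r0 ∈ Ioo (0 : ℝ) 1 ∧ ∀ r ∈ Ico r0 1, I r ≤ C * (1 - r) ^ (-β) := by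
  obtain ⟨r0, hr0, hG⟩ := Ode_lim h
  have hM0 : 0 < (1 - r0) ^ (-β) := Real.rpow_pos_of_pos (by linarith [hr0.2]) _
  have hN0 : 0 < β * r0 / 2 * (1 - r0) ^ (-β - 1) := by
    have h1 : 0 < (1 - r0) ^ (-β - 1) := Real.rpow_pos_of_pos (by linarith [hr0.2]) _
    have h2 := hr0.1
    positivity
  obtain ⟨C, hC⟩ : ∃ C, C = |I r0| / (1 - r0) ^ (-β) +
      |K r0| / (β * r0 / 2 * (1 - r0) ^ (-β - 1)) + 1 := ⟨_, rfl⟩
  have hC1 : 0 ≤ |I r0| / (1 - r0) ^ (-β) := by positivity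
  have hC2 : 0 ≤ |K r0| / (β * r0 / 2 * (1 - r0) ^ (-β - 1)) := by positivity
  have hC0 : 0 < C := by rw [hC]; linarith
  refine ⟨C, r0, hC0.le, hr0, ?_⟩
  have hmem : ∀ r ∈ Ico r0 1, r ∈ Ioo (0 : ℝ) 1 := fun r hr => ⟨hr0.1.trans_le hr.1, hr.2⟩
  have key := Ode_cmp (r0 := r0) hr0.1
    (D := fun r => C * (1 - r) ^ (-β) - I r)
    (E := fun r => C * (β * r / 2 * (1 - r) ^ (-β - 1)) - K r)
    (d := fun r => C * (β / 2 * (1 - r) ^ (-β - 1) +
      β * (β + 1) * r / 2 * (1 - r) ^ (-β - 2)) - 2 * r * J r)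
    (a := fun r => u ^ 2 * r / 2 * ((16 - 4 * r ^ 2) / (1 - r ^ 2) ^ 2))
    (b := fun r => 4 * u * r / (1 - r ^ 2)) ?_ ?_ ?_ ?_ ?_ ?_ hr0.2
  · intro r hr
    have h1 : 0 < C * (1 - r) ^ (-β) - I r := key r hr
    linarith
  · intro r hr
    have hr' := hmem r hr
    have h1 := ((Ode_M (β := β) hr.2).const_mul C).sub (hI r hr')
    refine h1.congr_deriv ?_
    have h2 : r ≠ 0 := hr'.1.ne'
    field_simp
  · intro r hr
    exact ((Ode_N (β := β) hr.2).const_mul C).sub (hK r (hmem r hr))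
  · intro r hr
    have hr' := hmem r hr
    have h1 : 0 ≤ 16 - 4 * r ^ 2 := by nlinarith [hr'.1, hr'.2]
    have h2 := hr'.1.le
    show 0 ≤ u ^ 2 * r / 2 * ((16 - 4 * r ^ 2) / (1 - r ^ 2) ^ 2)
    positivity
  · intro r hr
    have hr' := hmem r hr
    have h1 := mul_lt_mul_of_pos_left (Ode_key hr'.1 hr'.2 (hG r hr)) hC0
    have h2 := mul_le_mul_of_nonneg_left (hJ r hr') (show 0 ≤ 2 * r by linarith [hr'.1])
    show u ^ 2 * r / 2 * ((16 - 4 * r ^ 2) / (1 - r ^ 2) ^ 2) * (C * (1 - r) ^ (-β) - I r) -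
      4 * u * r / (1 - r ^ 2) * (C * (β * r / 2 * (1 - r) ^ (-β - 1)) - K r) <
      C * (β / 2 * (1 - r) ^ (-β - 1) + β * (β + 1) * r / 2 * (1 - r) ^ (-β - 2)) - 2 * r * J r
    have e1 : 2 * r * (u ^ 2 / 4 * ((16 - 4 * r ^ 2) / (1 - r ^ 2) ^ 2) * I r -
        2 * u / (1 - r ^ 2) * K r) =
        u ^ 2 * r / 2 * ((16 - 4 * r ^ 2) / (1 - r ^ 2) ^ 2) * I r -
          4 * u * r / (1 - r ^ 2) * K r := by ring
    rw [e1] at h2
    linarith
  · show 0 < C * (1 - r0) ^ (-β) - I r0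
    have h1 : |I r0| / (1 - r0) ^ (-β) < C := by rw [hC]; linarith
    rw [div_lt_iff₀ hM0] at h1
    have h2 := le_abs_self (I r0)
    linarith
  · show 0 < C * (β * r0 / 2 * (1 - r0) ^ (-β - 1)) - K r0
    have h1 : |K r0| / (β * r0 / 2 * (1 - r0) ^ (-β - 1)) < C := by rw [hC]; linarith
    rw [div_lt_iff₀ hN0] at h1
    have h2 := le_abs_self (K r0)
    linarith

end Pool.Agent.H.MP_215299_an.KE
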