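import Pool.Agent.H.MP_215299_an.KD.Bieb
import Pool.Agent.H.MP_215299_an.KD.Ne

/-!
# KE/Root: a power of the derivative as a square

PROOF: `g = exp (-(u/2) l)`, `l` a holomorphic logarithm of `deriv f` (`l' = f'' / f'`, `l 0 = 0`, `exp l = deriv f`; see the proof of
`H65K.Bieb_sqrt` in KD/Bieb; `deriv f ≠ 0` in the disc: `H65K.deriv_inv` with `F = Function.invFunOn f (ball 0 1)`; `deriv f 0 = 1`).
`‖exp (-(u/2) l)‖ ^ 2 = exp (-u Re l) = ‖exp l‖ ^ (-u)`.
-/

set_option autoImplicit false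

open Complex Metric Set MeasureTheory Filter Topology

namespace Pool.Agent.H.MP_215299_an.KE

theorem root {f : ℂ → ℂ} (hf : H65K.Schl f) (u : ℝ) :
    ∃ g : ℂ → ℂ, DifferentiableOn ℂ g (ball 0 1) ∧
      (∀ z ∈ ball (0 : ℂ) 1, ‖g z‖ ^ 2 = ‖deriv f z‖ ^ (-u)) ∧
      ∀ z ∈ ball (0 : ℂ) 1, deriv g z = -((u / 2 : ℝ) : ℂ) * (deriv (deriv f) z / deriv f z) * g z := by
  have hfd : DifferentiableOn ℂ (deriv f) (ball 0 1) := hf.diff.deriv isOpen_ball
  have hne : ∀ z ∈ ball (0 : ℂ) 1, deriv f z ≠ 0 := fun z hz =>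
    (H65K.deriv_inv isOpen_ball hf.diff hf.inj (F := Function.invFunOn f (ball 0 1))
      (fun w hw => hf.inj.leftInvOn_invFunOn hw) hz).1
  have hdk : DifferentiableOn ℂ (deriv (deriv f)) (ball 0 1) := hfd.deriv isOpen_ball
  have hlog : DifferentiableOn ℂ (fun z => deriv (deriv f) z / deriv f z) (ball 0 1) :=
    hdk.div hfd hne
  obtain ⟨l, hl0, hl⟩ := hlog.isExactOn_ball.with_val_at 0 0
  have hld : DifferentiableOn ℂ l (ball 0 1) :=
    fun z hz => (hl z hz).differentiableAt.differentiableWithinAt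
  have hexp : ∀ z ∈ ball (0 : ℂ) 1, exp (l z) = deriv f z := by
    have hd : DifferentiableOn ℂ (fun z => deriv f z * exp (-l z)) (ball 0 1) :=
      hfd.mul (hld.neg.cexp)
    have hder : EqOn (deriv fun z => deriv f z * exp (-l z)) 0 (ball 0 1) := by
      intro z hz
      have h1 : HasDerivAt (deriv f) (deriv (deriv f) z) z :=
        ((hfd z hz).differentiableAt (isOpen_ball.mem_nhds hz)).hasDerivAt
      have h2 : HasDerivAt (fun z => deriv f z * exp (-l z))
          (deriv (deriv f) z * exp (-l z) +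
            deriv f z * (exp (-l z) * -(deriv (deriv f) z / deriv f z))) z :=
        h1.mul ((hl z hz).neg.cexp)
      rw [h2.deriv, Pi.zero_apply]
      have h3 := hne z hz
      field_simp
      ring
    intro z hz
    have h5 := IsOpen.is_const_of_deriv_eq_zero isOpen_ball (convex_ball (0 : ℂ) 1).isPreconnected
      hd hder hz (mem_ball_self one_pos)
    simp only [hf.one, hl0, neg_zero, exp_zero, mul_one] at h5
    rw [exp_neg] at h5
    field_simp at h5
    exact h5.symm
  refine ⟨fun z => exp (-((u / 2 : ℝ) : ℂ) * l z), (hld.const_mul _).cexp, fun z hz => ?_,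
    fun z hz => ?_⟩
  · have h1 : (-((u / 2 : ℝ) : ℂ) * l z).re = -(u / 2) * (l z).re := by
      rw [← Complex.ofReal_neg, Complex.re_ofReal_mul]
    rw [← hexp z hz, Complex.norm_exp, Complex.norm_exp, ← Real.exp_nat_mul, ← Real.exp_mul, h1]
    congr 1
    push_cast
    ring
  · have h1 := ((hl z hz).const_mul (-((u / 2 : ℝ) : ℂ))).cexp
    rw [h1.deriv]
    ring

end Pool.Agent.H.MP_215299_an.KE
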