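import Pool.Agent.H.MP_215299_an.KE.Mean1
import Pool.Agent.H.MP_215299_an.KE.Root
import Pool.Agent.H.MP_215299_an.KE.Circ2
import Pool.Agent.H.MP_215299_an.KE.Ode

/-!
# KE/Mean: the integral means

PROOF: `root`, `JJ_le`, `hasDeriv_II`, `hasDeriv_KK`, `ode` for `r ≥ r0`; for `r ≤ r0` the integrand is bounded on
`closedBall 0 r0` (`deriv f` is continuous and not zero in the disc) and `(1 - r)^(-β) ≥ 1`.
-/

set_option autoImplicit false

open Complex Metric Set MeasureTheory Filter Topology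

namespace Pool.Agent.H.MP_215299_an.KE

theorem means {f : ℂ → ℂ} (hf : H65K.Schl f) {u β : ℝ} (hu : 0 < u) (hβ : 0 < β)
    (h : 3 * u ^ 2 < β * (β + 1) + 2 * u * β) :
    ∃ C : ℝ, 0 ≤ C ∧ ∀ r ∈ Ico (0 : ℝ) 1,
      ∫ θ in (-Real.pi)..Real.pi, ‖deriv f (circleMap 0 r θ)‖ ^ (-u) ≤ C * (1 - r) ^ (-β) := by
  obtain ⟨g, hg, hsq, hder⟩ := root hf u
  obtain ⟨C1, r0, hC1, hr0, hb⟩ := ode hu.le hβ h (I := II g) (K := KK g) (J := JJ g)
    (fun r hr => hasDeriv_II hg hr) (fun r hr => hasDeriv_KK hg hr)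
    (fun r hr => JJ_le hf hu hg hder hr)
  have hnorm : ∀ r ∈ Ico (0 : ℝ) 1, ∀ θ : ℝ, ‖circleMap 0 r θ‖ = r := fun r hr θ => by
    rw [norm_circleMap_zero, abs_of_nonneg hr.1]
  have hII : ∀ r ∈ Ico (0 : ℝ) 1,
      ∫ θ in (-Real.pi)..Real.pi, ‖deriv f (circleMap 0 r θ)‖ ^ (-u) = II g r := by
    intro r hr
    unfold II
    refine intervalIntegral.integral_congr fun θ _ => ?_
    rw [hsq _ (by rw [mem_ball_zero_iff, hnorm r hr]; exact hr.2)]
  -- the bound on the small disc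
  have hcont : ContinuousOn (fun z => ‖g z‖ ^ 2) (closedBall (0 : ℂ) r0) :=
    ((hg.continuousOn.mono (closedBall_subset_ball hr0.2)).norm).pow 2
  obtain ⟨B, hB⟩ := (isCompact_closedBall (0 : ℂ) r0).exists_bound_of_continuousOn hcont
  have hB0 : 0 ≤ B := (norm_nonneg _).trans (hB 0 (mem_closedBall_self hr0.1.le))
  refine ⟨C1 + B * |Real.pi - -Real.pi|, by positivity, fun r hr => ?_⟩
  rw [hII r hr]
  have h1 : 0 < 1 - r := by linarith [hr.2]
  have hone : 1 ≤ (1 - r) ^ (-β) :=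
    Real.one_le_rpow_of_pos_of_le_one_of_nonpos h1 (by linarith [hr.1]) (by linarith)
  rcases le_or_gt r0 r with h2 | h2
  · refine (hb r ⟨h2, hr.2⟩).trans ?_
    have h3 : 0 ≤ B * |Real.pi - -Real.pi| := by positivity
    nlinarith
  · have h3 : ‖II g r‖ ≤ B * |Real.pi - -Real.pi| := by
      unfold II
      refine intervalIntegral.norm_integral_le_of_norm_le_const fun θ _ => ?_
      exact hB _ (by rw [mem_closedBall_zero_iff, hnorm r hr]; exact h2.le)
    have h4 : II g r ≤ B * |Real.pi - -Real.pi| := (le_abs_self _).trans h3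
    have h5 : 0 ≤ B * |Real.pi - -Real.pi| := by positivity
    nlinarith

end Pool.Agent.H.MP_215299_an.KE
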