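import Pool.Agent.H.MP_215299_an.KE.Pre
import Pool.Agent.H.MP_215299_an.KE.Circ1

/-!
# KE/Mean1: the estimate of `JJ`

PROOF of `JJ_le`: pointwise with `w = z f''/f'`, `|z| = r`: `pre` times `r` gives `|(1 - r²) w - 2 r²| ≤ 4 r`, so
`(1 - r²)² |w|² ≤ 16 r² - 4 r⁴ + 4 r² (1 - r²) Re w`; `z g' = -(u/2) w g`, `Re (conj g z g') = -(u/2) Re w |g|²`,
`r² |g'|² = (u²/4) |w|² |g|²`. So `|g'|² ≤ u²/4 (16 - 4 r²) / (1 - r²)² |g|² - 2 u / (1 - r²) Re (conj g z g')`; integrate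
(all functions are continuous in `θ`: `(hg.deriv isOpen_ball).continuousOn.comp_continuous`).
-/

set_option autoImplicit false

open Complex Metric Set MeasureTheory Filter Topology

namespace Pool.Agent.H.MP_215299_an.KE

private theorem Mean1_pt {q G z : ℂ} {r u : ℝ} (hz : ‖z‖ = r) (hr : r ∈ Ioo (0 : ℝ) 1)
    (h : ‖((1 - ‖z‖ ^ 2 : ℝ) : ℂ) * q - 2 * (starRingEnd ℂ) z‖ ≤ 4) :
    ‖-((u / 2 : ℝ) : ℂ) * q * G‖ ^ 2 ≤
      u ^ 2 / 4 * ((16 - 4 * r ^ 2) / (1 - r ^ 2) ^ 2) * ‖G‖ ^ 2 -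
        2 * u / (1 - r ^ 2) * ((starRingEnd ℂ) G * (z * (-((u / 2 : ℝ) : ℂ) * q * G))).re := by
  have hs : 0 < 1 - r ^ 2 := by
    have := hr.1
    have := hr.2
    nlinarith
  rw [hz] at h
  obtain ⟨s, hs'⟩ : ∃ s, s = 1 - r ^ 2 := ⟨_, rfl⟩
  rw [← hs'] at h hs ⊢
  have h1 : ‖(s : ℂ) * q - 2 * (starRingEnd ℂ) z‖ ^ 2 ≤ 16 := by
    have h2 := pow_le_pow_left₀ (norm_nonneg _) h 2
    norm_num at h2
    exact h2
  have hz2 : z.re ^ 2 + z.im ^ 2 = r ^ 2 := by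
    rw [← hz, Complex.sq_norm, Complex.normSq_apply]
    ring
  have e1 : ‖(s : ℂ) * q - 2 * (starRingEnd ℂ) z‖ ^ 2 =
      s ^ 2 * ‖q‖ ^ 2 - 4 * s * (q * z).re + 4 * r ^ 2 := by
    rw [Complex.sq_norm, Complex.sq_norm, Complex.normSq_apply, Complex.normSq_apply, ← hz2]
    simp only [Complex.sub_re, Complex.sub_im, Complex.mul_re, Complex.mul_im, Complex.ofReal_re,
      Complex.ofReal_im, Complex.conj_re, Complex.conj_im, Complex.re_ofNat, Complex.im_ofNat]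
    ring
  have e2 : ‖-((u / 2 : ℝ) : ℂ) * q * G‖ ^ 2 = u ^ 2 / 4 * ‖q‖ ^ 2 * ‖G‖ ^ 2 := by
    rw [norm_mul, norm_mul, norm_neg, Complex.norm_real, mul_pow, mul_pow, Real.norm_eq_abs, sq_abs]
    ring
  have e3 : ((starRingEnd ℂ) G * (z * (-((u / 2 : ℝ) : ℂ) * q * G))).re =
      -(u / 2) * (q * z).re * ‖G‖ ^ 2 := by
    have h3 : (starRingEnd ℂ) G * (z * (-((u / 2 : ℝ) : ℂ) * q * G)) =
        ((-(u / 2) * ‖G‖ ^ 2 : ℝ) : ℂ) * (q * z) := by
      have h4 : (starRingEnd ℂ) G * G = ((‖G‖ ^ 2 : ℝ) : ℂ) := by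
        rw [mul_comm, Complex.mul_conj, Complex.normSq_eq_norm_sq]
      calc (starRingEnd ℂ) G * (z * (-((u / 2 : ℝ) : ℂ) * q * G))
          = -((u / 2 : ℝ) : ℂ) * ((starRingEnd ℂ) G * G) * (q * z) := by ring
        _ = _ := by
            rw [h4]
            push_cast
            ring
    rw [h3, Complex.re_ofReal_mul]
    ring
  rw [e1] at h1
  rw [e2, e3]
  have h5 : ‖q‖ ^ 2 ≤ (16 - 4 * r ^ 2 + 4 * s * (q * z).re) / s ^ 2 := by
    rw [le_div_iff₀ (by positivity)]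
    linarith
  have h6 : u ^ 2 / 4 * ((16 - 4 * r ^ 2) / s ^ 2) * ‖G‖ ^ 2 -
      2 * u / s * (-(u / 2) * (q * z).re * ‖G‖ ^ 2) =
      u ^ 2 / 4 * ((16 - 4 * r ^ 2 + 4 * s * (q * z).re) / s ^ 2) * ‖G‖ ^ 2 := by
    field_simp
    ring
  rw [h6]
  exact mul_le_mul_of_nonneg_right (mul_le_mul_of_nonneg_left h5 (by positivity)) (by positivity)

theorem JJ_le {f : ℂ → ℂ} (hf : H65K.Schl f) {u : ℝ} (hu : 0 < u) {g : ℂ → ℂ}
    (hg : DifferentiableOn ℂ g (ball 0 1))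
    (h2 : ∀ z ∈ ball (0 : ℂ) 1,
      deriv g z = -((u / 2 : ℝ) : ℂ) * (deriv (deriv f) z / deriv f z) * g z)
    {r : ℝ} (hr : r ∈ Ioo (0 : ℝ) 1) :
    JJ g r ≤ u ^ 2 / 4 * ((16 - 4 * r ^ 2) / (1 - r ^ 2) ^ 2) * II g r -
      2 * u / (1 - r ^ 2) * KK g r := by
  have hmem : ∀ θ : ℝ, circleMap 0 r θ ∈ ball (0 : ℂ) 1 := by
    intro θ
    rw [mem_ball, dist_zero_right, norm_circleMap_zero, abs_of_pos hr.1]
    exact hr.2
  have c1 : Continuous fun θ : ℝ => g (circleMap 0 r θ) :=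
    hg.continuousOn.comp_continuous (continuous_circleMap 0 r) hmem
  have c2 : Continuous fun θ : ℝ => deriv g (circleMap 0 r θ) :=
    (hg.deriv isOpen_ball).continuousOn.comp_continuous (continuous_circleMap 0 r) hmem
  have c3 : Continuous fun θ : ℝ => ‖g (circleMap 0 r θ)‖ ^ 2 := c1.norm.pow 2
  have c4 : Continuous fun θ : ℝ => ‖deriv g (circleMap 0 r θ)‖ ^ 2 := c2.norm.pow 2
  have c5 : Continuous fun θ : ℝ => ((starRingEnd ℂ) (g (circleMap 0 r θ)) *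
      (circleMap 0 r θ * deriv g (circleMap 0 r θ))).re :=
    Complex.continuous_re.comp ((Complex.continuous_conj.comp c1).mul
      ((continuous_circleMap 0 r).mul c2))
  have c6 : Continuous fun θ : ℝ => u ^ 2 / 4 * ((16 - 4 * r ^ 2) / (1 - r ^ 2) ^ 2) *
      ‖g (circleMap 0 r θ)‖ ^ 2 := continuous_const.mul c3
  have c7 : Continuous fun θ : ℝ => 2 * u / (1 - r ^ 2) *
      ((starRingEnd ℂ) (g (circleMap 0 r θ)) *
        (circleMap 0 r θ * deriv g (circleMap 0 r θ))).re := continuous_const.mul c5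
  unfold JJ II KK
  rw [← intervalIntegral.integral_const_mul, ← intervalIntegral.integral_const_mul,
    ← intervalIntegral.integral_sub (c6.intervalIntegrable _ _) (c7.intervalIntegrable _ _)]
  refine intervalIntegral.integral_mono_on (by linarith [Real.pi_pos])
    (c4.intervalIntegrable _ _) ((c6.sub c7).intervalIntegrable _ _) ?_
  intro θ _
  have hz : ‖circleMap 0 r θ‖ = r := by rw [norm_circleMap_zero, abs_of_pos hr.1]
  have h3 := Mean1_pt (u := u) (G := g (circleMap 0 r θ)) hz hr (pre hf (hmem θ))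
  rw [← h2 _ (hmem θ)] at h3
  exact h3

end Pool.Agent.H.MP_215299_an.KE
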