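import Pool.Agent.H.MP_215299_an.KD.Defs

/-! # KE/PDef: the pieces of the integral along a horizontal line -/

set_option autoImplicit false

open Complex Metric Set MeasureTheory Filter Topology
open scoped ENNReal

namespace Pool.Agent.H.MP_215299_an.KE

open H65K

/-- The part of `f(𝔻)` where `dd f w / 4` is in `(lo, hi]`. -/
def EP (f : ℂ → ℂ) (lo hi : ℝ) : Set ℂ :=
  {w | w ∈ f '' ball 0 1 ∧ lo < dd f w / 4 ∧ dd f w / 4 ≤ hi}

/-- The integral of `(oo F / dd f)^p` along the part of the line `Im w = y` in `EP f lo hi`. -/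
noncomputable def PR (p : ℝ) (f F : ℂ → ℂ) (lo hi y : ℝ) : ℝ≥0∞ :=
  ∫⁻ x in {x : ℝ | (x : ℂ) + y * I ∈ EP f lo hi},
    ENNReal.ofReal ((oo F (x + y * I) / dd f (x + y * I)) ^ p)

/-- The pieces. -/
noncomputable def PJ (p : ℝ) (f F : ℂ → ℂ) (k : ℕ) (y : ℝ) : ℝ≥0∞ :=
  PR p f F ((1 / 2) ^ k) (2 * (1 / 2) ^ k) y

/-- The enlarged pieces. -/
noncomputable def PS (p : ℝ) (f F : ℂ → ℂ) (k : ℕ) (y : ℝ) : ℝ≥0∞ :=
  PR p f F ((1 / 2) ^ (k + 1)) (4 * (1 / 2) ^ k) y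

/-- The integral of `|F'|^p` over the part in `f(𝔻)` of the line `{a + t u}`. -/
noncomputable def LI (p : ℝ) (f F : ℂ → ℂ) (a u : ℂ) : ℝ≥0∞ :=
  ∫⁻ t in {t : ℝ | a + t * u ∈ f '' ball 0 1}, ENNReal.ofReal (‖deriv F (a + t * u)‖ ^ p)

end Pool.Agent.H.MP_215299_an.KE
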