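import Mathlib

/-!
# KE/Par0: differentiation under an integral over a circle

PROOF: `intervalIntegral.hasDerivAt_integral_of_dominated_loc_of_deriv_le` on a ball of radius
`ε = min r (1 - r) / 2` around `r`; the bound is the maximum of `|G' ρ θ|` on the compact set
`Icc (r - ε) (r + ε) ×ˢ Icc (-π) π` (contained in `Ioo 0 1 ×ˢ univ`).
-/

set_option autoImplicit false

open Complex Metric Set MeasureTheory Filter Topology

namespace Pool.Agent.H.MP_215299_an.KE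

theorem par0 {G G' : ℝ → ℝ → ℝ}
    (hG : ∀ r ∈ Ioo (0 : ℝ) 1, ∀ θ : ℝ, HasDerivAt (fun ρ => G ρ θ) (G' r θ) r)
    (hc : ∀ r ∈ Ioo (0 : ℝ) 1, Continuous (G r))
    (hc' : ContinuousOn (fun q : ℝ × ℝ => G' q.1 q.2) (Ioo (0 : ℝ) 1 ×ˢ univ))
    {r : ℝ} (hr : r ∈ Ioo (0 : ℝ) 1) :
    HasDerivAt (fun ρ => ∫ θ in (-Real.pi)..Real.pi, G ρ θ)
      (∫ θ in (-Real.pi)..Real.pi, G' r θ) r := by
  obtain ⟨ε, hε, hsub⟩ : ∃ ε > 0, Icc (r - ε) (r + ε) ⊆ Ioo (0 : ℝ) 1 := by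
    refine ⟨min r (1 - r) / 2, ?_, ?_⟩
    · have h1 : 0 < min r (1 - r) := lt_min hr.1 (by linarith [hr.2])
      linarith
    · intro ρ hρ
      have h1 : 0 < min r (1 - r) := lt_min hr.1 (by linarith [hr.2])
      have h2 : min r (1 - r) ≤ r := min_le_left _ _
      have h3 : min r (1 - r) ≤ 1 - r := min_le_right _ _
      exact ⟨by linarith [hρ.1], by linarith [hρ.2]⟩
  have hK : IsCompact (Icc (r - ε) (r + ε) ×ˢ Icc (-Real.pi) Real.pi) :=
    isCompact_Icc.prod isCompact_Icc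
  have hKs : Icc (r - ε) (r + ε) ×ˢ Icc (-Real.pi) Real.pi ⊆ Ioo (0 : ℝ) 1 ×ˢ (univ : Set ℝ) :=
    fun q hq => ⟨hsub hq.1, mem_univ _⟩
  obtain ⟨C, hC⟩ := hK.exists_bound_of_continuousOn (hc'.mono hKs)
  have hpi : -Real.pi ≤ Real.pi := by linarith [Real.pi_pos]
  have hs : Ioo (r - ε) (r + ε) ∈ 𝓝 r := Ioo_mem_nhds (by linarith) (by linarith)
  have hG'c : Continuous (G' r) := by
    rw [← continuousOn_univ]
    exact hc'.comp (continuousOn_const.prodMk continuousOn_id) fun θ _ => ⟨hr, mem_univ _⟩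
  refine (intervalIntegral.hasDerivAt_integral_of_dominated_loc_of_deriv_le
    (bound := fun _ => C) hs ?_ ((hc r hr).intervalIntegrable _ _)
    hG'c.aestronglyMeasurable ?_ intervalIntegrable_const ?_).2
  · filter_upwards [hs] with ρ hρ
    exact (hc ρ (hsub (Ioo_subset_Icc_self hρ))).aestronglyMeasurable
  · refine Eventually.of_forall fun θ hθ ρ hρ => ?_
    rw [uIoc_of_le hpi] at hθ
    exact hC (ρ, θ) ⟨Ioo_subset_Icc_self hρ, Ioc_subset_Icc_self hθ⟩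
  · refine Eventually.of_forall fun θ _ ρ hρ => ?_
    exact hG ρ (hsub (Ioo_subset_Icc_self hρ)) θ

end Pool.Agent.H.MP_215299_an.KE
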