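import Pool.Agent.H.MP_215299_an.KD.Quar

/-!
# KE/Pre: the second derivative of a univalent function (from `|a₂| ≤ 2`)

PROOF: as in the proof of `H65K.shift` (KD/Quar, copy the private lemmas `Quar_phi`, `Quar_den`, `Quar_map`, `Quar_inj`,
`Quar_der` with new names `Pre_...`): `H ζ = (f (φ ζ) - f z) / c`, `φ ζ = (ζ + z) / (1 + conj z ζ)`,
`c = (1 - |z|²) f'(z)`, is in `Schl`, its derivative is `deriv f (φ ζ) * (1 - |z|²) / (1 + conj z ζ)² / c`, so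
`deriv (deriv H) 0 = (1 - |z|²) f''(z) / f'(z) - 2 conj z`. `H65K.bieb`.
-/

set_option autoImplicit false

open Complex Metric Set MeasureTheory Filter Topology

namespace Pool.Agent.H.MP_215299_an.KE

/-- the automorphism of the disc -/
private noncomputable def Pre_phi (z ζ : ℂ) : ℂ := (ζ + z) / (1 + (starRingEnd ℂ) z * ζ)

private theorem Pre_den {z ζ : ℂ} (hz : ‖z‖ < 1) (hζ : ‖ζ‖ < 1) :
    1 + (starRingEnd ℂ) z * ζ ≠ 0 := by
  intro h1
  have h2 : (starRingEnd ℂ) z * ζ = -1 := by linear_combination h1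
  have h3 : ‖(starRingEnd ℂ) z * ζ‖ = 1 := by rw [h2, norm_neg, norm_one]
  rw [norm_mul, Complex.norm_conj] at h3
  have h4 := mul_lt_one_of_nonneg_of_lt_one_left (norm_nonneg z) hz hζ.le
  linarith

private theorem Pre_map {z ζ : ℂ} (hz : ‖z‖ < 1) (hζ : ‖ζ‖ < 1) : ‖Pre_phi z ζ‖ < 1 := by
  unfold Pre_phi
  rw [norm_div, div_lt_one (norm_pos_iff.2 (Pre_den hz hζ))]
  have h1 : ‖ζ + z‖ ^ 2 < ‖1 + (starRingEnd ℂ) z * ζ‖ ^ 2 := by
    have e1 : ‖1 + (starRingEnd ℂ) z * ζ‖ ^ 2 - ‖ζ + z‖ ^ 2 = (1 - ‖z‖ ^ 2) * (1 - ‖ζ‖ ^ 2) := by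
      simp only [← Complex.normSq_eq_norm_sq, Complex.normSq_apply, Complex.add_re,
        Complex.add_im, Complex.mul_re, Complex.mul_im, Complex.conj_re, Complex.conj_im,
        Complex.one_re, Complex.one_im]
      ring
    have h2 : 0 < 1 - ‖z‖ ^ 2 := by nlinarith [norm_nonneg z]
    have h3 : 0 < 1 - ‖ζ‖ ^ 2 := by nlinarith [norm_nonneg ζ]
    have h4 := mul_pos h2 h3
    linarith
  exact lt_of_pow_lt_pow_left₀ 2 (norm_nonneg _) h1

private theorem Pre_inj {z ζ ξ : ℂ} (hz : ‖z‖ < 1) (hζ : ‖ζ‖ < 1) (hξ : ‖ξ‖ < 1)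
    (h : Pre_phi z ζ = Pre_phi z ξ) : ζ = ξ := by
  unfold Pre_phi at h
  have h1 := (div_eq_div_iff (Pre_den hz hζ) (Pre_den hz hξ)).1 h
  have h2 : (1 - z * (starRingEnd ℂ) z) * (ζ - ξ) = 0 := by linear_combination h1
  rcases mul_eq_zero.1 h2 with h3 | h3
  · exfalso
    rw [Complex.mul_conj, Complex.normSq_eq_norm_sq] at h3
    have h4 : ((1 - ‖z‖ ^ 2 : ℝ) : ℂ) = 0 := by push_cast; exact_mod_cast h3
    have h5 : (1 - ‖z‖ ^ 2 : ℝ) = 0 := by exact_mod_cast h4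
    nlinarith [norm_nonneg z]
  · exact sub_eq_zero.1 h3

private theorem Pre_der {z ζ : ℂ} (hz : ‖z‖ < 1) (hζ : ‖ζ‖ < 1) :
    HasDerivAt (Pre_phi z) ((1 - z * (starRingEnd ℂ) z) / (1 + (starRingEnd ℂ) z * ζ) ^ 2) ζ := by
  have h1 := ((hasDerivAt_id ζ).add_const z).div
    (((hasDerivAt_id ζ).const_mul ((starRingEnd ℂ) z)).const_add 1) (Pre_den hz hζ)
  refine h1.congr_deriv ?_
  congr 1
  simp only [id]
  ring

theorem pre {f : ℂ → ℂ} (hf : H65K.Schl f) {z : ℂ} (hz : z ∈ ball (0 : ℂ) 1) :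
    ‖((1 - ‖z‖ ^ 2 : ℝ) : ℂ) * (deriv (deriv f) z / deriv f z) - 2 * (starRingEnd ℂ) z‖ ≤ 4 := by
  have hd := hf.diff
  have hi := hf.inj
  have hz1 : ‖z‖ < 1 := by simpa using hz
  obtain ⟨F, hF⟩ : ∃ F : ℂ → ℂ, ∀ z ∈ ball (0 : ℂ) 1, F (f z) = z :=
    ⟨Function.invFunOn f (ball 0 1), fun z hz => hi.leftInvOn_invFunOn hz⟩
  have hne := (H65K.deriv_inv isOpen_ball hd hi hF hz).1
  obtain ⟨c, hc⟩ : ∃ c : ℂ, c = (1 - z * (starRingEnd ℂ) z) * deriv f z := ⟨_, rfl⟩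
  have hcz : (1 - z * (starRingEnd ℂ) z) = ((1 - ‖z‖ ^ 2 : ℝ) : ℂ) := by
    rw [Complex.mul_conj, Complex.normSq_eq_norm_sq]
    push_cast
    ring
  have hpos : 0 < 1 - ‖z‖ ^ 2 := by nlinarith [norm_nonneg z]
  have hq0 : (1 - z * (starRingEnd ℂ) z) ≠ 0 := by
    rw [hcz]
    exact_mod_cast hpos.ne'
  have hc0 : c ≠ 0 := by
    rw [hc]
    exact mul_ne_zero hq0 hne
  have hphi0 : Pre_phi z 0 = z := by
    unfold Pre_phi
    rw [mul_zero, add_zero, div_one, zero_add]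
  have hder : ∀ ζ ∈ ball (0 : ℂ) 1, HasDerivAt (fun ζ => (f (Pre_phi z ζ) - f z) / c)
      (deriv f (Pre_phi z ζ) *
        ((1 - z * (starRingEnd ℂ) z) / (1 + (starRingEnd ℂ) z * ζ) ^ 2) / c) ζ := by
    intro ζ hζ
    have hζ1 : ‖ζ‖ < 1 := by simpa using hζ
    have h1 : HasDerivAt f (deriv f (Pre_phi z ζ)) (Pre_phi z ζ) :=
      (hd.differentiableAt (isOpen_ball.mem_nhds (by simpa using Pre_map hz1 hζ1))).hasDerivAt
    exact ((h1.comp ζ (Pre_der hz1 hζ1)).sub_const (f z)).div_const c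
  have hH : H65K.Schl (fun ζ => (f (Pre_phi z ζ) - f z) / c) := by
    refine ⟨fun ζ hζ => (hder ζ hζ).differentiableAt.differentiableWithinAt, ?_, ?_, ?_⟩
    · intro a ha b hb hab
      have ha1 : ‖a‖ < 1 := by simpa using ha
      have hb1 : ‖b‖ < 1 := by simpa using hb
      have h1 : f (Pre_phi z a) - f z = f (Pre_phi z b) - f z := (div_left_inj' hc0).1 hab
      exact Pre_inj hz1 ha1 hb1 (hi (by simpa using Pre_map hz1 ha1)
        (by simpa using Pre_map hz1 hb1) (sub_left_injective h1))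
    · show (f (Pre_phi z 0) - f z) / c = 0
      rw [hphi0, sub_self, zero_div]
    · rw [(hder 0 (mem_ball_self one_pos)).deriv, hphi0, mul_zero, add_zero, one_pow, div_one,
        mul_comm, ← hc, div_self hc0]
  have h00 : ‖(0 : ℂ)‖ < 1 := by rw [norm_zero]; exact one_pos
  have hd2 : HasDerivAt (deriv f) (deriv (deriv f) z) (Pre_phi z 0) := by
    rw [hphi0]
    exact ((hd.deriv isOpen_ball).differentiableAt (isOpen_ball.mem_nhds hz)).hasDerivAt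
  have k1 := hd2.comp (0 : ℂ) (Pre_der hz1 h00)
  have k2 := (hasDerivAt_const (0 : ℂ) (1 - z * (starRingEnd ℂ) z)).div
    ((((hasDerivAt_id (0 : ℂ)).const_mul ((starRingEnd ℂ) z)).const_add 1).pow 2)
    (pow_ne_zero 2 (Pre_den hz1 h00))
  have k3 := (k1.mul k2).div_const c
  have he : deriv (fun ζ => (f (Pre_phi z ζ) - f z) / c) =ᶠ[𝓝 0]
      fun ζ => deriv f (Pre_phi z ζ) *
        ((1 - z * (starRingEnd ℂ) z) / (1 + (starRingEnd ℂ) z * ζ) ^ 2) / c := by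
    filter_upwards [isOpen_ball.mem_nhds (mem_ball_self one_pos)] with ζ hζ
    exact (hder ζ hζ).deriv
  have h2 : deriv (deriv (fun ζ => (f (Pre_phi z ζ) - f z) / c)) 0 =
      ((1 - ‖z‖ ^ 2 : ℝ) : ℂ) * (deriv (deriv f) z / deriv f z) - 2 * (starRingEnd ℂ) z := by
    rw [he.deriv_eq]
    have k4 : HasDerivAt (fun ζ => deriv f (Pre_phi z ζ) *
        ((1 - z * (starRingEnd ℂ) z) / (1 + (starRingEnd ℂ) z * ζ) ^ 2) / c) _ 0 := k3
    rw [k4.deriv, ← hcz]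
    simp only [Function.comp_apply, hphi0, id_eq, Pi.pow_apply, Pi.div_apply]
    rw [hc]
    field_simp
    ring
  rw [← h2]
  exact H65K.bieb hH

end Pool.Agent.H.MP_215299_an.KE
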